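import Pool.Agent.Run7.h443.WE.Tau

/-!
# Solutions of equations with parameters
-/

set_option autoImplicit false

namespace Pool.Agent.Run7.h443.WE

open Filter Topology

section
variable {K : Type*} [NontriviallyNormedField K]
variable {X E F : Type*} [NormedAddCommGroup X] [NormedSpace K X] [CompleteSpace X]
  [NormedAddCommGroup E] [NormedSpace K E] [CompleteSpace E]
  [NormedAddCommGroup F] [NormedSpace K F] [CompleteSpace F]

/-- The implicit function theorem in the form of the existence of solutions. -/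
theorem ift {G : X × E → F} {x₀ : X} {e₀ : E} (hG : AnalyticAt K G (x₀, e₀))
    (h0 : G (x₀, e₀) = 0)
    (hs : ∀ v : F, ∃ e' : E, HasDerivAt (fun s : K => G (x₀, e₀ + s • e')) v 0)
    {U : Set E} (hU : U ∈ 𝓝 e₀) : ∀ᶠ x in 𝓝 x₀, ∃ e ∈ U, G (x, e) = 0 := by
  have hG' := hG.hasStrictFDerivAt
  set G' := fderiv K G (x₀, e₀) with hG'def
  have hΨ : HasStrictFDerivAt (fun q : X × E => (q.1, G q))
      ((ContinuousLinearMap.fst K X E).prod G') (x₀, e₀) :=
    (hasStrictFDerivAt_fst).prodMk hG'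
  have hpart : ∀ v : F, ∃ e' : E, G' (0, e') = v := by
    intro v
    obtain ⟨e', he'⟩ := hs v
    refine ⟨e', ?_⟩
    have h1 : HasDerivAt (fun s : K => ((x₀, e₀ + s • e') : X × E)) (0, e') 0 := by
      apply HasDerivAt.prodMk (hasDerivAt_const _ _)
      have h2 : HasDerivAt (fun s : K => s • e') ((1 : K) • e') 0 :=
        (hasDerivAt_id (0 : K)).smul_const e'
      rw [one_smul] at h2
      simpa using h2.const_add e₀
    have h3 : HasFDerivAt G G' ((fun s : K => ((x₀, e₀ + s • e') : X × E)) 0) := by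
      simpa using hG'.hasFDerivAt
    have h4 := h3.comp_hasDerivAt (0 : K) h1
    exact h4.unique he'
  have hsurj : (((ContinuousLinearMap.fst K X E).prod G').range) = ⊤ := by
    rw [LinearMap.range_eq_top]
    rintro ⟨a, b⟩
    obtain ⟨e', he'⟩ := hpart (b - G' (a, 0))
    refine ⟨(a, e'), ?_⟩
    have h5 : ((a, e') : X × E) = (a, 0) + (0, e') := by simp
    show (a, G' (a, e')) = (a, b)
    rw [h5, map_add, he']
    simp
  have hmap := hΨ.map_nhds_eq_of_surj hsurj
  have h6 : (Set.univ ×ˢ U : Set (X × E)) ∈ 𝓝 (x₀, e₀) := prod_mem_nhds univ_mem hU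
  have h7 : (fun q : X × E => (q.1, G q)) '' (Set.univ ×ˢ U) ∈ 𝓝 (x₀, (0 : F)) := by
    have h8 := image_mem_map (m := fun q : X × E => (q.1, G q)) h6
    rw [hmap, h0] at h8
    exact h8
  have h9 : Tendsto (fun x : X => (x, (0 : F))) (𝓝 x₀) (𝓝 (x₀, (0 : F))) :=
    Continuous.tendsto (by fun_prop) x₀
  filter_upwards [h9 h7] with x hx
  obtain ⟨q, hq, hq2⟩ := hx
  have h10 : q.1 = x := congrArg Prod.fst hq2
  have h11 : G q = 0 := congrArg Prod.snd hq2
  refine ⟨q.2, hq.2, ?_⟩
  rw [← h10]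
  exact h11

end

end Pool.Agent.Run7.h443.WE
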