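import Pool.Agent.Run7.h443.WE.Ift

/-!
# Local analysis on cubic hypersurfaces: curves and solutions with parameters
-/

set_option autoImplicit false

namespace Pool.Agent.Run7.h443.WE

open Filter Topology

section an
variable {ι : Type*} [Fintype ι] {K : Type*} [NontriviallyNormedField K]
variable {Y : Type*} [NormedAddCommGroup Y] [NormedSpace K Y]

theorem anL {E F : Type*} [NormedAddCommGroup E] [NormedSpace K E] [NormedAddCommGroup F]
    [NormedSpace K F] (L : E →L[K] F) {a : Y → E} {p : Y} (ha : AnalyticAt K a p) :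
    AnalyticAt K (fun q => L (a q)) p := (L.analyticAt (a p)).fun_comp ha

theorem an1 {x : Y → ι → K} {p : Y} (hx : AnalyticAt K x p) (i : ι) :
    AnalyticAt K (fun q => x q i) p :=
  anL (ContinuousLinearMap.proj (R := K) (φ := fun _ : ι => K) i) hx

theorem an3 {a : Y → ι → ι → ι → K} {p : Y} (ha : AnalyticAt K a p) (i j k : ι) :
    AnalyticAt K (fun q => a q i j k) p := by
  have h1 : AnalyticAt K (fun q => a q i) p :=
    anL (ContinuousLinearMap.proj (R := K) (φ := fun _ : ι => ι → ι → K) i) ha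
  have h2 : AnalyticAt K (fun q => a q i j) p :=
    anL (ContinuousLinearMap.proj (R := K) (φ := fun _ : ι => ι → K) j) h1
  exact anL (ContinuousLinearMap.proj (R := K) (φ := fun _ : ι => K) k) h2

theorem analytic_tau {a : Y → ι → ι → ι → K} {x y z : Y → ι → K} {p : Y}
    (ha : AnalyticAt K a p) (hx : AnalyticAt K x p) (hy : AnalyticAt K y p)
    (hz : AnalyticAt K z p) : AnalyticAt K (fun q => tau (a q) (x q) (y q) (z q)) p := by
  unfold tau
  refine Finset.analyticAt_fun_sum _ fun i _ => ?_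
  refine Finset.analyticAt_fun_sum _ fun j _ => ?_
  refine Finset.analyticAt_fun_sum _ fun k _ => ?_
  exact (((an3 ha i j k).mul (an1 hx i)).mul (an1 hy j)).mul (an1 hz k)

theorem cont_tau {Z : Type*} [TopologicalSpace Z] {a : Z → ι → ι → ι → K} {x y z : Z → ι → K}
    (ha : Continuous a) (hx : Continuous x) (hy : Continuous y) (hz : Continuous z) :
    Continuous (fun q => tau (a q) (x q) (y q) (z q)) := by
  unfold tau
  fun_prop

theorem hd3 (a b c d : K) : HasDerivAt (fun s : K => a + b * s + c * s ^ 2 + d * s ^ 3) b 0 := by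
  have h1 : HasDerivAt (fun s : K => b * s) b 0 := by
    have := (hasDerivAt_id (0 : K)).const_mul b
    rwa [mul_one] at this
  have h2 : HasDerivAt (fun s : K => c * s ^ 2) 0 0 := by
    have := (hasDerivAt_pow 2 (0 : K)).const_mul c
    simpa using this
  have h3 : HasDerivAt (fun s : K => d * s ^ 3) 0 0 := by
    have := (hasDerivAt_pow 3 (0 : K)).const_mul d
    simpa using this
  have h4 := ((h1.const_add a).add h2).add h3
  rw [add_zero, add_zero] at h4
  exact h4

end an

section loc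
variable {ι : Type*} [Fintype ι] {K : Type*} [NontriviallyNormedField K] [CompleteSpace K]
  {t : ι → ι → ι → K}

/-- A smooth point of a cubic hypersurface moves with the equation. -/
theorem point_near (h : Sym t) (h3 : (3 : K) ≠ 0) {P u : ι → K} (hP : tau t P P P = 0)
    (hu : tau t P P u ≠ 0) {U : Set (ι → K)} (hU : U ∈ 𝓝 P) :
    ∀ᶠ t' in 𝓝 t, ∃ P' ∈ U, tau t' P' P' P' = 0 := by
  have hG : AnalyticAt K (fun q : (ι → ι → ι → K) × (ι → K) => tau q.1 q.2 q.2 q.2) (t, P) := by
    exact analytic_tau analyticAt_fst analyticAt_snd analyticAt_snd analyticAt_snd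
  refine ift hG hP ?_ hU
  intro v
  refine ⟨(v / (3 * tau t P P u)) • u, ?_⟩
  have h1 : (fun s : K => tau t (P + s • (v / (3 * tau t P P u)) • u)
      (P + s • (v / (3 * tau t P P u)) • u) (P + s • (v / (3 * tau t P P u)) • u)) =
      fun s : K => 0 + v * s +
        (3 * tau t P ((v / (3 * tau t P P u)) • u) ((v / (3 * tau t P P u)) • u)) * s ^ 2 +
        tau t ((v / (3 * tau t P P u)) • u) ((v / (3 * tau t P P u)) • u)
          ((v / (3 * tau t P P u)) • u) * s ^ 3 := by
    funext s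
    rw [cub_add h, hP]
    simp only [tau_smul1, tau_smul2, tau_smul3]
    field_simp
  show HasDerivAt (fun s : K => tau t (P + s • (v / (3 * tau t P P u)) • u)
      (P + s • (v / (3 * tau t P P u)) • u) (P + s • (v / (3 * tau t P P u)) • u)) v 0
  rw [h1]
  exact hd3 _ _ _ _

/-- Curves on a cubic hypersurface with a given tangent direction. -/
theorem curve (h : Sym t) (h3 : (3 : K) ≠ 0) {x r e : ι → K} (hx : tau t x x x = 0)
    (hr : tau t x x r = 0) (he : tau t x x e ≠ 0) {δ : ℝ} (hδ : 0 < δ) :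
    ∀ᶠ s in 𝓝 (0 : K), ∃ ρ : K, ‖ρ‖ < δ ∧
      tau t (x + s • (r + ρ • e)) (x + s • (r + ρ • e)) (x + s • (r + ρ • e)) = 0 := by
  have hw : AnalyticAt K (fun q : K × K => r + q.2 • e) (0, 0) :=
    analyticAt_const.add (anL (ContinuousLinearMap.toSpanSingleton K e) analyticAt_snd)
  have hG : AnalyticAt K (fun q : K × K => 3 * q.2 * tau t x x e +
      3 * q.1 * tau t x (r + q.2 • e) (r + q.2 • e) +
      q.1 ^ 2 * tau t (r + q.2 • e) (r + q.2 • e) (r + q.2 • e)) (0, 0) := by
    refine AnalyticAt.add (AnalyticAt.add ?_ ?_) ?_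
    · exact (analyticAt_const.mul analyticAt_snd).mul analyticAt_const
    · exact (analyticAt_const.mul analyticAt_fst).mul
        (analytic_tau analyticAt_const analyticAt_const hw hw)
    · exact (analyticAt_fst.pow 2).mul (analytic_tau analyticAt_const hw hw hw)
  have h0 : 3 * ((0 : K), (0 : K)).2 * tau t x x e +
      3 * ((0 : K), (0 : K)).1 * tau t x (r + ((0 : K), (0 : K)).2 • e)
        (r + ((0 : K), (0 : K)).2 • e) +
      ((0 : K), (0 : K)).1 ^ 2 * tau t (r + ((0 : K), (0 : K)).2 • e)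
        (r + ((0 : K), (0 : K)).2 • e) (r + ((0 : K), (0 : K)).2 • e) = 0 := by
    simp
  have h1 := ift (U := Metric.ball (0 : K) δ) hG h0 ?_ (Metric.ball_mem_nhds _ hδ)
  · filter_upwards [h1] with s hs
    obtain ⟨ρ, hρ, h2⟩ := hs
    refine ⟨ρ, by simpa using hρ, ?_⟩
    rw [cub_add h, hx]
    simp only [tau_smul1, tau_smul2, tau_smul3]
    rw [tau_add3, tau_smul3, hr]
    have h4 : 3 * ρ * tau t x x e + 3 * s * tau t x (r + ρ • e) (r + ρ • e) +
      s ^ 2 * tau t (r + ρ • e) (r + ρ • e) (r + ρ • e) = 0 := h2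
    linear_combination s * h4
  · intro v
    refine ⟨v / (3 * tau t x x e), ?_⟩
    have h5 : (fun s : K => 3 * (((0 : K), (0 : K) + s • (v / (3 * tau t x x e))) : K × K).2 *
        tau t x x e + 3 * (((0 : K), (0 : K) + s • (v / (3 * tau t x x e))) : K × K).1 *
        tau t x (r + (((0 : K), (0 : K) + s • (v / (3 * tau t x x e))) : K × K).2 • e)
          (r + (((0 : K), (0 : K) + s • (v / (3 * tau t x x e))) : K × K).2 • e) +
        (((0 : K), (0 : K) + s • (v / (3 * tau t x x e))) : K × K).1 ^ 2 *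
        tau t (r + (((0 : K), (0 : K) + s • (v / (3 * tau t x x e))) : K × K).2 • e)
          (r + (((0 : K), (0 : K) + s • (v / (3 * tau t x x e))) : K × K).2 • e)
          (r + (((0 : K), (0 : K) + s • (v / (3 * tau t x x e))) : K × K).2 • e)) =
        fun s : K => 0 + v * s + 0 * s ^ 2 + 0 * s ^ 3 := by
      funext s
      simp only [zero_add, smul_eq_mul]
      field_simp
      ring
    exact h5 ▸ hd3 0 v 0 0

/-- A continuous function which vanishes at the points of the curves vanishes in the limit. -/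
theorem curve_limit (h : Sym t) (h3 : (3 : K) ≠ 0) {x r e : ι → K} (hx : tau t x x x = 0)
    (hr : tau t x x r = 0) (he : tau t x x e ≠ 0) {Ξ : K × K → K}
    (hΞ : ContinuousAt Ξ (0, 0))
    (hz : ∀ᶠ q : K × K in 𝓝 (0, 0), q.1 ≠ 0 → tau t (x + q.1 • (r + q.2 • e))
      (x + q.1 • (r + q.2 • e)) (x + q.1 • (r + q.2 • e)) = 0 → Ξ q = 0) : Ξ (0, 0) = 0 := by
  by_contra hne
  have h1 : ∀ᶠ q : K × K in 𝓝 (0, 0), Ξ q ≠ 0 := hΞ.eventually_ne hne
  have h2 := hz.and h1
  rw [Metric.eventually_nhds_iff] at h2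
  obtain ⟨δ, hδ, h2⟩ := h2
  have h4 := curve h h3 hx hr he hδ
  rw [Metric.eventually_nhds_iff] at h4
  obtain ⟨δ', hδ', h4⟩ := h4
  obtain ⟨s, hs0, hs⟩ := NormedField.exists_norm_lt K (lt_min hδ hδ')
  have hs1 : ‖s‖ < δ := hs.trans_le (min_le_left _ _)
  have hs2 : ‖s‖ < δ' := hs.trans_le (min_le_right _ _)
  obtain ⟨ρ, hρ, h5⟩ := h4 (y := s) (by simpa [dist_eq_norm] using hs2)
  have h6 := h2 (y := (s, ρ)) (by
    rw [Prod.dist_eq]
    simp only [dist_eq_norm, sub_zero]
    exact max_lt hs1 hρ)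
  exact h6.2 (h6.1 (norm_pos_iff.mp hs0) h5)

end loc

end Pool.Agent.Run7.h443.WE
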