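import Pool.Agent.Run7.h443.WE.Hess

/-!
# Chains of tangent lines on cubic hypersurfaces
-/

set_option autoImplicit false

namespace Pool.Agent.Run7.h443.WE

open Filter Topology

section alg
variable {ι : Type*} [Fintype ι] {K : Type*} [Field K] {t : ι → ι → ι → K}

/-- the matrix of three linear forms at three vectors -/
def mat3 (t : ι → ι → ι → K) (P Q R : ι → K) (A : Fin 3 → ι → K) : Matrix (Fin 3) (Fin 3) K :=
  fun i => ![tau t Q Q (A i), tau t P P (A i), tau t Q R (A i)]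

theorem mat3_solve {P Q R : ι → K} {A : Fin 3 → ι → K} (hA : (mat3 t P Q R A).det ≠ 0)
    (w₀ w₁ w₂ : K) : ∃ q, tau t Q Q q = w₀ ∧ tau t P P q = w₁ ∧ tau t Q R q = w₂ := by
  have h1 : IsUnit (mat3 t P Q R A).det := isUnit_iff_ne_zero.mpr hA
  obtain ⟨α, hα⟩ : ∃ α : Fin 3 → K, Matrix.vecMul α (mat3 t P Q R A) = ![w₀, w₁, w₂] := by
    refine ⟨Matrix.vecMul ![w₀, w₁, w₂] (mat3 t P Q R A)⁻¹, ?_⟩
    rw [Matrix.vecMul_vecMul, Matrix.nonsing_inv_mul _ h1, Matrix.vecMul_one]
  refine ⟨∑ i, α i • A i, ?_, ?_, ?_⟩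
  · have h2 := congrFun hα 0
    rw [← tauL_apply, map_sum]
    simp only [Matrix.vecMul, dotProduct, mat3] at h2
    simp only [map_smul, smul_eq_mul, tauL_apply]
    simpa using h2
  · have h2 := congrFun hα 1
    rw [← tauL_apply, map_sum]
    simp only [Matrix.vecMul, dotProduct, mat3] at h2
    simp only [map_smul, smul_eq_mul, tauL_apply]
    simpa using h2
  · have h2 := congrFun hα 2
    rw [← tauL_apply, map_sum]
    simp only [Matrix.vecMul, dotProduct, mat3] at h2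
    simp only [map_smul, smul_eq_mul, tauL_apply]
    simpa using h2

/-- A chain: `Q` is in the tangent space at `P` and `R` is in the tangent space at `Q`. -/
structure Chain (t : ι → ι → ι → K) (P Q R : ι → K) : Prop where
  p : tau t P P P = 0
  q : tau t Q Q Q = 0
  r : tau t R R R = 0
  pq : tau t P P Q = 0
  qr : tau t Q Q R = 0
  qp : tau t Q Q P ≠ 0
  rq : tau t R R Q ≠ 0
  ind : ∃ A : Fin 3 → ι → K, (mat3 t P Q R A).det ≠ 0
  sm : ∃ u, tau t P P u ≠ 0

theorem tangent_nonnull (h : Sym t) (h2 : (2 : K) ≠ 0) (hι : 3 ≤ Fintype.card ι) {P : ι → K}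
    (hN : Nd t P) (hP0 : P ≠ 0) :
    ∃ y, tau t P P y = 0 ∧ tau t P y y ≠ 0 := by
  by_contra hcon
  push Not at hcon
  obtain ⟨e, he⟩ : ∃ e, tau t P P e ≠ 0 := by
    by_contra hc
    push Not at hc
    exact hP0 (hN P hc)
  obtain ⟨y, hy0, hy⟩ := exists_zero (k := 2) (by omega) ![tauL t P P, tauL t P e]
  have hy1 : tau t P P y = 0 := by simpa [tauL_apply] using hy 0
  have hy2 : tau t P e y = 0 := by simpa [tauL_apply] using hy 1
  apply hy0
  apply hN
  intro z
  set c := tau t P P z / tau t P P e with hc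
  have h4 : tau t P P (z - c • e) = 0 := by
    rw [← tauL_apply, map_sub, map_smul, tauL_apply, tauL_apply, smul_eq_mul, hc]
    field_simp
    ring
  have h5 : tau t P y (z - c • e) = 0 := by
    have h6 := hcon (y + (z - c • e)) (by rw [tau_add3, hy1, h4, add_zero])
    rw [tau_add2, tau_add3, tau_add3, hcon y hy1, hcon _ h4, tau_23 h P (z - c • e) y] at h6
    have h7 : 2 * tau t P y (z - c • e) = 0 := by linear_combination h6
    exact (mul_eq_zero.mp h7).resolve_left h2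
  rw [← tauL_apply, map_sub, map_smul, tauL_apply, tauL_apply, smul_eq_mul, tau_23 h P y e,
    hy2, mul_zero, sub_zero] at h5
  exact h5

/-- The choice of the third point of a chain. -/
theorem exists_third (h : Sym t) (h2 : (2 : K) ≠ 0) (h3 : (3 : K) ≠ 0) (hι : 4 ≤ Fintype.card ι)
    {P Q : ι → K} (hP : tau t P P P = 0) (hQ : tau t Q Q Q = 0) (hPQ : tau t P P Q = 0)
    (hQP : tau t Q Q P ≠ 0) (hN : Nd t Q) (hQ0 : Q ≠ 0) {u : ι → K} (hu : tau t P P u ≠ 0) :
    ∃ R, Chain t P Q R := by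
  classical
  -- the vector `w`
  obtain ⟨i₀, hi₀⟩ := Function.ne_iff.mp hQ0
  obtain ⟨w, hw0, hw⟩ := exists_zero (k := 3) (by omega)
    ![tauL t P P, tauL t Q Q, LinearMap.proj i₀]
  have hw1 : tau t P P w = 0 := by simpa [tauL_apply] using hw 0
  have hw2 : tau t Q Q w = 0 := by simpa [tauL_apply] using hw 1
  have hw3 : w i₀ = 0 := by simpa using hw 2
  obtain ⟨z₁, hz₁, hz₁'⟩ := two_forms (tauL t Q Q) (tauL t Q w) (fun a b hab => by
    have h4 : a • Q + b • w = 0 := by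
      apply hN
      intro z
      rw [tau_add2, tau_smul2, tau_smul2]
      exact hab z
    have h5 := congrFun h4 i₀
    simp only [Pi.add_apply, Pi.smul_apply, smul_eq_mul, hw3, mul_zero, add_zero,
      Pi.zero_apply] at h5
    have h6 : a = 0 := (mul_eq_zero.mp h5).resolve_right hi₀
    refine ⟨h6, ?_⟩
    rw [h6, zero_smul, zero_add] at h4
    exact (smul_eq_zero.mp h4).resolve_right hw0) 0 1
  rw [tauL_apply] at hz₁ hz₁'
  obtain ⟨z₂, hz₂, hz₂'⟩ := tangent_nonnull h h2 (by omega) hN hQ0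
  -- the vector `y`
  obtain ⟨y, hy1, hy2, hy3⟩ : ∃ y, tau t Q Q y = 0 ∧ tau t Q y y ≠ 0 ∧ tau t Q w y ≠ 0 := by
    by_cases ha : tau t Q z₁ z₁ = 0
    · by_cases hb : tau t Q w z₂ = 0
      · by_cases hc : tau t Q (z₁ + z₂) (z₁ + z₂) = 0
        · refine ⟨z₁ + (-1 : K) • z₂, ?_, ?_, ?_⟩
          · rw [tau_add3, tau_smul3, hz₁, hz₂]
            ring
          · rw [tau_add2, tau_add3, tau_add3, ha, tau_23 h Q z₂ z₁] at hc
            rw [tau_add2, tau_add3, tau_add3, tau_smul2, tau_smul3, tau_smul2, tau_smul3, ha,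
              tau_23 h Q z₂ z₁]
            intro hd
            have h4 : 2 * tau t Q z₂ z₂ = 0 := by linear_combination hc + hd
            exact hz₂' ((mul_eq_zero.mp h4).resolve_left h2)
          · rw [tau_add3, tau_smul3, hz₁', hb]
            simp
        · refine ⟨z₁ + z₂, ?_, hc, ?_⟩
          · rw [tau_add3, hz₁, hz₂, add_zero]
          · rw [tau_add3, hz₁', hb]
            simp
      · exact ⟨z₂, hz₂, hz₂', hb⟩
    · exact ⟨z₁, hz₁, ha, by rw [hz₁']; exact one_ne_zero⟩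
  have hR : tau t Q w (tg t Q y) = -3 * tau t Q y y * tau t Q w y := by
    unfold tg
    rw [tau_add3, tau_smul3, tau_smul3, tau_23 h Q w Q, hw2]
    ring
  have hR' : tau t Q (tg t Q y) w ≠ 0 := by
    rw [tau_23 h, hR]
    exact mul_ne_zero (mul_ne_zero (neg_ne_zero.mpr h3) hy2) hy3
  refine ⟨tg t Q y, hP, hQ, tg_mem h hQ hy1, hPQ, tg_tangent hQ hy1, hQP, ?_, ?_, u, hu⟩
  · rw [tg_back h hQ hy1]
    have h9 : (9 : K) ≠ 0 := by
      have : (9 : K) = 3 * 3 := by norm_num
      rw [this]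
      exact mul_ne_zero h3 h3
    exact mul_ne_zero h9 (pow_ne_zero _ hy2)
  · refine ⟨![P, u, w], ?_⟩
    rw [Matrix.det_fin_three]
    simp only [mat3, Matrix.cons_val_zero, Matrix.cons_val_one, Matrix.cons_val]
    rw [hP, hw1, hw2]
    have h5 : tau t Q Q P * tau t P P u * tau t Q (tg t Q y) w ≠ 0 :=
      mul_ne_zero (mul_ne_zero hQP hu) hR'
    intro h6
    apply h5
    linear_combination h6

end alg

section an
variable {K : Type*} [NontriviallyNormedField K]
  {Y E F : Type*} [NormedAddCommGroup Y] [NormedSpace K Y] [NormedAddCommGroup E]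
  [NormedSpace K E] [NormedAddCommGroup F] [NormedSpace K F]

theorem anfst {a : Y → E × F} {p : Y} (ha : AnalyticAt K a p) :
    AnalyticAt K (fun q => (a q).1) p := anL (ContinuousLinearMap.fst K E F) ha

theorem ansnd {a : Y → E × F} {p : Y} (ha : AnalyticAt K a p) :
    AnalyticAt K (fun q => (a q).2) p := anL (ContinuousLinearMap.snd K E F) ha

end an

section loc
variable {ι : Type*} [Fintype ι] {K : Type*} [NontriviallyNormedField K] [CompleteSpace K]
  {t : ι → ι → ι → K}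

/-- The middle point of a chain moves with the equation and with the two other points. -/
theorem solve_mid (h : Sym t) (h2 : (2 : K) ≠ 0) (h3 : (3 : K) ≠ 0) {P Q R : ι → K}
    (hq : tau t Q Q Q = 0) (hpq : tau t P P Q = 0) (hqr : tau t Q Q R = 0)
    (hind : ∃ A : Fin 3 → ι → K, (mat3 t P Q R A).det ≠ 0) {U : Set (ι → K)} (hU : U ∈ 𝓝 Q) :
    ∀ᶠ z in 𝓝 ((t, P, R) : (ι → ι → ι → K) × (ι → K) × (ι → K)),
      ∃ Q' ∈ U, tau z.1 Q' Q' Q' = 0 ∧ tau z.1 z.2.1 z.2.1 Q' = 0 ∧ tau z.1 Q' Q' z.2.2 = 0 := by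
  have a1 : AnalyticAt K (fun q : ((ι → ι → ι → K) × (ι → K) × (ι → K)) × (ι → K) => q.1.1)
      ((t, P, R), Q) := anfst analyticAt_fst
  have a2 : AnalyticAt K (fun q : ((ι → ι → ι → K) × (ι → K) × (ι → K)) × (ι → K) => q.1.2.1)
      ((t, P, R), Q) := anfst (ansnd analyticAt_fst)
  have a3 : AnalyticAt K (fun q : ((ι → ι → ι → K) × (ι → K) × (ι → K)) × (ι → K) => q.1.2.2)
      ((t, P, R), Q) := ansnd (ansnd analyticAt_fst)
  have a4 : AnalyticAt K (fun q : ((ι → ι → ι → K) × (ι → K) × (ι → K)) × (ι → K) => q.2)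
      ((t, P, R), Q) := analyticAt_snd
  have hG : AnalyticAt K (fun q : ((ι → ι → ι → K) × (ι → K) × (ι → K)) × (ι → K) =>
      ((tau q.1.1 q.2 q.2 q.2, tau q.1.1 q.1.2.1 q.1.2.1 q.2, tau q.1.1 q.2 q.2 q.1.2.2) :
        K × K × K)) ((t, P, R), Q) :=
    (analytic_tau a1 a4 a4 a4).prod ((analytic_tau a1 a2 a2 a4).prod (analytic_tau a1 a4 a4 a3))
  have h0 : ((tau t Q Q Q, tau t P P Q, tau t Q Q R) : K × K × K) = 0 := by
    rw [hq, hpq, hqr]; rfl
  have h1 := ift (U := U) hG h0 ?_ hU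
  · filter_upwards [h1] with z hz
    obtain ⟨Q', hQ', h4⟩ := hz
    refine ⟨Q', hQ', congrArg Prod.fst h4, congrArg (fun v => v.2.1) h4,
      congrArg (fun v => v.2.2) h4⟩
  · rintro ⟨v₁, v₂, v₃⟩
    obtain ⟨A, hA⟩ := hind
    obtain ⟨q, hq1, hq2, hq3⟩ := mat3_solve hA (v₁ / 3) v₂ (v₃ / 2)
    refine ⟨q, ?_⟩
    have e1 : (fun s : K => tau t (Q + s • q) (Q + s • q) (Q + s • q)) =
        fun s : K => 0 + v₁ * s + (3 * tau t Q q q) * s ^ 2 + tau t q q q * s ^ 3 := by
      funext s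
      rw [cub_add h, hq]
      simp only [tau_smul1, tau_smul2, tau_smul3]
      rw [hq1]
      field_simp
    have e2 : (fun s : K => tau t P P (Q + s • q)) =
        fun s : K => 0 + v₂ * s + 0 * s ^ 2 + 0 * s ^ 3 := by
      funext s
      rw [tau_add3, tau_smul3, hpq, hq2]
      ring
    have e3 : (fun s : K => tau t (Q + s • q) (Q + s • q) R) =
        fun s : K => 0 + v₃ * s + tau t q q R * s ^ 2 + 0 * s ^ 3 := by
      funext s
      rw [sq_add h, hqr]
      simp only [tau_smul1, tau_smul2]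
      rw [tau_23 h Q q R, hq3]
      field_simp
      ring
    show HasDerivAt (fun s : K => ((tau t (Q + s • q) (Q + s • q) (Q + s • q),
      tau t P P (Q + s • q), tau t (Q + s • q) (Q + s • q) R) : K × K × K)) (v₁, v₂, v₃) 0
    refine HasDerivAt.prodMk ?_ (HasDerivAt.prodMk ?_ ?_)
    · rw [e1]; exact hd3 _ _ _ _
    · rw [e2]; exact hd3 _ _ _ _
    · rw [e3]; exact hd3 _ _ _ _

/-- If `Q` is in the tangent space at a nondegenerate point `P`, then the points near `Q` are in the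
tangent spaces at points near `P`. -/
theorem solve_first (h : Sym t) (h2 : (2 : K) ≠ 0) (h3 : (3 : K) ≠ 0) {P Q : ι → K}
    (hp : tau t P P P = 0) (hpq : tau t P P Q = 0) (hN : Nd t P)
    (hind : ∀ a b : K, a • P + b • Q = 0 → a = 0 ∧ b = 0) {U : Set (ι → K)} (hU : U ∈ 𝓝 P) :
    ∀ᶠ Q' in 𝓝 Q, ∃ P' ∈ U, tau t P' P' P' = 0 ∧ tau t P' P' Q' = 0 := by
  have a1 : AnalyticAt K (fun q : (ι → K) × (ι → K) => q.1) (Q, P) := analyticAt_fst
  have a2 : AnalyticAt K (fun q : (ι → K) × (ι → K) => q.2) (Q, P) := analyticAt_snd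
  have hG : AnalyticAt K (fun q : (ι → K) × (ι → K) =>
      ((tau t q.2 q.2 q.2, tau t q.2 q.2 q.1) : K × K)) (Q, P) :=
    (analytic_tau analyticAt_const a2 a2 a2).prod (analytic_tau analyticAt_const a2 a2 a1)
  have h0 : ((tau t P P P, tau t P P Q) : K × K) = 0 := by rw [hp, hpq]; rfl
  have h1 := ift (U := U) hG h0 ?_ hU
  · filter_upwards [h1] with z hz
    obtain ⟨P', hP', h4⟩ := hz
    exact ⟨P', hP', congrArg Prod.fst h4, congrArg Prod.snd h4⟩
  · rintro ⟨v₁, v₂⟩
    obtain ⟨p, hp1, hp2⟩ := two_forms (tauL t P P) (tauL t P Q) (fun a b hab => by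
      apply hind
      apply hN
      intro z
      rw [tau_add2, tau_smul2, tau_smul2]
      exact hab z) (v₁ / 3) (v₂ / 2)
    rw [tauL_apply] at hp1 hp2
    refine ⟨p, ?_⟩
    have e1 : (fun s : K => tau t (P + s • p) (P + s • p) (P + s • p)) =
        fun s : K => 0 + v₁ * s + (3 * tau t P p p) * s ^ 2 + tau t p p p * s ^ 3 := by
      funext s
      rw [cub_add h, hp]
      simp only [tau_smul1, tau_smul2, tau_smul3]
      rw [hp1]
      field_simp
    have e2 : (fun s : K => tau t (P + s • p) (P + s • p) Q) =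
        fun s : K => 0 + v₂ * s + tau t p p Q * s ^ 2 + 0 * s ^ 3 := by
      funext s
      rw [sq_add h, hpq]
      simp only [tau_smul1, tau_smul2]
      rw [tau_23 h P p Q, hp2]
      field_simp
      ring
    show HasDerivAt (fun s : K => ((tau t (P + s • p) (P + s • p) (P + s • p),
      tau t (P + s • p) (P + s • p) Q) : K × K)) (v₁, v₂) 0
    refine HasDerivAt.prodMk ?_ ?_
    · rw [e1]; exact hd3 _ _ _ _
    · rw [e2]; exact hd3 _ _ _ _

end loc

end Pool.Agent.Run7.h443.WE
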