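import Pool.Agent.Run7.h443.WE.Chain

/-!
# Existence and stability of chains
-/

set_option autoImplicit false

namespace Pool.Agent.Run7.h443.WE

open Filter Topology

section loc
variable {ι : Type*} [Fintype ι] {K : Type*} [NontriviallyNormedField K] [CompleteSpace K]
  {t : ι → ι → ι → K}

theorem cont_mat3 {Z : Type*} [TopologicalSpace Z] {a : Z → ι → ι → ι → K} {x y z : Z → ι → K}
    (ha : Continuous a) (hx : Continuous x) (hy : Continuous y) (hz : Continuous z)
    (A : Fin 3 → ι → K) : Continuous (fun q => (mat3 (a q) (x q) (y q) (z q) A).det) := by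
  apply Continuous.matrix_det
  refine continuous_pi fun i => continuous_pi fun j => ?_
  fin_cases j
  · exact cont_tau ha hy hy continuous_const
  · exact cont_tau ha hx hx continuous_const
  · exact cont_tau ha hy hz continuous_const

/-- Chains are stable. -/
theorem chain_near (h : Sym t) (h2 : (2 : K) ≠ 0) (h3 : (3 : K) ≠ 0) {P Q R : ι → K}
    (hC : Chain t P Q R) :
    ∀ᶠ z in 𝓝 ((t, P, R) : (ι → ι → ι → K) × (ι → K) × (ι → K)),
      tau z.1 z.2.1 z.2.1 z.2.1 = 0 → tau z.1 z.2.2 z.2.2 z.2.2 = 0 →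
      ∃ Q', Chain z.1 z.2.1 Q' z.2.2 := by
  obtain ⟨A, hA⟩ := hC.ind
  obtain ⟨u, hu⟩ := hC.sm
  have c1 : Continuous (fun q : ((ι → ι → ι → K) × (ι → K) × (ι → K)) × (ι → K) => q.1.1) := by
    fun_prop
  have c2 : Continuous (fun q : ((ι → ι → ι → K) × (ι → K) × (ι → K)) × (ι → K) => q.1.2.1) := by
    fun_prop
  have c3 : Continuous (fun q : ((ι → ι → ι → K) × (ι → K) × (ι → K)) × (ι → K) => q.1.2.2) := by
    fun_prop
  have c4 : Continuous (fun q : ((ι → ι → ι → K) × (ι → K) × (ι → K)) × (ι → K) => q.2) := by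
    fun_prop
  have e1 : ∀ᶠ q in 𝓝 (((t, P, R), Q) : ((ι → ι → ι → K) × (ι → K) × (ι → K)) × (ι → K)),
      tau q.1.1 q.2 q.2 q.1.2.1 ≠ 0 :=
    (cont_tau c1 c4 c4 c2).continuousAt.eventually_ne hC.qp
  have e2 : ∀ᶠ q in 𝓝 (((t, P, R), Q) : ((ι → ι → ι → K) × (ι → K) × (ι → K)) × (ι → K)),
      tau q.1.1 q.1.2.2 q.1.2.2 q.2 ≠ 0 :=
    (cont_tau c1 c3 c3 c4).continuousAt.eventually_ne hC.rq
  have e3 : ∀ᶠ q in 𝓝 (((t, P, R), Q) : ((ι → ι → ι → K) × (ι → K) × (ι → K)) × (ι → K)),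
      (mat3 q.1.1 q.1.2.1 q.2 q.1.2.2 A).det ≠ 0 :=
    (cont_mat3 c1 c2 c4 c3 A).continuousAt.eventually_ne hA
  have e4 : ∀ᶠ q in 𝓝 (((t, P, R), Q) : ((ι → ι → ι → K) × (ι → K) × (ι → K)) × (ι → K)),
      tau q.1.1 q.1.2.1 q.1.2.1 u ≠ 0 :=
    (cont_tau c1 c2 c2 continuous_const).continuousAt.eventually_ne hu
  have e5 := (e1.and e2).and (e3.and e4)
  rw [nhds_prod_eq, Filter.eventually_prod_iff] at e5
  obtain ⟨pa, hpa, pb, hpb, hpp⟩ := e5
  filter_upwards [solve_mid h h2 h3 hC.q hC.pq hC.qr ⟨A, hA⟩ hpb, hpa] with z hz hz' hz1 hz2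
  obtain ⟨Q', hQ', h4, h5, h6⟩ := hz
  obtain ⟨⟨g1, g2⟩, g3, g4⟩ := hpp hz' hQ'
  exact ⟨Q', hz1, h4, hz2, h5, h6, g1, g2, ⟨A, g3⟩, ⟨u, g4⟩⟩

theorem exists_tan (hι : 3 ≤ Fintype.card ι) {x : ι → K} (hx : x ≠ 0) :
    ∃ (r : ι → K) (i₀ : ι), r ≠ 0 ∧ tau t x x r = 0 ∧ x i₀ ≠ 0 ∧ r i₀ = 0 := by
  obtain ⟨i₀, hi₀⟩ := Function.ne_iff.mp hx
  obtain ⟨r, hr0, hr⟩ := exists_zero (k := 2) (by omega) ![tauL t x x, LinearMap.proj i₀]
  exact ⟨r, i₀, hr0, by simpa [tauL_apply] using hr 0, hi₀, by simpa using hr 1⟩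

/-- From `τ(x, y, ·) = 0` on the tangent space at a nondegenerate point `x` it follows that `y` is a
multiple of `x`. -/
theorem prop_of_nd {x y e : ι → K} (hN : Nd t x) (he : tau t x x e ≠ 0)
    (hy : ∀ z, tau t x x z = 0 → tau t x y z = 0) : ∃ c : K, y = c • x := by
  refine ⟨tau t x y e / tau t x x e, ?_⟩
  have h1 : y - (tau t x y e / tau t x x e) • x = 0 := by
    apply hN
    intro z
    have h4 := hy (z - (tau t x x z / tau t x x e) • e) (by
      rw [← tauL_apply, map_sub, map_smul, tauL_apply, tauL_apply, smul_eq_mul]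
      field_simp
      ring)
    rw [← tauL_apply, map_sub, map_smul, tauL_apply, tauL_apply, smul_eq_mul] at h4
    have h5 : tau t x (y - (tau t x y e / tau t x x e) • x) z =
        tau t x y z - (tau t x y e / tau t x x e) * tau t x x z := by
      rw [sub_eq_add_neg, ← neg_smul, tau_add2, tau_smul2]
      ring
    rw [h5]
    have h6 : tau t x y z = tau t x x z / tau t x x e * tau t x y e := by linear_combination h4
    rw [h6]
    field_simp
    ring
  rwa [sub_eq_zero] at h1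

/-- A linear form `τ(T, T, ·)` does not vanish near a point of the hypersurface. -/
theorem avoid_lin (h : Sym t) (h2 : (2 : K) ≠ 0) (h3 : (3 : K) ≠ 0) (hS : Sm t)
    (hι : 3 ≤ Fintype.card ι) {R T : ι → K} (hR0 : R ≠ 0) (hR : tau t R R R = 0) (hT : T ≠ 0)
    {U : Set (ι → K)} (hU : U ∈ 𝓝 R) :
    ∃ R' ∈ U, tau t R' R' R' = 0 ∧ R' ≠ 0 ∧ tau t T T R' ≠ 0 := by
  by_contra hcon
  push Not at hcon
  obtain ⟨W, hWU, hWo, hRW⟩ := mem_nhds_iff.mp (Filter.inter_mem hU (isOpen_ne.mem_nhds hR0))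
  have hW : ∀ y ∈ W, tau t y y y = 0 → tau t T T y = 0 :=
    fun y hy hy' => hcon y (hWU hy).1 hy' (hWU hy).2
  have hc1 : ∀ y ∈ W, tau t y y y = 0 → ∀ r, tau t y y r = 0 → tau t T T r = 0 := by
    intro y hy hy' r hr
    obtain ⟨e, he⟩ := hS.exists_ne (hWU hy).2
    have h4 := curve_limit h h3 hy' hr he (Ξ := fun q : K × K => tau t T T (r + q.2 • e))
      (cont_tau continuous_const continuous_const continuous_const (by fun_prop)).continuousAt (by
        have hc : Continuous (fun q : K × K => y + q.1 • (r + q.2 • e)) := by fun_prop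
        have hV' : ∀ᶠ q : K × K in 𝓝 (0, 0), y + q.1 • (r + q.2 • e) ∈ W := by
          apply hc.tendsto (0, 0)
          simpa using hWo.mem_nhds hy
        filter_upwards [hV'] with q hq hq0 hqx
        have h5 := hW _ hq hqx
        rw [tau_add3, hW y hy hy', tau_smul3, zero_add] at h5
        exact (mul_eq_zero.mp h5).resolve_left hq0)
    simpa using h4
  obtain ⟨x, hxW, hx0, hx, hN⟩ := hess h h2 h3 hS hR0 hR (hWo.mem_nhds hRW)
  obtain ⟨e, he⟩ := hS.exists_ne hx0
  obtain ⟨r, i₀, hr0, hr, hi₀, hri₀⟩ := exists_tan (t := t) hι hx0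
  obtain ⟨c, hc⟩ := prop_of_nd (y := r) hN he (fun z hz => by
    have h4 := curve_limit h h3 hx hr he (Ξ := fun q : K × K => 2 * tau t x (r + q.2 • e) z +
      q.1 * tau t (r + q.2 • e) (r + q.2 • e) z)
      (by
        apply Continuous.continuousAt
        refine Continuous.add ?_ ?_
        · exact continuous_const.mul (cont_tau continuous_const continuous_const (by fun_prop)
            continuous_const)
        · exact continuous_fst.mul (cont_tau continuous_const (by fun_prop) (by fun_prop)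
            continuous_const)) (by
        have hc : Continuous (fun q : K × K => x + q.1 • (r + q.2 • e)) := by fun_prop
        have hV' : ∀ᶠ q : K × K in 𝓝 (0, 0), x + q.1 • (r + q.2 • e) ∈ W := by
          apply hc.tendsto (0, 0)
          simpa using hWo.mem_nhds hxW
        filter_upwards [hV'] with q hq hq0 hqx
        have h5 : tau t (x + q.1 • (r + q.2 • e)) (x + q.1 • (r + q.2 • e)) z = 0 := by
          by_contra hne
          apply hT
          apply hS.s1
          intro z'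
          have h6 := hc1 _ hq hqx (z' - (tau t (x + q.1 • (r + q.2 • e))
            (x + q.1 • (r + q.2 • e)) z' / tau t (x + q.1 • (r + q.2 • e))
            (x + q.1 • (r + q.2 • e)) z) • z) (by
              rw [← tauL_apply, map_sub, map_smul, tauL_apply, tauL_apply, smul_eq_mul]
              field_simp
              ring)
          rw [← tauL_apply, map_sub, map_smul, tauL_apply, tauL_apply, smul_eq_mul,
            hc1 x hxW hx z hz, mul_zero, sub_zero] at h6
          exact h6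
        rw [sq_add h, hz] at h5
        simp only [tau_smul1, tau_smul2] at h5
        have h7 : q.1 * (2 * tau t x (r + q.2 • e) z +
            q.1 * tau t (r + q.2 • e) (r + q.2 • e) z) = 0 := by linear_combination h5
        exact (mul_eq_zero.mp h7).resolve_left hq0)
    have h8 : 2 * tau t x r z = 0 := by simpa using h4
    exact (mul_eq_zero.mp h8).resolve_left h2)
  have h9 := congrFun hc i₀
  rw [hri₀, Pi.smul_apply, smul_eq_mul] at h9
  have h10 : c = 0 := (mul_eq_zero.mp h9.symm).resolve_right hi₀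
  rw [h10, zero_smul] at hc
  exact hr0 hc

/-- A quadratic form `τ(T, ·, ·)` does not vanish near a point of the hypersurface. -/
theorem avoid_quad (h : Sym t) (h2 : (2 : K) ≠ 0) (h3 : (3 : K) ≠ 0) (hS : Sm t)
    (hι : 3 ≤ Fintype.card ι) {R T : ι → K} (hR0 : R ≠ 0) (hR : tau t R R R = 0) (hT : T ≠ 0)
    {U : Set (ι → K)} (hU : U ∈ 𝓝 R) :
    ∃ R' ∈ U, tau t R' R' R' = 0 ∧ R' ≠ 0 ∧ tau t T R' R' ≠ 0 := by
  by_contra hcon
  push Not at hcon
  obtain ⟨W, hWU, hWo, hRW⟩ := mem_nhds_iff.mp (Filter.inter_mem hU (isOpen_ne.mem_nhds hR0))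
  have hW : ∀ y ∈ W, tau t y y y = 0 → tau t T y y = 0 :=
    fun y hy hy' => hcon y (hWU hy).1 hy' (hWU hy).2
  obtain ⟨j₀, hj₀⟩ := Function.ne_iff.mp hT
  rw [Pi.zero_apply] at hj₀
  obtain ⟨y, hyW, hy, i, hi⟩ : ∃ y ∈ W, tau t y y y = 0 ∧ ∃ i, y i * T j₀ - y j₀ * T i ≠ 0 := by
    by_contra hc
    push Not at hc
    obtain ⟨e, he⟩ := hS.exists_ne hR0
    obtain ⟨r, i₀, hr0, hr, hi₀, hri₀⟩ := exists_tan (t := t) hι hR0
    have h4 : ∀ i, r i * T j₀ - r j₀ * T i = 0 := by
      intro i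
      have h5 := curve_limit h h3 hR hr he
        (Ξ := fun q : K × K => (r + q.2 • e) i * T j₀ - (r + q.2 • e) j₀ * T i)
        (by fun_prop) (by
          have hc' : Continuous (fun q : K × K => R + q.1 • (r + q.2 • e)) := by fun_prop
          have hV' : ∀ᶠ q : K × K in 𝓝 (0, 0), R + q.1 • (r + q.2 • e) ∈ W := by
            apply hc'.tendsto (0, 0)
            simpa using hWo.mem_nhds hRW
          filter_upwards [hV'] with q hq hq0 hqx
          have h6 := hc _ hq hqx i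
          have h7 := hc R hRW hR i
          have h8 : q.1 * ((r + q.2 • e) i * T j₀ - (r + q.2 • e) j₀ * T i) = 0 := by
            have h9 : (R + q.1 • (r + q.2 • e)) i * T j₀ - (R + q.1 • (r + q.2 • e)) j₀ * T i =
              (R i * T j₀ - R j₀ * T i) + q.1 * ((r + q.2 • e) i * T j₀ -
                (r + q.2 • e) j₀ * T i) := by
              simp only [Pi.add_apply, Pi.smul_apply, smul_eq_mul]
              ring
            rw [h9, h7, zero_add] at h6
            exact h6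
          exact (mul_eq_zero.mp h8).resolve_left hq0)
      simpa using h5
    have h5 := h4 i₀
    rw [hri₀, zero_mul, zero_sub, neg_eq_zero] at h5
    have h6 := hc R hRW hR i₀
    rcases mul_eq_zero.mp h5 with h7 | h7
    · apply hr0
      funext i
      have h8 := h4 i
      rw [h7, zero_mul, sub_zero] at h8
      exact (mul_eq_zero.mp h8).resolve_right hj₀
    · rw [h7, mul_zero, sub_zero] at h6
      rcases mul_eq_zero.mp h6 with h8 | h8
      · exact hi₀ h8
      · exact hj₀ h8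
  have hyV : W ∩ {z | z i * T j₀ - z j₀ * T i ≠ 0} ∈ 𝓝 y := by
    refine Filter.inter_mem (hWo.mem_nhds hyW) ?_
    have hc : Continuous (fun z : ι → K => z i * T j₀ - z j₀ * T i) := by fun_prop
    exact hc.continuousAt.eventually_ne hi
  obtain ⟨x, hxW, hx0, hx, hN⟩ := hess h h2 h3 hS (hWU hyW).2 hy hyV
  obtain ⟨e, he⟩ := hS.exists_ne hx0
  obtain ⟨c, hc⟩ := prop_of_nd (y := T) hN he (fun z hz => by
    have h4 := curve_limit h h3 hx hz he (Ξ := fun q : K × K => 2 * tau t T x (z + q.2 • e) +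
      q.1 * tau t T (z + q.2 • e) (z + q.2 • e))
      (by
        apply Continuous.continuousAt
        refine Continuous.add ?_ ?_
        · exact continuous_const.mul (cont_tau continuous_const continuous_const
            continuous_const (by fun_prop))
        · exact continuous_fst.mul (cont_tau continuous_const continuous_const (by fun_prop)
            (by fun_prop))) (by
        have hc : Continuous (fun q : K × K => x + q.1 • (z + q.2 • e)) := by fun_prop
        have hV' : ∀ᶠ q : K × K in 𝓝 (0, 0), x + q.1 • (z + q.2 • e) ∈ W := by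
          apply hc.tendsto (0, 0)
          simpa using hWo.mem_nhds hxW.1
        filter_upwards [hV'] with q hq hq0 hqx
        have h5 := hW _ hq hqx
        rw [tau_13 h, sq_add h, ← tau_rot h T x x, hW x hxW.1 hx] at h5
        simp only [tau_smul1, tau_smul2] at h5
        rw [← tau_rot h T x (z + q.2 • e), ← tau_rot h T (z + q.2 • e) (z + q.2 • e)] at h5
        have h7 : q.1 * (2 * tau t T x (z + q.2 • e) +
            q.1 * tau t T (z + q.2 • e) (z + q.2 • e)) = 0 := by linear_combination h5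
        exact (mul_eq_zero.mp h7).resolve_left hq0)
    have h8 : 2 * tau t T x z = 0 := by simpa using h4
    rw [tau_12 h]
    exact (mul_eq_zero.mp h8).resolve_left h2)
  apply hxW.2
  rw [hc, Pi.smul_apply, Pi.smul_apply, smul_eq_mul, smul_eq_mul]
  ring

/-- The existence of chains. -/
theorem chain_exists (h : Sym t) (h2 : (2 : K) ≠ 0) (h3 : (3 : K) ≠ 0) (hS : Sm t)
    (hι : 4 ≤ Fintype.card ι) {x T : ι → K} (hx0 : x ≠ 0) (hx : tau t x x x = 0) (hT : T ≠ 0) :
    ∃ P Q R, Chain t P Q R ∧ tau t T T R ≠ 0 ∧ tau t T R R ≠ 0 := by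
  have h9 : (9 : K) ≠ 0 := by
    have : (9 : K) = 3 * 3 := by norm_num
    rw [this]
    exact mul_ne_zero h3 h3
  obtain ⟨P, -, hP0, hP, hPN⟩ := hess h h2 h3 hS hx0 hx Filter.univ_mem
  obtain ⟨y, hy1, hy2⟩ := tangent_nonnull h h2 (by omega) hPN hP0
  obtain ⟨Q, hQdef⟩ : ∃ Q, Q = tg t P y := ⟨_, rfl⟩
  have hQ : tau t Q Q Q = 0 := by rw [hQdef]; exact tg_mem h hP hy1
  have hPQ : tau t P P Q = 0 := by rw [hQdef]; exact tg_tangent hP hy1
  have hQP : tau t Q Q P ≠ 0 := by
    rw [hQdef, tg_back h hP hy1]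
    exact mul_ne_zero h9 (pow_ne_zero _ hy2)
  have hQ0 : Q ≠ 0 := by
    rintro rfl
    exact hQP (tau_zero1 _ _)
  -- the neighbourhoods
  have c1 : Continuous (fun q : (ι → K) × (ι → K) => tau t q.1 q.1 q.2) :=
    cont_tau continuous_const continuous_fst continuous_fst continuous_snd
  have e1 : ∀ᶠ q in 𝓝 ((Q, P) : (ι → K) × (ι → K)), tau t q.1 q.1 q.2 ≠ 0 :=
    c1.continuousAt.eventually_ne hQP
  rw [nhds_prod_eq, Filter.eventually_prod_iff] at e1
  obtain ⟨pa, hpa, pb, hpb, hpp⟩ := e1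
  have e2 := solve_first h h2 h3 hP hPQ hPN (fun a b hab => by
    have h4 : tau t Q Q (a • P + b • Q) = 0 := by rw [hab, tau_zero3]
    rw [tau_add3, tau_smul3, tau_smul3, hQ, mul_zero, add_zero] at h4
    have h5 : a = 0 := (mul_eq_zero.mp h4).resolve_right hQP
    refine ⟨h5, ?_⟩
    rw [h5, zero_smul, zero_add] at hab
    exact (smul_eq_zero.mp hab).resolve_right hQ0)
    (Filter.inter_mem hpb (isOpen_ne.mem_nhds hP0))
  obtain ⟨Q', hQ'1, hQ'0, hQ', hQ'N⟩ := hess h h2 h3 hS hQ0 hQ (hpa.and e2)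
  obtain ⟨hQ'a, P', hP'b, hP', hP'Q'⟩ := hQ'1
  have hQ'P' : tau t Q' Q' P' ≠ 0 := hpp hQ'a hP'b.1
  obtain ⟨u, hu⟩ := hS.exists_ne (hP'b.2 : P' ≠ 0)
  obtain ⟨R, hC⟩ := exists_third h h2 h3 hι hP' hQ' hP'Q' hQ'P' hQ'N hQ'0 hu
  have hR0 : R ≠ 0 := by
    rintro rfl
    exact hC.rq (tau_zero1 _ _)
  -- perturb `R`
  have e3 : ∀ᶠ R' in 𝓝 R, tau t R' R' R' = 0 → ∃ Q'', Chain t P' Q'' R' := by
    have hc : Tendsto (fun R' : ι → K => ((t, P', R') : (ι → ι → ι → K) × (ι → K) × (ι → K)))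
        (𝓝 R) (𝓝 (t, P', R)) := Continuous.tendsto (by fun_prop) R
    filter_upwards [hc.eventually (chain_near h h2 h3 hC)] with R' hR' hR''
    exact hR' hP' hR''
  obtain ⟨W, hWe, hWo, hRW⟩ := mem_nhds_iff.mp e3
  obtain ⟨R₁, hR₁W, hR₁, hR₁0, hA⟩ := avoid_lin h h2 h3 hS (by omega) hR0 hC.r hT
    (hWo.mem_nhds hRW)
  have e4 : ∀ᶠ R' in 𝓝 R₁, tau t T T R' ≠ 0 :=
    (cont_tau continuous_const continuous_const continuous_const
      continuous_id).continuousAt.eventually_ne hA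
  obtain ⟨R₂, hR₂W, hR₂, -, hB⟩ := avoid_quad h h2 h3 hS (by omega) hR₁0 hR₁ hT
    (Filter.inter_mem (hWo.mem_nhds hR₁W) e4)
  obtain ⟨Q₂, hC₂⟩ := hWe hR₂W.1 hR₂
  exact ⟨P', Q₂, R₂, hC₂, hR₂W.2, hB⟩

end loc

end Pool.Agent.Run7.h443.WE
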