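import Pool.Agent.Run7.h443.WE.Hess
import Pool.Agent.Y697.C13.Main

/-!
# Cubic forms and symmetric tensors
-/

set_option autoImplicit false

namespace Pool.Agent.Run7.h443.WE

open Pool.Agent.Y716.Q Pool.Agent.Y697.C13 MvPolynomial

section
variable {ι : Type} [Fintype ι]

/-- the exponent of the monomial `x_i x_j x_k` -/
noncomputable def ex (i j k : ι) : ι →₀ ℕ :=
  Finsupp.single i 1 + Finsupp.single j 1 + Finsupp.single k 1

/-- the weights -/
noncomputable def wt (i j k : ι) : ℕ :=
  ((Finsupp.single i 1 + Finsupp.single j 1 : ι →₀ ℕ) k + 1) *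
    ((Finsupp.single i 1 : ι →₀ ℕ) j + 1)

/-- the symmetric tensor of the cubic form with given coefficients -/
noncomputable def Th {K : Type*} [Field K] (c : (ι →₀ ℕ) → K) (i j k : ι) : K :=
  c (ex i j k) * (wt i j k : K)

/-- the cubic form with given coefficients -/
noncomputable def pol {K : Type*} [Field K] (c : (ι →₀ ℕ) → K) : MvPolynomial ι K :=
  ∑ m ∈ mons ι 3, monomial m (c m)

theorem ex_mem (i j k : ι) : ex i j k ∈ mons ι 3 := by
  rw [mem_mons]
  unfold ex
  simp only [Finsupp.add_apply]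
  rw [Finset.sum_add_distrib, Finset.sum_add_distrib, sum_single, sum_single, sum_single]

variable {K : Type*} [Field K]

theorem pol_homog (c : (ι →₀ ℕ) → K) : (pol c).IsHomogeneous 3 := by
  unfold pol
  apply MvPolynomial.IsHomogeneous.sum
  intro m hm
  apply MvPolynomial.isHomogeneous_monomial
  rw [Finsupp.degree_eq_sum]
  exact mem_mons.mp hm

theorem coeff_pol (c : (ι →₀ ℕ) → K) {m : ι →₀ ℕ} (hm : m ∈ mons ι 3) :
    coeff m (pol c) = c m := by
  classical
  unfold pol
  rw [coeff_sum]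
  simp only [coeff_monomial]
  rw [Finset.sum_ite_eq', if_pos hm]

theorem Th_eq (c : (ι →₀ ℕ) → K) (i j k : ι) :
    Th c i j k = coeff 0 (pderiv i (pderiv j (pderiv k (pol c)))) := by
  rw [coeff_pderiv, coeff_pderiv, coeff_pderiv, zero_add]
  have h1 : coeff (Finsupp.single i 1 + Finsupp.single j 1 + Finsupp.single k 1) (pol c) =
      c (ex i j k) := coeff_pol c (ex_mem i j k)
  rw [h1]
  unfold Th wt
  push_cast
  simp only [Finsupp.coe_zero, Pi.zero_apply, Nat.cast_zero, zero_add, mul_one]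
  ring

theorem pderiv_comm' (i j : ι) (f : MvPolynomial ι K) :
    pderiv i (pderiv j f) = pderiv j (pderiv i f) := by
  classical
  apply MvPolynomial.ext
  intro m
  rw [coeff_pderiv, coeff_pderiv, coeff_pderiv, coeff_pderiv, add_right_comm]
  by_cases h : i = j
  · subst h
    ring
  · have h1 : (Finsupp.single i 1 : ι →₀ ℕ) j = 0 := by
      rw [Finsupp.single_apply, if_neg h]
    have h2 : (Finsupp.single j 1 : ι →₀ ℕ) i = 0 := by
      rw [Finsupp.single_apply, if_neg (Ne.symm h)]
    simp only [Finsupp.add_apply, h1, h2, add_zero]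
    ring

theorem Th_sym (c : (ι →₀ ℕ) → K) : Sym (Th c) := by
  intro i j k
  rw [Th_eq, Th_eq, Th_eq]
  exact ⟨by rw [pderiv_comm' i j], by rw [pderiv_comm' j k]⟩

theorem euler {n : ℕ} {f : MvPolynomial ι K} (hf : f.IsHomogeneous n) (x : ι → K) :
    ∑ i, x i * eval x (pderiv i f) = n * eval x f := by
  have h1 := congrArg (eval x) hf.sum_X_mul_pderiv
  rw [map_sum, nsmul_eq_mul, map_mul, map_natCast] at h1
  simpa only [map_mul, eval_X] using h1

theorem tau_2 (c : (ι →₀ ℕ) → K) (x z : ι → K) :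
    tau (Th c) x x z = 2 * ∑ k, z k * eval x (pderiv k (pol c)) := by
  have h1 : ∀ j k, ∑ i, Th c i j k * x i = eval x (pderiv j (pderiv k (pol c))) := by
    intro j k
    have h2 : (pderiv j (pderiv k (pol c))).IsHomogeneous 1 := (pol_homog c).pderiv.pderiv
    have h3 := euler h2 x
    rw [Nat.cast_one, one_mul] at h3
    rw [← h3]
    refine Finset.sum_congr rfl fun i _ => ?_
    have h4 : (pderiv i (pderiv j (pderiv k (pol c)))).IsHomogeneous 0 := h2.pderiv
    rw [← totalDegree_zero_iff_isHomogeneous, totalDegree_eq_zero_iff_eq_C] at h4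
    rw [Th_eq, h4, eval_C, ← h4, mul_comm]
  have h2 : ∀ k, ∑ j, x j * ∑ i, Th c i j k * x i = 2 * eval x (pderiv k (pol c)) := by
    intro k
    have h3 : (pderiv k (pol c)).IsHomogeneous 2 := (pol_homog c).pderiv
    have h4 := euler h3 x
    rw [Nat.cast_ofNat] at h4
    rw [← h4]
    exact Finset.sum_congr rfl fun j _ => by rw [h1]
  unfold tau
  rw [Finset.mul_sum]
  have h3 : ∀ k, 2 * (z k * eval x (pderiv k (pol c))) =
      ∑ j, ∑ i, Th c i j k * x i * x j * z k := by
    intro k
    have e : 2 * (z k * eval x (pderiv k (pol c))) = (2 * eval x (pderiv k (pol c))) * z k := by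
      ring
    rw [e, ← h2 k, Finset.sum_mul]
    refine Finset.sum_congr rfl fun j _ => ?_
    rw [Finset.mul_sum, Finset.sum_mul]
    exact Finset.sum_congr rfl fun i _ => by ring
  rw [Finset.sum_congr rfl fun k _ => h3 k, Finset.sum_congr rfl fun i _ => Finset.sum_comm,
    Finset.sum_comm]
  exact Finset.sum_congr rfl fun k _ => Finset.sum_comm

theorem tau_3 (c : (ι →₀ ℕ) → K) (x : ι → K) :
    tau (Th c) x x x = 6 * eval x (pol c) := by
  rw [tau_2, euler (pol_homog c) x]
  push_cast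
  ring

theorem eval_pol (c : (ι →₀ ℕ) → K) (x : ι → K) :
    eval x (pol c) = ∑ m ∈ mons ι 3, c m * mv x m := by
  unfold pol
  rw [map_sum]
  refine Finset.sum_congr rfl fun m _ => ?_
  rw [eval_monomial, Finsupp.prod_fintype _ _ (fun i => pow_zero _)]
  rfl

theorem eval_dpol (c : (ι →₀ ℕ) → K) (x : ι → K) (i : ι) :
    eval x (pderiv i (pol c)) = ∑ m ∈ mons ι 3, c m * dv x i m := by
  unfold pol
  rw [map_sum, map_sum]
  refine Finset.sum_congr rfl fun m _ => ?_
  rw [pderiv_monomial, eval_monomial, Finsupp.prod_fintype _ _ (fun i => pow_zero _)]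
  unfold dv mv
  ring

/-- The elimination polynomial. -/
theorem exists_disc (ι : Type) [Fintype ι] : ∃ D : MvPolynomial (mons ι 3) ℚ, D ≠ 0 ∧
    ∀ (K : Type) [Field K] [CharZero K] (c : (ι →₀ ℕ) → K) (x : ι → K), x ≠ 0 →
      (∀ i, ∑ m ∈ mons ι 3, c m * dv x i m = 0) →
      aeval (fun m : mons ι 3 => c m.1) D = 0 := by
  classical
  obtain ⟨E, hE⟩ : ∃ E : Fin 1 → ℕ, E = fun _ => 1 := ⟨_, rfl⟩
  have hE2 : ∀ j, E j + 2 = 3 := fun j => by rw [hE]
  have h0 : ∀ r : ι, ∃ D : MvPolynomial (VS (ι := ι) E) ℚ, D ≠ 0 ∧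
      phi E r 0 D = 0 := fun r => exists_ker (card_PS E r 0) (phi E r 0)
  choose D hD0 hD using h0
  obtain ⟨φ, hφ⟩ : ∃ φ : VS (ι := ι) E → mons ι 3, ∀ v, (φ v).1 = v.1.2 :=
    ⟨fun v => ⟨v.1.2, by rw [← hE2 v.1.1]; exact (mem_VS E).1 v.2⟩, fun v => rfl⟩
  have hφi : Function.Injective φ := by
    intro v w h
    have h1 : v.1.2 = w.1.2 := by rw [← hφ, ← hφ, h]
    have h2 : v.1.1 = w.1.1 := Subsingleton.elim _ _
    apply Subtype.ext
    exact Sigma.ext h2 (heq_of_eq h1)
  refine ⟨rename φ (∏ r, D r), ?_, ?_⟩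
  · rw [Ne, map_eq_zero_iff _ (rename_injective φ hφi)]
    exact Finset.prod_ne_zero_iff.2 fun r _ => hD0 r
  intro K _ _ c x hx hG
  obtain ⟨r, hr⟩ := Function.ne_iff.1 hx
  rw [Pi.zero_apply] at hr
  rw [aeval_rename, map_prod]
  refine Finset.prod_eq_zero (Finset.mem_univ r) ?_
  obtain ⟨t, ht⟩ : ∃ t : K, t = (x r)⁻¹ := ⟨_, rfl⟩
  have h1 := pt_phi E r 0 (fun _ m => if m ∈ mons ι 3 then c m else 0) (fun i => t * x i)
    (fun _ => 1)
    (fun j m hm => by rw [hE2] at hm; exact if_neg hm)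
    (by rw [ht]; exact inv_mul_cancel₀ hr)
    rfl
    (fun j => by
      rw [hE2]
      have h2 : ∑ m ∈ mons ι 3, c m * mv x m = 0 := by
        rw [← eval_pol]
        have h3 := euler (pol_homog c) x
        have h4 : ∑ i, x i * eval x (pderiv i (pol c)) = 0 := by
          apply Finset.sum_eq_zero
          intro i _
          rw [eval_dpol, hG i, mul_zero]
        rw [h4] at h3
        have h5 : ((3 : ℕ) : K) ≠ 0 := by norm_num
        exact (mul_eq_zero.mp h3.symm).resolve_left h5
      have h3 : ∀ m ∈ mons ι 3, (if m ∈ mons ι 3 then c m else 0) * mv (fun i => t * x i) m =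
          t ^ 3 * (c m * mv x m) := by
        intro m hm
        rw [if_pos hm, mv_smul, mem_mons.1 hm]
        ring
      rw [Finset.sum_congr rfl h3, ← Finset.mul_sum, h2, mul_zero])
    (fun i => by
      rw [Fin.sum_univ_one, one_mul, hE2]
      have h3 : ∀ m ∈ mons ι 3, (if m ∈ mons ι 3 then c m else 0) *
          dv (fun i => t * x i) i m = t ^ 2 * (c m * dv x i m) := by
        intro m hm
        rw [if_pos hm, dv_smul t x i 1 m hm]
        ring
      rw [Finset.sum_congr rfl h3, ← Finset.mul_sum, hG i, mul_zero])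
    (D r) (hD r)
  rw [← h1]
  congr 2
  funext v
  show c (φ v).1 = if v.1.2 ∈ mons ι 3 then c v.1.2 else 0
  rw [hφ, if_pos (by rw [← hφ]; exact (φ v).2)]

/-- Smoothness of the hypersurface from the elimination polynomial. -/
theorem sm_Th {D : MvPolynomial (mons ι 3) ℚ}
    (hD : ∀ (K : Type) [Field K] [CharZero K] (c : (ι →₀ ℕ) → K) (x : ι → K), x ≠ 0 →
      (∀ i, ∑ m ∈ mons ι 3, c m * dv x i m = 0) → aeval (fun m : mons ι 3 => c m.1) D = 0)
    {K : Type} [Field K] [CharZero K] {c : (ι →₀ ℕ) → K}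
    (hc : aeval (fun m : mons ι 3 => c m.1) D ≠ 0) : Sm (Th c) := by
  classical
  have key : ∀ (K : Type) [Field K] [CharZero K] (c : (ι →₀ ℕ) → K),
      aeval (fun m : mons ι 3 => c m.1) D ≠ 0 →
      ∀ x : ι → K, (∀ z, tau (Th c) x x z = 0) → x = 0 := by
    intro K _ _ c hc x hx
    by_contra hx0
    apply hc
    apply hD K c x hx0
    intro i
    have h1 := hx (Pi.single i 1)
    rw [tau_2] at h1
    have h2 : ∑ k, (Pi.single i 1 : ι → K) k * eval x (pderiv k (pol c)) =
        eval x (pderiv i (pol c)) := by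
      rw [Finset.sum_eq_single i]
      · rw [Pi.single_eq_same, one_mul]
      · intro b _ hb
        rw [Pi.single_eq_of_ne hb, zero_mul]
      · intro h
        exact absurd (Finset.mem_univ i) h
    rw [h2] at h1
    rw [← eval_dpol]
    exact (mul_eq_zero.mp h1).resolve_left two_ne_zero
  have hs1 := key K c hc
  refine ⟨hs1, ?_⟩
  intro x v c' hxv hvv
  by_contra hcon
  push Not at hcon
  obtain ⟨hx0, hv0⟩ := hcon
  have hc'0 : c' ≠ 0 := by
    intro h0
    apply hv0
    apply hs1
    intro z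
    rw [hvv z, h0, zero_mul]
  obtain ⟨cL, hcL⟩ : ∃ cL : (ι →₀ ℕ) → AlgebraicClosure K, cL = fun m =>
    algebraMap K (AlgebraicClosure K) (c m) := ⟨_, rfl⟩
  haveI : CharZero (AlgebraicClosure K) :=
    charZero_of_injective_algebraMap (algebraMap K (AlgebraicClosure K)).injective
  have hDL : aeval (fun m : mons ι 3 => cL m.1) D ≠ 0 := by
    have h1 : aeval (fun m : mons ι 3 => cL m.1) D =
        algebraMap K (AlgebraicClosure K) (aeval (fun m : mons ι 3 => c m.1) D) := by
      rw [hcL]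
      exact aeval_algebraMap_apply (AlgebraicClosure K) (fun m : mons ι 3 => c m.1) D
    rw [h1]
    exact (map_ne_zero_iff _ (algebraMap K (AlgebraicClosure K)).injective).mpr hc
  have hτ : ∀ x y z : ι → K, tau (Th cL) (fun i => algebraMap K (AlgebraicClosure K) (x i))
      (fun i => algebraMap K (AlgebraicClosure K) (y i))
      (fun i => algebraMap K (AlgebraicClosure K) (z i)) =
      algebraMap K (AlgebraicClosure K) (tau (Th c) x y z) := by
    intro x y z
    unfold tau Th
    rw [hcL]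
    simp only [map_sum, map_mul, map_natCast]
  obtain ⟨l, hl⟩ := IsAlgClosed.exists_pow_nat_eq
    (-(algebraMap K (AlgebraicClosure K) c')⁻¹) (n := 2) (by norm_num)
  have hcL0 : algebraMap K (AlgebraicClosure K) c' ≠ 0 :=
    (map_ne_zero_iff _ (algebraMap K (AlgebraicClosure K)).injective).mpr hc'0
  have hl0 : l ≠ 0 := by
    rintro rfl
    rw [zero_pow two_ne_zero] at hl
    exact (neg_ne_zero.mpr (inv_ne_zero hcL0)) hl.symm
  obtain ⟨X, hX⟩ : ∃ X : ι → AlgebraicClosure K, X = fun i =>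
    algebraMap K (AlgebraicClosure K) (x i) := ⟨_, rfl⟩
  obtain ⟨Y, hY⟩ : ∃ Y : ι → AlgebraicClosure K, Y = fun i =>
    algebraMap K (AlgebraicClosure K) (v i) := ⟨_, rfl⟩
  have hz : ∀ z : ι → AlgebraicClosure K, tau (Th cL) (X + l • Y) (X + l • Y) z = 0 := by
    have hlin : tauL (Th cL) (X + l • Y) (X + l • Y) = 0 := by
      apply LinearMap.pi_ext'
      intro i
      apply LinearMap.ext_ring
      show tau (Th cL) (X + l • Y) (X + l • Y) (Pi.single i 1) = 0
      have hs : (Pi.single i 1 : ι → AlgebraicClosure K) = fun j =>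
          algebraMap K (AlgebraicClosure K) ((Pi.single i 1 : ι → K) j) := by
        funext j
        by_cases hij : j = i
        · subst hij
          rw [Pi.single_eq_same, Pi.single_eq_same, map_one]
        · rw [Pi.single_eq_of_ne hij, Pi.single_eq_of_ne hij, map_zero]
      rw [sq_add (Th_sym cL), tau_smul2, tau_smul1, tau_smul2, hs, hX, hY, hτ, hτ, hτ,
        hxv, hvv, map_zero, map_mul]
      have h5 : l * (l * (algebraMap K (AlgebraicClosure K) c')) = -1 := by
        rw [← mul_assoc, ← sq, hl, neg_mul, inv_mul_cancel₀ hcL0]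
      linear_combination (algebraMap K (AlgebraicClosure K)
        (tau (Th c) x x (Pi.single i 1))) * h5
    intro z
    rw [← tauL_apply, hlin]
    rfl
  have h6 := key (AlgebraicClosure K) cL hDL _ hz
  apply hv0
  apply hs1
  intro z
  have h7 : tau (Th cL) X Y (fun i => algebraMap K (AlgebraicClosure K) (z i)) = 0 := by
    rw [hX, hY, hτ, hxv, map_zero]
  have h8 : X = -(l • Y) := eq_neg_of_add_eq_zero_left h6
  rw [h8, ← neg_smul, tau_smul1, hY, hτ] at h7
  have h9 := (mul_eq_zero.mp h7).resolve_left (neg_ne_zero.mpr hl0)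
  exact (map_eq_zero_iff _ (algebraMap K (AlgebraicClosure K)).injective).mp h9

end

end Pool.Agent.Run7.h443.WE
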