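import Pool.Agent.Run7.h443.WE.Small

/-!
# The spread of the scaled integers at the real and the `p`-adic places
-/

set_option autoImplicit false

namespace Pool.Agent.Run7.h443.WE

/-- A set of integers in an interval all of whose differences are small. -/
theorem card_le_of_diff (S : Finset ℤ) (L : ℕ) (h : ∀ a ∈ S, ∀ b ∈ S, a ≤ b → b - a ≤ L) :
    S.card ≤ L + 1 := by
  rcases S.eq_empty_or_nonempty with rfl | hne
  · simp
  have h1 : S ⊆ Finset.Icc (S.min' hne) (S.min' hne + L) := by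
    intro b hb
    rw [Finset.mem_Icc]
    have h2 := S.min'_le b hb
    have h3 := h _ (S.min'_mem hne) b hb h2
    exact ⟨h2, by linarith⟩
  have h2 := Finset.card_le_card h1
  rw [Int.card_Icc] at h2
  omega

theorem spread_real : Spread (K := ℝ) (fun H : ℕ => (1 : ℝ) / (H + 1)) := by
  intro ε hε
  obtain ⟨n, hn⟩ := exists_nat_gt (1 / ε)
  refine ⟨ε / 4, by positivity, n, fun H hH x₀ => ?_⟩
  have hHr : (n : ℝ) ≤ H := by exact_mod_cast hH
  obtain ⟨L, hL⟩ : ∃ L : ℕ, L = ⌊ε / 2 * (H + 1)⌋₊ := ⟨_, rfl⟩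
  have h1 : ((Finset.Icc (-(H : ℤ)) H).filter
      (fun c : ℤ => ‖(1 : ℝ) / (H + 1) * (c : ℝ) - x₀‖ ≤ ε / 4)).card ≤ L + 1 := by
    apply card_le_of_diff
    intro a ha b hb hab
    have ha2 := (Finset.mem_filter.mp ha).2
    have hb2 := (Finset.mem_filter.mp hb).2
    rw [Real.norm_eq_abs, abs_le] at ha2 hb2
    have hH1 : (0 : ℝ) < H + 1 := by positivity
    have h3 : (1 : ℝ) / (H + 1) * ((b : ℝ) - a) ≤ ε / 2 := by
      have e : (1 : ℝ) / (H + 1) * ((b : ℝ) - a) =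
        (1 : ℝ) / (H + 1) * (b : ℝ) - (1 : ℝ) / (H + 1) * (a : ℝ) := by ring
      rw [e]
      linarith [ha2.1, hb2.2]
    have h4 : (b : ℝ) - a ≤ ε / 2 * (H + 1) := by
      rw [one_div, inv_mul_le_iff₀ hH1] at h3
      linarith
    have h5 : (((b - a).toNat : ℕ) : ℝ) ≤ ε / 2 * (H + 1) := by
      have : (((b - a).toNat : ℕ) : ℝ) = (((b - a).toNat : ℤ) : ℝ) := by push_cast; rfl
      rw [this, Int.toNat_of_nonneg (by linarith)]
      push_cast
      exact h4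
    have h6 : (b - a).toNat ≤ L := by
      rw [hL]
      exact Nat.le_floor h5
    have h7 : ((b - a).toNat : ℤ) = b - a := Int.toNat_of_nonneg (by linarith)
    rw [← h7]
    exact_mod_cast h6
  have h2 : (((Finset.Icc (-(H : ℤ)) H).filter
      (fun c : ℤ => ‖(1 : ℝ) / (H + 1) * (c : ℝ) - x₀‖ ≤ ε / 4)).card : ℝ) ≤ L + 1 := by
    exact_mod_cast h1
  refine h2.trans ?_
  have h3 : (L : ℝ) ≤ ε / 2 * (H + 1) := by
    rw [hL]
    exact Nat.floor_le (by positivity)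
  rw [div_lt_iff₀ hε] at hn
  have h4 : (1 : ℝ) ≤ H * ε := by nlinarith
  push_cast
  nlinarith

theorem spread_padic (p : ℕ) [hp : Fact p.Prime] : Spread (K := ℚ_[p]) (fun _ : ℕ => 1) := by
  intro ε hε
  have hp2 : (2 : ℝ) ≤ p := by exact_mod_cast hp.out.two_le
  obtain ⟨k, hk⟩ : ∃ k : ℕ, 2 / ε < (p : ℝ) ^ k := pow_unbounded_of_one_lt _ (by linarith)
  obtain ⟨n, hn⟩ := exists_nat_gt (1 / ε)
  refine ⟨(p : ℝ) ^ (-(k : ℤ)), by positivity, n, fun H hH x₀ => ?_⟩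
  have hHr : (n : ℝ) ≤ H := by exact_mod_cast hH
  obtain ⟨S, hS⟩ : ∃ S : Finset ℤ, S = (Finset.Icc (-(H : ℤ)) H).filter
      (fun c : ℤ => ‖(1 : ℚ_[p]) * (c : ℚ_[p]) - x₀‖ ≤ (p : ℝ) ^ (-(k : ℤ))) := ⟨_, rfl⟩
  rw [← hS]
  have hpk : 0 < p ^ k := pow_pos hp.out.pos k
  obtain ⟨L, hL⟩ : ∃ L : ℕ, L = 2 * H / p ^ k := ⟨_, rfl⟩
  have hdiv : ∀ a ∈ S, ∀ b ∈ S, ((p ^ k : ℕ) : ℤ) ∣ b - a := by
    intro a ha b hb
    rw [hS] at ha hb
    have ha2 := (Finset.mem_filter.mp ha).2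
    have hb2 := (Finset.mem_filter.mp hb).2
    have h3 : ‖((b - a : ℤ) : ℚ_[p])‖ ≤ (p : ℝ) ^ (-(k : ℤ)) := by
      have e : ((b - a : ℤ) : ℚ_[p]) = ((1 : ℚ_[p]) * (b : ℚ_[p]) - x₀) +
          -((1 : ℚ_[p]) * (a : ℚ_[p]) - x₀) := by
        push_cast
        ring
      rw [e]
      refine (Padic.nonarchimedean _ _).trans ?_
      rw [norm_neg]
      exact max_le hb2 ha2
    have h4 := (Padic.norm_int_le_pow_iff_dvd (p := p) (b - a) k).mp h3
    push_cast
    exact h4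
  have h1 : S.card ≤ L + 1 := by
    rcases S.eq_empty_or_nonempty with h0 | hne
    · rw [h0]; simp
    obtain ⟨a₀, ha₀⟩ : ∃ a₀, a₀ = S.min' hne := ⟨_, rfl⟩
    have ha₀S : a₀ ∈ S := by rw [ha₀]; exact S.min'_mem hne
    have hmin : ∀ b ∈ S, a₀ ≤ b := fun b hb => by rw [ha₀]; exact S.min'_le b hb
    have h5 : S.card ≤ (Finset.Icc (0 : ℤ) L).card := by
      apply Finset.card_le_card_of_injOn (fun b => (b - a₀) / ((p ^ k : ℕ) : ℤ))
      · intro b hb
        have hb' : b ∈ S := hb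
        rw [Finset.mem_coe, Finset.mem_Icc]
        have g1 := hmin b hb'
        have hpk' : (0 : ℤ) < ((p ^ k : ℕ) : ℤ) := by exact_mod_cast hpk
        refine ⟨Int.ediv_nonneg (by linarith) hpk'.le, ?_⟩
        have g2 : b - a₀ ≤ ((2 * H : ℕ) : ℤ) := by
          rw [hS] at hb' ha₀S
          have h6 := Finset.mem_Icc.mp (Finset.mem_filter.mp hb').1
          have h7 := Finset.mem_Icc.mp (Finset.mem_filter.mp ha₀S).1
          push_cast
          linarith [h6.2, h7.1]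
        rw [hL, Int.natCast_div]
        exact Int.ediv_le_ediv hpk' g2
      · intro b hb b' hb' hbb
        have g1 := hdiv a₀ ha₀S b hb
        have g2 := hdiv a₀ ha₀S b' hb'
        have g3 : (b - a₀) / ((p ^ k : ℕ) : ℤ) = (b' - a₀) / ((p ^ k : ℕ) : ℤ) := hbb
        have g4 := Int.ediv_mul_cancel g1
        have g5 := Int.ediv_mul_cancel g2
        rw [g3, g5] at g4
        linarith
    rw [Int.card_Icc] at h5
    omega
  have h2 : (S.card : ℝ) ≤ L + 1 := by exact_mod_cast h1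
  refine h2.trans ?_
  have h3 : (L : ℝ) ≤ H * ε := by
    have h4 : (L : ℝ) ≤ ((2 * H : ℕ) : ℝ) / ((p ^ k : ℕ) : ℝ) := by
      rw [hL]
      exact Nat.cast_div_le
    refine h4.trans ?_
    push_cast
    rw [div_le_iff₀ (by positivity), mul_assoc, mul_comm (2 : ℝ)]
    apply mul_le_mul_of_nonneg_left _ (by positivity)
    rw [div_lt_iff₀ hε] at hk
    linarith
  rw [div_lt_iff₀ hε] at hn
  push_cast
  have h5 : (1 : ℝ) ≤ H * ε := by nlinarith
  nlinarith

end Pool.Agent.Run7.h443.WE
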