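import Pool.Agent.Run7.h443.WE.Unif
import Pool.Agent.Run7.h443.WE.Form
import Pool.Agent.Run7.h443.WE.Spread
import Pool.Agent.Y716.Q.WA2

/-!
# Uniformity for almost all cubic forms
-/

set_option autoImplicit false

namespace Pool.Agent.Run7.h443.WE

open Filter Topology
open Pool.Agent.Y716.Q Pool.Agent.Y697.C13
open scoped Classical

section
variable {ι : Type} [Fintype ι]

/-- the tensor from the coefficients -/
noncomputable def Th' {K : Type*} [Field K] (w : mons ι 3 → K) (i j k : ι) : K :=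
  w ⟨ex i j k, ex_mem i j k⟩ * (wt i j k : K)

/-- the tensor of an integral form -/
noncomputable def tf (f : MvPolynomial ι ℤ) : ι → ι → ι → ℚ :=
  Th (fun m => ((f.coeff m : ℤ) : ℚ))

variable {V : Type} [Fintype V] {K : V → Type}
  [∀ v, NontriviallyNormedField (K v)] [∀ v, CompleteSpace (K v)] [∀ v, CharZero (K v)]
  [∀ v, ProperSpace (K v)]

/-- Density of the rational points at the given places. -/
def DenseV (K : V → Type) [∀ v, NontriviallyNormedField (K v)] (f : MvPolynomial ι ℤ) : Prop :=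
  ∀ T : ∀ v, ι → K v, (∀ v, T v ≠ 0) →
    (∀ v, tau (tv K (tf f) v) (T v) (T v) (T v) = 0) → T ∈ Cl K (tf f)

theorem main_count (hd : DenseRange (fun (a : ℚ) (v : V) => ((a : ℚ) : K v)))
    (hι : 4 ≤ Fintype.card ι) {l : ∀ v, ℕ → K v} (hl : ∀ v, Spread (l v))
    (hl0 : ∀ v H, l v H ≠ 0)
    (hl1 : ∀ v (H : ℕ) (c : ℤ), |c| ≤ (H : ℤ) → ‖l v H * (c : K v)‖ ≤ 1) {ε : ℝ} (hε : 0 < ε) :
    ∃ δ : ℝ, 0 < δ ∧ ∃ H₀ : ℕ, ∀ H : ℕ, H₀ ≤ H →
      (((formsZ ι 3 (H : ℝ)).filter (fun f => ¬ (WAd K (tf f) δ → DenseV K f))).card : ℝ) ≤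
        ε * (formsZ ι 3 (H : ℝ)).card := by
  obtain ⟨D, hD0, hD⟩ := exists_disc ι
  have hsm := fun v : V => small_gen (hl v) (MvPolynomial.map (algebraMap ℚ (K v)) D)
    (by
      rw [Ne, map_eq_zero_iff _ (MvPolynomial.map_injective _ (algebraMap ℚ (K v)).injective)]
      exact hD0) (ε / (Fintype.card V + 1)) (by positivity)
  choose η hη Hv hHv using hsm
  have hev : ∀ v (w : mons ι 3 → K v), MvPolynomial.eval w
      (MvPolynomial.map (algebraMap ℚ (K v)) D) = MvPolynomial.aeval w D := by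
    intro v w
    rw [MvPolynomial.eval_map, MvPolynomial.aeval_def]
  obtain ⟨C, hC⟩ : ∃ C : Set (∀ v, mons ι 3 → K v), C =
      (Set.pi Set.univ fun v => Metric.closedBall (0 : mons ι 3 → K v) 1) ∩
        {w | ∀ v, η v ≤ ‖MvPolynomial.eval (w v) (MvPolynomial.map (algebraMap ℚ (K v)) D)‖} :=
    ⟨_, rfl⟩
  have hCc : IsCompact C := by
    rw [hC]
    refine IsCompact.inter_right (isCompact_univ_pi fun v => isCompact_closedBall _ _) ?_
    have h2 : {w : ∀ v, mons ι 3 → K v | ∀ v, η v ≤ ‖MvPolynomial.eval (w v)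
        (MvPolynomial.map (algebraMap ℚ (K v)) D)‖} =
        ⋂ v, {w | η v ≤ ‖MvPolynomial.eval (w v)
          (MvPolynomial.map (algebraMap ℚ (K v)) D)‖} := by
      ext z; simp
    rw [h2]
    refine isClosed_iInter fun v => isClosed_le continuous_const ?_
    exact ((MvPolynomial.continuous_eval _).comp (continuous_apply v)).norm
  obtain ⟨Θ, hΘ⟩ : ∃ Θ : (∀ v, mons ι 3 → K v) → ∀ v, ι → ι → ι → K v,
      Θ = fun w v => Th' (w v) := ⟨_, rfl⟩
  have hΘc : Continuous Θ := by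
    rw [hΘ]
    unfold Th'
    fun_prop
  have hG := hCc.image hΘc
  have hS : ∀ s ∈ Θ '' C, ∀ v, Sym (s v) ∧ Sm (s v) := by
    rintro _ ⟨w, hw, rfl⟩ v
    rw [hC] at hw
    obtain ⟨ext, hext⟩ : ∃ ext : (ι →₀ ℕ) → K v, ext = fun m =>
      if h : m ∈ mons ι 3 then w v ⟨m, h⟩ else 0 := ⟨_, rfl⟩
    have h1 : Θ w v = Th ext := by
      rw [hΘ, hext]
      funext i j k
      unfold Th' Th
      dsimp only
      rw [dif_pos (ex_mem i j k)]
    have h2 : (fun m : mons ι 3 => ext m.1) = w v := by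
      funext m
      rw [hext]
      dsimp only
      rw [dif_pos m.2]
    rw [h1]
    refine ⟨Th_sym _, sm_Th hD ?_⟩
    rw [h2, ← hev, ← norm_pos_iff]
    exact (hη v).trans_le (hw.2 v)
  obtain ⟨δ, hδ, hδ2⟩ := unif hd hι hG hS
  obtain ⟨H₀, hH₀⟩ := Finset.exists_le (Finset.univ.image Hv)
  refine ⟨δ, hδ, H₀, fun H hH => ?_⟩
  have hHv' : ∀ v, Hv v ≤ H := fun v =>
    (hH₀ _ (Finset.mem_image_of_mem Hv (Finset.mem_univ v))).trans hH
  have hcoef : ∀ f ∈ formsZ ι 3 (H : ℝ), ∀ m, |f.coeff m| ≤ (H : ℤ) :=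
    fun f hf => ((isF_iff f).mp (mem_formsZ.mp hf)).2
  have hsub : (formsZ ι 3 (H : ℝ)).filter (fun f => ¬ (WAd K (tf f) δ → DenseV K f)) ⊆
      Finset.univ.biUnion (fun v : V => (formsZ ι 3 (H : ℝ)).filter (fun f =>
        ‖MvPolynomial.eval (fun m : mons ι 3 => l v H * ((f.coeff m.1 : ℤ) : K v))
          (MvPolynomial.map (algebraMap ℚ (K v)) D)‖ ≤ η v)) := by
    intro f hf
    rw [Finset.mem_filter] at hf
    rw [Finset.mem_biUnion]
    by_contra hcon
    apply hf.2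
    intro hW T hT0 hT
    refine hδ2 (tf f) (Th_sym _) (fun v => l v H) (fun v => hl0 v H) ?_ hW T hT0 hT
    refine ⟨fun v m => l v H * ((f.coeff m.1 : ℤ) : K v), ?_, ?_⟩
    · rw [hC]
      refine ⟨?_, ?_⟩
      · intro v _
        rw [mem_closedBall_zero_iff, pi_norm_le_iff_of_nonneg zero_le_one]
        intro m
        exact hl1 v H _ (hcoef f hf.1 m.1)
      · intro v
        by_contra hlt
        push Not at hlt
        exact hcon ⟨v, Finset.mem_univ v, Finset.mem_filter.mpr ⟨hf.1, hlt.le⟩⟩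
    · rw [hΘ]
      funext v i j k
      unfold Th' tv tf Th
      push_cast
      ring
  have hcard : ((formsZ ι 3 (H : ℝ)).card : ℝ) =
      ((2 * H + 1 : ℕ) : ℝ) ^ Fintype.card (mons ι 3) := by
    rw [card_formsZ 3 (Nat.cast_nonneg H), Nat.floor_natCast, Fintype.card_coe]
    push_cast
    rfl
  have hv : ∀ v : V, (((formsZ ι 3 (H : ℝ)).filter (fun f =>
        ‖MvPolynomial.eval (fun m : mons ι 3 => l v H * ((f.coeff m.1 : ℤ) : K v))
          (MvPolynomial.map (algebraMap ℚ (K v)) D)‖ ≤ η v)).card : ℝ) ≤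
      ε / (Fintype.card V + 1) * (formsZ ι 3 (H : ℝ)).card := by
    intro v
    rw [hcard]
    refine le_trans ?_ (hHv v H (hHv' v))
    rw [Nat.cast_le]
    apply Finset.card_le_card_of_injOn (fun f (m : mons ι 3) => f.coeff m.1)
    · intro f hf
      rw [Finset.mem_coe, Finset.mem_filter] at hf
      rw [Finset.mem_coe, Finset.mem_filter, Fintype.mem_piFinset]
      refine ⟨fun m => ?_, hf.2⟩
      rw [Finset.mem_Icc, ← abs_le]
      exact hcoef f hf.1 m.1
    · intro f hf g hg hfg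
      rw [Finset.mem_coe, Finset.mem_filter] at hf hg
      apply MvPolynomial.ext
      intro m
      by_cases hm : m ∈ mons ι 3
      · exact congrFun hfg ⟨m, hm⟩
      · rw [coeff_out (mem_formsZ.mp hf.1).1 hm, coeff_out (mem_formsZ.mp hg.1).1 hm]
  have h1 := (Finset.card_le_card hsub).trans Finset.card_biUnion_le
  have h2 := (Nat.cast_le (α := ℝ)).mpr h1
  push_cast at h2
  refine h2.trans ((Finset.sum_le_sum fun v _ => hv v).trans ?_)
  rw [Finset.sum_const, nsmul_eq_mul, Finset.card_univ]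
  have h3 : (Fintype.card V : ℝ) * (ε / (Fintype.card V + 1)) ≤ ε := by
    rw [mul_div_assoc', div_le_iff₀ (by positivity)]
    nlinarith
  calc _ = ((Fintype.card V : ℝ) * (ε / (Fintype.card V + 1))) *
        ((formsZ ι 3 (H : ℝ)).card : ℝ) := by ring
    _ ≤ _ := mul_le_mul_of_nonneg_right h3 (by positivity)

end

end Pool.Agent.Run7.h443.WE
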