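import Pool.Agent.Run7.h443.WE.Main
import Pool.Agent.Run7.h443.CD.T6

/-!
# Density of the rational points of 100% of the cubic hypersurfaces
-/

set_option autoImplicit false

namespace Pool.Agent.Run7.h443.WE

open Filter Topology
open Pool.Agent.Y716.Q Pool.Agent.Y697.C13
open Pool.Agent.Run7.h443.CD (diag)
open scoped Classical

section
variable {ι : Type} [Fintype ι]

/-- The hypersurface is smooth. -/
def SmoothF (f : MvPolynomial ι ℤ) : Prop :=
  ∀ (K : Type) [Field K] [CharZero K] (x : ι → K), x ≠ 0 → MvPolynomial.aeval x f = 0 →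
    ∃ i, MvPolynomial.aeval x (MvPolynomial.pderiv i f) ≠ 0

/-- Almost all cubic forms are smooth. -/
theorem smooth_count (ι : Type) [Fintype ι] {ε : ℝ} (hε : 0 < ε) :
    ∃ H₀ : ℕ, ∀ H : ℕ, H₀ ≤ H →
      (((formsZ ι 3 (H : ℝ)).filter (fun f => ¬ SmoothF f)).card : ℝ) ≤
        ε * (formsZ ι 3 (H : ℝ)).card := by
  obtain ⟨D, hD0, hD⟩ := exists_disc ι
  haveI : Fact (Nat.Prime 2) := ⟨Nat.prime_two⟩
  obtain ⟨η, hη, H₀, hH₀⟩ := small_gen (spread_padic 2)
    (MvPolynomial.map (algebraMap ℚ ℚ_[2]) D)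
    (by
      rw [Ne, map_eq_zero_iff _ (MvPolynomial.map_injective _ (algebraMap ℚ ℚ_[2]).injective)]
      exact hD0) ε hε
  refine ⟨H₀, fun H hH => ?_⟩
  have hcoef : ∀ f ∈ formsZ ι 3 (H : ℝ), ∀ m, |f.coeff m| ≤ (H : ℤ) :=
    fun f hf => ((isF_iff f).mp (mem_formsZ.mp hf)).2
  have hcard : ((formsZ ι 3 (H : ℝ)).card : ℝ) =
      ((2 * H + 1 : ℕ) : ℝ) ^ Fintype.card (mons ι 3) := by
    rw [card_formsZ 3 (Nat.cast_nonneg H), Nat.floor_natCast, Fintype.card_coe]
    push_cast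
    rfl
  rw [hcard]
  refine le_trans ?_ (hH₀ H hH)
  rw [Nat.cast_le]
  apply Finset.card_le_card_of_injOn (fun f (m : mons ι 3) => f.coeff m.1)
  · intro f hf
    rw [Finset.mem_coe, Finset.mem_filter] at hf
    rw [Finset.mem_coe, Finset.mem_filter, Fintype.mem_piFinset]
    refine ⟨fun m => ?_, ?_⟩
    · rw [Finset.mem_Icc, ← abs_le]
      exact hcoef f hf.1 m.1
    · have hns := hf.2
      unfold SmoothF at hns
      push Not at hns
      obtain ⟨K, _, _, x, hx, -, hG⟩ := hns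
      have hfh : f.IsHomogeneous 3 := (mem_formsZ.mp hf.1).1
      have h1 := hD K (fun m => ((f.coeff m : ℤ) : K)) x hx (fun i => by
        rw [← aeval_df hfh]
        exact hG i)
      have h2 : algebraMap ℚ K (MvPolynomial.aeval
          (fun m : mons ι 3 => ((f.coeff m.1 : ℤ) : ℚ)) D) = 0 := by
        rw [← h1]
        have h6 := MvPolynomial.aeval_algebraMap_apply (A := ℚ) (B := K)
          (fun m : mons ι 3 => ((f.coeff m.1 : ℤ) : ℚ)) D
        rw [← h6]
        congr 2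
        funext m
        show algebraMap ℚ K ((f.coeff m.1 : ℤ) : ℚ) = ((f.coeff m.1 : ℤ) : K)
        rw [eq_ratCast, Rat.cast_intCast]
      have h3 : MvPolynomial.aeval (fun m : mons ι 3 => ((f.coeff m.1 : ℤ) : ℚ)) D = 0 :=
        (map_eq_zero (algebraMap ℚ K)).1 h2
      have h4 : MvPolynomial.eval (fun m : mons ι 3 => (1 : ℚ_[2]) * ((f.coeff m.1 : ℤ) : ℚ_[2]))
          (MvPolynomial.map (algebraMap ℚ ℚ_[2]) D) = 0 := by
        rw [MvPolynomial.eval_map, ← MvPolynomial.aeval_def]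
        have h5 : (fun m : mons ι 3 => (1 : ℚ_[2]) * ((f.coeff m.1 : ℤ) : ℚ_[2])) =
            fun m : mons ι 3 => algebraMap ℚ ℚ_[2] ((f.coeff m.1 : ℤ) : ℚ) := by
          funext m
          rw [eq_ratCast, Rat.cast_intCast, one_mul]
        have h6 := MvPolynomial.aeval_algebraMap_apply (A := ℚ) (B := ℚ_[2])
          (fun m : mons ι 3 => ((f.coeff m.1 : ℤ) : ℚ)) D
        rw [h3, map_zero] at h6
        rw [h5]
        exact h6
      show ‖MvPolynomial.eval (fun m : mons ι 3 => (1 : ℚ_[2]) * ((f.coeff m.1 : ℤ) : ℚ_[2]))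
          (MvPolynomial.map (algebraMap ℚ ℚ_[2]) D)‖ ≤ η
      rw [h4, norm_zero]
      exact hη.le
  · intro f hf g hg hfg
    rw [Finset.mem_coe, Finset.mem_filter] at hf hg
    apply MvPolynomial.ext
    intro m
    by_cases hm : m ∈ mons ι 3
    · exact congrFun hfg ⟨m, hm⟩
    · rw [coeff_out (mem_formsZ.mp hf.1).1 hm, coeff_out (mem_formsZ.mp hg.1).1 hm]

/-- A positive proportion is smooth and everywhere locally soluble. -/
theorem pos_count (ι : Type) [Fintype ι] (hι : 4 ≤ Fintype.card ι) :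
    ∃ c : ℝ, 0 < c ∧ ∃ H₀ : ℕ, ∀ H : ℕ, H₀ ≤ H →
      c * ((formsZ ι 3 (H : ℝ)).card : ℝ) ≤
        (((formsZ ι 3 (H : ℝ)).filter (fun f => SmoothF f ∧ ELS f)).card : ℝ) := by
  obtain ⟨c, hc, H₁, hH₁⟩ := sol_positive ι hι 1 (by omega)
  obtain ⟨H₂, hH₂⟩ := smooth_count ι (half_pos hc)
  refine ⟨c / 2, half_pos hc, max ⌈H₁⌉₊ H₂, fun H hH => ?_⟩
  have h1 := hH₁ (H : ℝ) ((Nat.le_ceil _).trans (by exact_mod_cast (le_max_left _ _).trans hH))
  have h2 := hH₂ H ((le_max_right _ _).trans hH)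
  have h3 : (formsZ ι (1 + 2) (H : ℝ)).filter (fun f => Sol f) ⊆
      (formsZ ι 3 (H : ℝ)).filter (fun f => SmoothF f ∧ ELS f) ∪
      (formsZ ι 3 (H : ℝ)).filter (fun f => ¬ SmoothF f) := by
    intro f hf
    rw [Finset.mem_filter] at hf
    rw [Finset.mem_union, Finset.mem_filter, Finset.mem_filter]
    have hfh := (mem_formsZ.mp hf.1).1
    by_cases hs : SmoothF f
    · left
      exact ⟨hf.1, hs, solQ_els hfh ((solQ_iff hfh).mpr hf.2)⟩
    · right
      exact ⟨hf.1, hs⟩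
  have h4 := (Nat.cast_le (α := ℝ)).mpr
    ((Finset.card_le_card h3).trans (Finset.card_union_le _ _))
  push_cast at h4
  have h5 : c * ((formsZ ι 3 (H : ℝ)).card : ℝ) ≤
      (((formsZ ι (1 + 2) (H : ℝ)).filter (fun f => Sol f)).card : ℝ) := h1
  linarith

/-- Density of the rational points, at the real place and at the primes up to a bound tending to
infinity, for almost all smooth everywhere locally soluble cubic hypersurfaces. -/
theorem main_dense (ι : Type) [Fintype ι] (hι : 4 ≤ Fintype.card ι) :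
    ∃ N : ℕ → ℕ, Tendsto N atTop atTop ∧ Tendsto (fun H : ℕ =>
      (((formsZ ι 3 (H : ℝ)).filter
        (fun f => SmoothF f ∧ ELS f ∧ DenseWA (N H) f)).card : ℝ) /
      (((formsZ ι 3 (H : ℝ)).filter (fun f => SmoothF f ∧ ELS f)).card : ℝ)) atTop (𝓝 1) := by
  obtain ⟨δ, hδ0, B₁, hB₁⟩ := pos_count ι hι
  have hcard : ∀ B : ℕ, (0:ℝ) < ((formsZ ι 3 (B : ℝ)).card : ℝ) := by
    intro B
    exact_mod_cast card_forms_pos (ι := ι) 3 (Nat.cast_nonneg B)
  have hwa : ∀ j : ℕ, ∀ᶠ B : ℕ in atTop,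
      (((formsZ ι 3 (B : ℝ)).filter (fun c => ¬ DenseWA j c)).card : ℝ) ≤
        1 / (j + 1) * ((formsZ ι 3 (B : ℝ)).card : ℝ) := by
    intro j
    obtain ⟨B₀, hB₀⟩ := dense_count hι j (ε := 1 / (j + 1)) (by positivity)
    filter_upwards [eventually_ge_atTop B₀] with B hB
    exact hB₀ B hB
  obtain ⟨N, hN1, hN2⟩ := diag hwa
  refine ⟨N, hN1, ?_⟩
  rw [Metric.tendsto_atTop]
  intro ε hε
  obtain ⟨j, hj⟩ := exists_nat_gt (1 / (ε * (δ / 2)))
  have hev : ∀ᶠ B : ℕ in atTop,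
      (((formsZ ι 3 (B : ℝ)).filter (fun c => ¬ DenseWA (N B) c)).card : ℝ) ≤
        ε * (δ / 2) * ((formsZ ι 3 (B : ℝ)).card : ℝ) := by
    filter_upwards [hN2, tendsto_atTop.mp hN1 j] with B h3 h4
    refine h3.trans (mul_le_mul_of_nonneg_right ?_ (hcard B).le)
    have h6 : (j : ℝ) ≤ N B := by exact_mod_cast h4
    rw [div_le_iff₀ (by positivity)]
    rw [div_lt_iff₀ (by positivity)] at hj
    have h7 : 0 < ε * (δ / 2) := by positivity
    nlinarith
  obtain ⟨M, hM⟩ := eventually_atTop.mp hev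
  refine ⟨max M B₁, fun B hB => ?_⟩
  have h1 := hB₁ B ((le_max_right _ _).trans hB)
  have h2 := hM B ((le_max_left _ _).trans hB)
  obtain ⟨G, hG⟩ : ∃ G : ℝ, ((formsZ ι 3 (B : ℝ)).card : ℝ) = G := ⟨_, rfl⟩
  obtain ⟨A, hA⟩ : ∃ A : ℝ, (((formsZ ι 3 (B : ℝ)).filter
    (fun f => SmoothF f ∧ ELS f ∧ DenseWA (N B) f)).card : ℝ) = A := ⟨_, rfl⟩
  obtain ⟨E, hE⟩ : ∃ E : ℝ,
    (((formsZ ι 3 (B : ℝ)).filter (fun f => SmoothF f ∧ ELS f)).card : ℝ) = E := ⟨_, rfl⟩
  have hG0 : 0 < G := by rw [← hG]; exact hcard B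
  rw [hG] at h1 h2
  rw [hE] at h1
  have hAE : A ≤ E := by
    rw [← hA, ← hE]
    apply card_filter_le'
    intro c _ ⟨g1, g2, _⟩
    exact ⟨g1, g2⟩
  have hEA : E ≤ A + ε * (δ / 2) * G := by
    have h4 : (formsZ ι 3 (B : ℝ)).filter (fun f => SmoothF f ∧ ELS f) ⊆
          (formsZ ι 3 (B : ℝ)).filter
            (fun f => SmoothF f ∧ ELS f ∧ DenseWA (N B) f) ∪
          (formsZ ι 3 (B : ℝ)).filter (fun f => ¬ DenseWA (N B) f) := by
      intro c hc
      rw [Finset.mem_filter] at hc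
      rw [Finset.mem_union, Finset.mem_filter, Finset.mem_filter]
      by_cases hs : DenseWA (N B) c
      · left; exact ⟨hc.1, hc.2.1, hc.2.2, hs⟩
      · right; exact ⟨hc.1, hs⟩
    have h5 := (Finset.card_le_card h4).trans (Finset.card_union_le _ _)
    have h6 := (Nat.cast_le (α := ℝ)).mpr h5
    push_cast at h6
    rw [hA, hE] at h6
    linarith
  have hE0 : 0 < E := lt_of_lt_of_le (by positivity) h1
  have hgoal : dist (A / E) 1 < ε := by
    rw [Real.dist_eq, abs_sub_comm, abs_of_nonneg (by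
      rw [sub_nonneg, div_le_one hE0]; exact hAE)]
    have h7 : 1 - A / E = (E - A) / E := by field_simp
    rw [h7, div_lt_iff₀ hE0]
    have h8 : ε * (δ / 2) * G < ε * E := by
      have h9 : δ / 2 * G < E := by
        have : 0 < δ * G := by positivity
        linarith
      have := mul_lt_mul_of_pos_left h9 hε
      linarith
    linarith
  rw [← hA, ← hE] at hgoal
  exact hgoal

end

end Pool.Agent.Run7.h443.WE
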