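import Pool.Agent.Run7.h443.WE.Count
import Pool.Agent.H391R2.R1.TC

/-!
# Density of the rational points of almost all cubic hypersurfaces
-/

set_option autoImplicit false

namespace Pool.Agent.Run7.h443.WE

open Filter Topology
open Pool.Agent.Y716.Q Pool.Agent.Y697.C13
open scoped Classical

/-- the primes up to `M` -/
abbrev PP (M : ℕ) : Type := {p : ℕ // p ∈ (Finset.range (M + 1)).filter Nat.Prime}

instance fact_PP (M : ℕ) (p : PP M) : Fact (p : ℕ).Prime := ⟨(Finset.mem_filter.mp p.2).2⟩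

theorem mem_PP {M p : ℕ} (hp : p.Prime) (h : p ≤ M) :
    p ∈ (Finset.range (M + 1)).filter Nat.Prime :=
  Finset.mem_filter.mpr ⟨Finset.mem_range.mpr (by omega), hp⟩

/-- the completions -/
def KK (M : ℕ) : Option (PP M) → Type
  | none => ℝ
  | some p => ℚ_[p.1]

noncomputable instance instKK (M : ℕ) : ∀ v, NontriviallyNormedField (KK M v)
  | none => inferInstanceAs (NontriviallyNormedField ℝ)
  | some p => inferInstanceAs (NontriviallyNormedField ℚ_[p.1])

instance instKKc (M : ℕ) : ∀ v, CompleteSpace (KK M v)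
  | none => inferInstanceAs (CompleteSpace ℝ)
  | some p => inferInstanceAs (CompleteSpace ℚ_[p.1])

instance instKK0 (M : ℕ) : ∀ v, CharZero (KK M v)
  | none => inferInstanceAs (CharZero ℝ)
  | some p => inferInstanceAs (CharZero ℚ_[p.1])

instance instKKp (M : ℕ) : ∀ v, ProperSpace (KK M v)
  | none => inferInstanceAs (ProperSpace ℝ)
  | some p => inferInstanceAs (ProperSpace ℚ_[p.1])

/-- the scalings -/
noncomputable def sca (M : ℕ) : ∀ v, ℕ → KK M v
  | none => fun H => ((1 : ℝ) / (H + 1) : ℝ)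
  | some p => fun _ => (1 : ℚ_[p.1])

theorem sca_spread (M : ℕ) : ∀ v, Spread (sca M v)
  | none => spread_real
  | some p => spread_padic p.1

theorem sca_ne (M : ℕ) : ∀ v H, sca M v H ≠ 0
  | none, H => by
    show ((1 : ℝ) / (H + 1) : ℝ) ≠ 0
    positivity
  | some p, _ => by
    show (1 : ℚ_[p.1]) ≠ 0
    exact one_ne_zero

theorem sca_le (M : ℕ) : ∀ v (H : ℕ) (c : ℤ), |c| ≤ (H : ℤ) → ‖sca M v H * (c : KK M v)‖ ≤ 1
  | none, H, c, hc => by
    show ‖((1 : ℝ) / (H + 1) : ℝ) * (c : ℝ)‖ ≤ 1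
    have h1 : |(c : ℝ)| ≤ H := by exact_mod_cast hc
    have h2 : (0 : ℝ) < H + 1 := by positivity
    rw [norm_mul, Real.norm_eq_abs, Real.norm_eq_abs, abs_of_pos (by positivity), one_div,
      inv_mul_le_iff₀ h2, mul_one]
    linarith
  | some p, _, c, _ => by
    show ‖(1 : ℚ_[p.1]) * (c : ℚ_[p.1])‖ ≤ 1
    rw [one_mul]
    exact Padic.norm_int_le_one c

theorem dens (M : ℕ) : DenseRange (fun (a : ℚ) (v : Option (PP M)) => ((a : ℚ) : KK M v)) := by
  rw [Metric.denseRange_iff]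
  intro z r hr
  obtain ⟨x, hx1, hx2⟩ := Pool.Agent.H391R2.R1.rat_approx (V := PP M) (fun p => p.1)
    Subtype.val_injective (z none) (fun p => z (some p)) r hr
  refine ⟨x, ?_⟩
  rw [dist_pi_lt_iff hr]
  rintro (_ | p)
  · have h := hx1
    rw [← Real.dist_eq, dist_comm] at h
    exact h
  · have h := hx2 p
    rw [← dist_eq_norm, dist_comm] at h
    exact h

section
variable {ι : Type} [Fintype ι]

/-- The rational points of the cone over the hypersurface are dense in the product of the sets of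
the nonzero zeros in the real numbers and the `p`-adic numbers for the primes `p` up to `M`. -/
def DenseWA (M : ℕ) (f : MvPolynomial ι ℤ) : Prop :=
  ∀ (z : ∀ (p : ℕ) [Fact p.Prime], ι → ℚ_[p]) (y : ι → ℝ),
    (∀ (p : ℕ) [Fact p.Prime], z p ≠ 0 ∧ MvPolynomial.aeval (z p) f = 0) → y ≠ 0 →
    MvPolynomial.aeval y f = 0 → ∀ ε : ℝ, 0 < ε →
    ∃ x : ι → ℚ, x ≠ 0 ∧ MvPolynomial.aeval x f = 0 ∧ (∀ i, |y i - (x i : ℝ)| < ε) ∧
      ∀ (p : ℕ) [Fact p.Prime], p ≤ M → ∀ i, ‖z p i - (x i : ℚ_[p])‖ < ε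

theorem tau_f {f : MvPolynomial ι ℤ} (hf : f.IsHomogeneous 3) {K : Type} [Field K] [CharZero K]
    (x : ι → K) : tau (fun i j k => ((tf f i j k : ℚ) : K)) x x x = 6 * MvPolynomial.aeval x f := by
  have h1 : (fun i j k => ((tf f i j k : ℚ) : K)) = Th (fun m => ((f.coeff m : ℤ) : K)) := by
    funext i j k
    unfold tf Th
    push_cast
    rfl
  rw [h1, tau_3, eval_pol, aeval_f hf]

theorem tau_f_zero {f : MvPolynomial ι ℤ} (hf : f.IsHomogeneous 3) {K : Type} [Field K]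
    [CharZero K] (x : ι → K) :
    tau (fun i j k => ((tf f i j k : ℚ) : K)) x x x = 0 ↔ MvPolynomial.aeval x f = 0 := by
  rw [tau_f hf]
  have h6 : (6 : K) ≠ 0 := by norm_num
  simp [h6]

/-- a component -/
def pick {M : ℕ} (Z : ∀ v, ι → KK M v) (p : PP M) : ι → ℚ_[p.1] := Z (some p)

/-- a component -/
def pickr {M : ℕ} (Z : ∀ v, ι → KK M v) : ι → ℝ := Z none

/-- all the components -/
noncomputable def fill {M : ℕ} (Z : ∀ v, ι → KK M v) (z : ∀ (p : ℕ) [Fact p.Prime], ι → ℚ_[p])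
    (p : ℕ) [hp : Fact p.Prime] : ι → ℚ_[p] :=
  if h : p ≤ M then pick Z ⟨p, mem_PP hp.out h⟩ else z p

theorem PP_le {M : ℕ} (p : PP M) : p.1 ≤ M := by
  have := Finset.mem_range.mp (Finset.mem_filter.mp p.2).1
  omega

theorem dense_of {M m : ℕ} (hMm : M ≤ m) (hm1 : 1 ≤ m) {f : MvPolynomial ι ℤ}
    (hf : f.IsHomogeneous 3) {δ : ℝ} (hδ : 1 / (m : ℝ) ≤ δ) (hW : WeakApprox m f)
    (hG : WAd (KK M) (tf f) δ → DenseV (KK M) f) : DenseWA M f := by
  intro z y hz hy hyf ε hε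
  have hWAd : WAd (KK M) (tf f) δ := by
    intro Z hZ
    obtain ⟨x, hx0, hxf, hxp, c, hc0, hxr⟩ := hW (fill Z z) (pickr Z) (fun p _ => by
        unfold fill
        split_ifs with h
        · have h1 := hZ (some ⟨p, mem_PP (Fact.out : p.Prime) h⟩)
          exact ⟨h1.1, (tau_f_zero (K := ℚ_[p]) hf _).mp h1.2⟩
        · exact hz p) (hZ none).1 ((tau_f_zero (K := ℝ) hf _).mp (hZ none).2)
    have hcp : ∀ p : PP M, ∃ c : ℚ_[p.1], ∀ i, ‖pick Z p i - c * (x i : ℚ_[p.1])‖ ≤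
        ‖pick Z p‖ / m := by
      intro p
      obtain ⟨c, -, hc⟩ := hxp p.1 ((PP_le p).trans hMm)
      refine ⟨c, fun i => ?_⟩
      have h2 := hc i
      unfold fill at h2
      rw [dif_pos (PP_le p)] at h2
      exact h2
    choose cp hcp using hcp
    obtain ⟨cc, hcc⟩ : ∃ cc : ∀ v, KK M v, (cc none = c) ∧ ∀ p, cc (some p) = cp p :=
      ⟨fun v => match v with
        | none => c
        | some p => cp p, rfl, fun p => rfl⟩
    have hm0 : (0 : ℝ) < m := by exact_mod_cast hm1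
    have hxCl : emb (KK M) x ∈ Cl (KK M) (tf f) := by
      apply subset_closure
      refine ⟨x, ?_, rfl⟩
      have h3 := (tau_f_zero (K := ℚ) hf x).mpr hxf
      simpa using h3
    refine ⟨fun v => cc v • emb (KK M) x v, Cl_smul (dens M) cc hxCl, ?_⟩
    have hle : ∀ v, ‖Z v‖ / m ≤ δ * ‖Z v‖ := by
      intro v
      rw [div_eq_mul_one_div, mul_comm]
      exact mul_le_mul_of_nonneg_right hδ (norm_nonneg _)
    rintro (_ | p)
    · refine le_trans ?_ (hle none)
      rw [pi_norm_le_iff_of_nonneg (by positivity)]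
      intro i
      show ‖(Z none - cc none • emb (KK M) x none) i‖ ≤ ‖Z none‖ / m
      rw [hcc.1]
      exact hxr i
    · refine le_trans ?_ (hle (some p))
      rw [pi_norm_le_iff_of_nonneg (by positivity)]
      intro i
      show ‖(Z (some p) - cc (some p) • emb (KK M) x (some p)) i‖ ≤ ‖Z (some p)‖ / m
      rw [hcc.2]
      exact hcp p i
  obtain ⟨T, hT1, hT2⟩ : ∃ T : ∀ v, ι → KK M v, pickr T = y ∧ ∀ p, pick T p = z p.1 :=
    ⟨fun v => match v with
      | none => y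
      | some p => z p.1, rfl, fun p => rfl⟩
  have hTCl : T ∈ Cl (KK M) (tf f) := by
    apply hG hWAd
    · rintro (_ | p)
      · show pickr T ≠ 0
        rw [hT1]; exact hy
      · show pick T p ≠ 0
        rw [hT2]; exact (hz p.1).1
    · rintro (_ | p)
      · have h1 : MvPolynomial.aeval (pickr T) f = 0 := by rw [hT1]; exact hyf
        exact (tau_f_zero (K := ℝ) hf _).mpr h1
      · have h1 : MvPolynomial.aeval (pick T p) f = 0 := by rw [hT2]; exact (hz p.1).2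
        exact (tau_f_zero (K := ℚ_[p.1]) hf _).mpr h1
  have hny : 0 < ‖y‖ := norm_pos_iff.mpr hy
  obtain ⟨_, ⟨x, hx, rfl⟩, hxd⟩ := Metric.mem_closure_iff.mp hTCl (min ε ‖y‖) (lt_min hε hny)
  rw [dist_pi_lt_iff (lt_min hε hny)] at hxd
  have hxr : dist (pickr T) (fun i => ((x i : ℚ) : ℝ)) < min ε ‖y‖ := hxd none
  rw [hT1] at hxr
  refine ⟨x, ?_, ?_, ?_, ?_⟩
  · rintro rfl
    have h2 : dist y (fun _ => (((0 : ℚ)) : ℝ)) < ‖y‖ := hxr.trans_le (min_le_right _ _)
    rw [Rat.cast_zero] at h2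
    have h3 : dist y 0 < ‖y‖ := h2
    rw [dist_zero_right] at h3
    exact lt_irrefl _ h3
  · have hx' : tau (tf f) x x x = 0 := hx
    have h3 := (tau_f_zero (K := ℚ) hf x).mp (by simpa using hx')
    exact h3
  · intro i
    rw [dist_pi_lt_iff (lt_min hε hny)] at hxr
    have h3 := hxr i
    rw [Real.dist_eq] at h3
    exact h3.trans_le (min_le_left _ _)
  · intro p hp hpM i
    have h1 : dist (pick T ⟨p, mem_PP hp.out hpM⟩) (fun i => ((x i : ℚ) : ℚ_[p])) <
      min ε ‖y‖ := hxd (some ⟨p, mem_PP hp.out hpM⟩)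
    rw [hT2, dist_pi_lt_iff (lt_min hε hny)] at h1
    have h3 := h1 i
    rw [dist_eq_norm] at h3
    exact h3.trans_le (min_le_left _ _)

theorem dense_count (hι : 4 ≤ Fintype.card ι) (M : ℕ) {ε : ℝ} (hε : 0 < ε) :
    ∃ H₀ : ℕ, ∀ H : ℕ, H₀ ≤ H →
      (((formsZ ι 3 (H : ℝ)).filter (fun f => ¬ DenseWA M f)).card : ℝ) ≤
        ε * (formsZ ι 3 (H : ℝ)).card := by
  obtain ⟨δ, hδ, H₁, hH₁⟩ := main_count (K := KK M) (dens M) hι (sca_spread M) (sca_ne M)
    (sca_le M) (half_pos hε)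
  obtain ⟨m₀, hm₀⟩ := exists_nat_gt (1 / δ)
  obtain ⟨m, hm⟩ : ∃ m, m = max (max M 1) m₀ := ⟨_, rfl⟩
  have hMm : M ≤ m := by rw [hm]; exact (le_max_left _ _).trans (le_max_left _ _)
  have hm1 : 1 ≤ m := by rw [hm]; exact (le_max_right _ _).trans (le_max_left _ _)
  have hmm : m₀ ≤ m := by rw [hm]; exact le_max_right _ _
  have hδm : 1 / (m : ℝ) ≤ δ := by
    have h1 : (m₀ : ℝ) ≤ m := by exact_mod_cast hmm
    have h2 : 1 / δ < m := hm₀.trans_le h1
    have hm0 : (0 : ℝ) < m := by exact_mod_cast hm1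
    rw [div_le_iff₀ hm0]
    rw [div_lt_iff₀ hδ] at h2
    linarith
  obtain ⟨H₂, hH₂⟩ := wa_exc ι hι 1 (by omega) (m := m) hm1 (half_pos hε)
  refine ⟨max H₁ ⌈H₂⌉₊, fun H hH => ?_⟩
  have h1 := hH₁ H ((le_max_left _ _).trans hH)
  have h2 := hH₂ (H : ℝ) ((Nat.le_ceil _).trans (by exact_mod_cast (le_max_right _ _).trans hH))
  have hsub : (formsZ ι 3 (H : ℝ)).filter (fun f => ¬ DenseWA M f) ⊆
      (formsZ ι 3 (H : ℝ)).filter (fun f => ¬ (WAd (KK M) (tf f) δ → DenseV (KK M) f)) ∪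
      (formsZ ι (1 + 2) (H : ℝ)).filter (fun f => ¬ WeakApprox m f) := by
    intro f hf
    rw [Finset.mem_filter] at hf
    rw [Finset.mem_union, Finset.mem_filter, Finset.mem_filter]
    by_contra hcon
    rw [not_or] at hcon
    exact hf.2 (dense_of hMm hm1 (mem_formsZ.mp hf.1).1 hδm (by
      by_contra hne
      exact hcon.2 ⟨hf.1, hne⟩) (by
      by_contra hne
      exact hcon.1 ⟨hf.1, hne⟩))
  have h3 := (Finset.card_le_card hsub).trans (Finset.card_union_le _ _)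
  have h4 := (Nat.cast_le (α := ℝ)).mpr h3
  push_cast at h4
  refine h4.trans ((add_le_add h1 h2).trans (le_of_eq ?_))
  show ε / 2 * ((formsZ ι 3 (H : ℝ)).card : ℝ) + ε / 2 * ((formsZ ι 3 (H : ℝ)).card : ℝ) = _
  ring

end

end Pool.Agent.Run7.h443.WE
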