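import Pool.Agent.Run7.h443.WE.Chain2

/-!
# The closure of the rational points of a cubic hypersurface in a finite product of completions
-/

set_option autoImplicit false

namespace Pool.Agent.Run7.h443.WE

open Filter Topology

section glob
variable {ι : Type*} [Fintype ι] {V : Type} [Fintype V] {K : V → Type}
  [∀ v, NontriviallyNormedField (K v)] [∀ v, CompleteSpace (K v)] [∀ v, CharZero (K v)]

/-- a rational tensor over `K v` -/
def tv (K : V → Type) [∀ v, NontriviallyNormedField (K v)] (t : ι → ι → ι → ℚ) (v : V) :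
    ι → ι → ι → K v := fun i j k => ((t i j k : ℚ) : K v)

/-- a rational vector in the product -/
def emb (K : V → Type) [∀ v, NontriviallyNormedField (K v)] (x : ι → ℚ) : ∀ v, ι → K v :=
  fun v i => ((x i : ℚ) : K v)

/-- The closure of the set of the rational points (of the cone). -/
def Cl (K : V → Type) [∀ v, NontriviallyNormedField (K v)] (t : ι → ι → ι → ℚ) :
    Set (∀ v, ι → K v) := closure (emb K '' {x | tau t x x x = 0})

theorem tau_emb (t : ι → ι → ι → ℚ) (x y z : ι → ℚ) (v : V) :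
    tau (tv K t v) (emb K x v) (emb K y v) (emb K z v) = ((tau t x y z : ℚ) : K v) := by
  unfold tau tv emb
  push_cast
  rfl

theorem emb_sym {t : ι → ι → ι → ℚ} (h : Sym t) (v : V) : Sym (tv K t v) := by
  intro i j k
  constructor
  · show ((t i j k : ℚ) : K v) = ((t j i k : ℚ) : K v)
    rw [(h i j k).1]
  · show ((t i j k : ℚ) : K v) = ((t i k j : ℚ) : K v)
    rw [(h i j k).2]

theorem dense_emb (hd : DenseRange (fun (a : ℚ) (v : V) => ((a : ℚ) : K v))) :
    DenseRange (emb (ι := ι) K) := by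
  have h1 : DenseRange (fun (x : ι → ℚ) (i : ι) (v : V) => ((x i : ℚ) : K v)) :=
    DenseRange.piMap (fun _ => hd)
  have h2 : Continuous (fun (y : ι → ∀ v, K v) (v : V) (i : ι) => y i v) := by fun_prop
  have h3 : Function.Surjective (fun (y : ι → ∀ v, K v) (v : V) (i : ι) => y i v) :=
    fun z => ⟨fun i v => z v i, rfl⟩
  exact h3.denseRange.comp h1 h2

theorem Cl_zero {t : ι → ι → ι → ℚ} {z : ∀ v, ι → K v} (hz : z ∈ Cl K t) (v : V) :
    tau (tv K t v) (z v) (z v) (z v) = 0 := by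
  have h1 : IsClosed {z : ∀ v, ι → K v | tau (tv K t v) (z v) (z v) (z v) = 0} :=
    isClosed_eq (cont_tau continuous_const (continuous_apply v) (continuous_apply v)
      (continuous_apply v)) continuous_const
  refine closure_minimal ?_ h1 hz
  rintro _ ⟨x, hx, rfl⟩
  rw [Set.mem_ofPred_eq, tau_emb]
  have hx' : tau t x x x = 0 := hx
  rw [hx', Rat.cast_zero]

theorem Cl_smul (hd : DenseRange (fun (a : ℚ) (v : V) => ((a : ℚ) : K v))) {t : ι → ι → ι → ℚ}
    (c : ∀ v, K v) {z : ∀ v, ι → K v} (hz : z ∈ Cl K t) : (fun v => c v • z v) ∈ Cl K t := by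
  have hc : c ∈ closure (Set.range (fun (a : ℚ) (v : V) => ((a : ℚ) : K v))) := hd c
  refine map_mem_closure₂ (f := fun (c : ∀ v, K v) (z : ∀ v, ι → K v) => fun v => c v • z v)
    (by fun_prop) hc hz ?_
  rintro _ ⟨a, rfl⟩ _ ⟨x, hx, rfl⟩
  refine ⟨a • x, ?_, ?_⟩
  · show tau t (a • x) (a • x) (a • x) = 0
    have hx' : tau t x x x = 0 := hx
    rw [tau_smul1, tau_smul2, tau_smul3, hx']
    ring
  · funext v i
    simp only [emb, Pi.smul_apply, smul_eq_mul]
    push_cast
    rfl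

theorem sec_emb (t : ι → ι → ι → ℚ) (x y : ι → ℚ) (v : V) :
    sec (tv K t v) (emb K x v) (emb K y v) = emb K (sec t x y) v := by
  unfold sec
  rw [tau_emb, tau_emb]
  funext i
  simp only [emb, Pi.add_apply, Pi.smul_apply, smul_eq_mul]
  push_cast
  ring

theorem Cl_sec {t : ι → ι → ι → ℚ} (h : Sym t) {T R : ∀ v, ι → K v} (hT : T ∈ Cl K t)
    (hR : R ∈ Cl K t) : (fun v => sec (tv K t v) (T v) (R v)) ∈ Cl K t := by
  refine map_mem_closure₂ (f := fun (T R : ∀ v, ι → K v) => fun v => sec (tv K t v) (T v) (R v))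
    ?_ hT hR ?_
  · refine continuous_pi fun v => ?_
    unfold sec
    have c1 : Continuous fun q : (∀ v, ι → K v) × (∀ v, ι → K v) => q.1 v := by fun_prop
    have c2 : Continuous fun q : (∀ v, ι → K v) × (∀ v, ι → K v) => q.2 v := by fun_prop
    exact ((cont_tau continuous_const c1 c2 c2).smul c1).add
      ((cont_tau continuous_const c1 c1 c2).neg.smul c2)
  · rintro _ ⟨x, hx, rfl⟩ _ ⟨y, hy, rfl⟩
    exact ⟨sec t x y, sec_mem h hx hy, by funext v; rw [sec_emb]⟩

theorem tg_emb (t : ι → ι → ι → ℚ) (x y : ι → ℚ) (v : V) :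
    tg (tv K t v) (emb K x v) (emb K y v) = emb K (tg t x y) v := by
  unfold tg
  rw [tau_emb, tau_emb]
  funext i
  simp only [emb, Pi.add_apply, Pi.smul_apply, smul_eq_mul]
  push_cast
  ring

/-- The tangent step. -/
theorem Cl_step (hd : DenseRange (fun (a : ℚ) (v : V) => ((a : ℚ) : K v))) {t : ι → ι → ι → ℚ}
    (h : Sym t) {P Q : ∀ v, ι → K v} (hP : P ∈ Cl K t)
    (hQ : ∀ v, tau (tv K t v) (Q v) (Q v) (Q v) = 0)
    (hPQ : ∀ v, tau (tv K t v) (P v) (P v) (Q v) = 0)
    (hQP : ∀ v, tau (tv K t v) (Q v) (Q v) (P v) ≠ 0)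
    (hu : ∀ v, ∃ u, tau (tv K t v) (P v) (P v) u ≠ 0) : Q ∈ Cl K t := by
  classical
  choose u₀ hu₀ using hu
  -- a rational vector
  obtain ⟨u, hu⟩ : ∃ u : ι → ℚ, ∀ v, tau (tv K t v) (P v) (P v) (emb K u v) ≠ 0 := by
    have h1 : IsOpen {u : ∀ v, ι → K v | ∀ v, tau (tv K t v) (P v) (P v) (u v) ≠ 0} := by
      have h2 : {u : ∀ v, ι → K v | ∀ v, tau (tv K t v) (P v) (P v) (u v) ≠ 0} =
          ⋂ v, {u : ∀ v, ι → K v | tau (tv K t v) (P v) (P v) (u v) ≠ 0} := by
        ext u; simp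
      rw [h2]
      refine isOpen_iInter_of_finite fun v => ?_
      exact isOpen_ne_fun (cont_tau continuous_const continuous_const continuous_const
        (continuous_apply v)) continuous_const
    obtain ⟨y, hy, ⟨u, rfl⟩⟩ := (dense_emb (ι := ι) hd).inter_open_nonempty _ h1 ⟨u₀, hu₀⟩
    exact ⟨u, hy⟩
  -- the map
  obtain ⟨Y, hY⟩ : ∃ Y : (∀ v, ι → K v) × (∀ v, ι → K v) → ∀ v, ι → K v, Y = fun q v =>
    q.2 v - (tau (tv K t v) (q.1 v) (q.1 v) (q.2 v) /
      tau (tv K t v) (q.1 v) (q.1 v) (emb K u v)) • emb K u v := ⟨_, rfl⟩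
  obtain ⟨Φ, hΦ⟩ : ∃ Φ : (∀ v, ι → K v) × (∀ v, ι → K v) → ∀ v, ι → K v, Φ = fun q v =>
    tg (tv K t v) (q.1 v) (Y q v) := ⟨_, rfl⟩
  have c1 : ∀ v, Continuous fun q : (∀ v, ι → K v) × (∀ v, ι → K v) => q.1 v :=
    fun v => by fun_prop
  have c2 : ∀ v, Continuous fun q : (∀ v, ι → K v) × (∀ v, ι → K v) => q.2 v :=
    fun v => by fun_prop
  have hYc : ∀ v, Tendsto (fun q => Y q v) (𝓝 (P, Q)) (𝓝 (Y (P, Q) v)) := by
    intro v
    rw [hY]
    have g1 : ContinuousAt (fun q : (∀ v, ι → K v) × (∀ v, ι → K v) =>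
        tau (tv K t v) (q.1 v) (q.1 v) (q.2 v) /
      tau (tv K t v) (q.1 v) (q.1 v) (emb K u v)) (P, Q) :=
      ContinuousAt.div (cont_tau continuous_const (c1 v) (c1 v) (c2 v)).continuousAt
      (cont_tau continuous_const (c1 v) (c1 v) continuous_const).continuousAt (hu v)
    exact Tendsto.sub ((c2 v).tendsto _) (Tendsto.smul g1 tendsto_const_nhds)
  have hΦc : ContinuousAt Φ (P, Q) := by
    rw [continuousAt_pi]
    intro v
    have h4 : Continuous (fun q : (ι → K v) × (ι → K v) => tg (tv K t v) q.1 q.2) := by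
      unfold tg
      exact ((cont_tau continuous_const continuous_snd continuous_snd continuous_snd).smul
        continuous_fst).add ((continuous_const.mul (cont_tau continuous_const continuous_fst
          continuous_snd continuous_snd)).smul continuous_snd)
    have g2 : Tendsto (fun q : (∀ v, ι → K v) × (∀ v, ι → K v) => (q.1 v, Y q v)) (𝓝 (P, Q))
        (𝓝 (P v, Y (P, Q) v)) := Tendsto.prodMk_nhds ((c1 v).tendsto _) (hYc v)
    have g3 := (h4.tendsto (P v, Y (P, Q) v)).comp g2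
    rw [hΦ]
    exact g3
  -- the set
  set O : Set ((∀ v, ι → K v) × (∀ v, ι → K v)) :=
    {q | ∀ v, tau (tv K t v) (q.1 v) (q.1 v) (emb K u v) ≠ 0} with hO
  have hOo : IsOpen O := by
    have h2 : O = ⋂ v, {q | tau (tv K t v) (q.1 v) (q.1 v) (emb K u v) ≠ 0} := by
      ext u; simp [hO]
    rw [h2]
    refine isOpen_iInter_of_finite fun v => ?_
    exact isOpen_ne_fun (cont_tau continuous_const (c1 v) (c1 v) continuous_const) continuous_const
  have h5 : ((P, Q) : (∀ v, ι → K v) × (∀ v, ι → K v)) ∈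
      closure (O ∩ ((emb K '' {x | tau t x x x = 0}) ×ˢ Set.range (emb (ι := ι) K))) := by
    apply hOo.inter_closure
    refine ⟨hu, ?_⟩
    rw [closure_prod_eq]
    exact ⟨hP, dense_emb hd Q⟩
  have h6 := hΦc.continuousWithinAt.mem_closure_image h5
  have h7 : Φ '' (O ∩ ((emb K '' {x | tau t x x x = 0}) ×ˢ Set.range (emb (ι := ι) K))) ⊆
      emb K '' {x | tau t x x x = 0} := by
    rintro _ ⟨⟨_, _⟩, ⟨hO', ⟨x, hx, rfl⟩, ⟨z, rfl⟩⟩, rfl⟩
    have hx' : tau t x x x = 0 := hx
    by_cases hne : tau t x x u = 0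
    · -- then `V` is empty
      refine ⟨0, by show tau t 0 0 0 = 0; exact tau_zero1 _ _, ?_⟩
      funext v
      exfalso
      have h8 := hO' v
      simp only [tau_emb] at h8
      rw [hne, Rat.cast_zero] at h8
      exact h8 rfl
    · refine ⟨tg t x (z - (tau t x x z / tau t x x u) • u), ?_, ?_⟩
      · apply tg_mem h hx'
        rw [← tauL_apply, map_sub, map_smul, tauL_apply, tauL_apply, smul_eq_mul]
        field_simp
        ring
      · funext v
        rw [← tg_emb]
        simp only [hΦ, hY]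
        congr 1
        funext i
        simp only [tau_emb]
        simp only [emb, Pi.sub_apply, Pi.smul_apply, smul_eq_mul]
        push_cast
        ring
  have h8 : Φ (P, Q) ∈ Cl K t := closure_mono h7 h6
  have h9 : Φ (P, Q) = fun v => (-3 * tau (tv K t v) (P v) (Q v) (Q v)) • Q v := by
    funext v
    simp only [hΦ, hY]
    rw [hPQ v, zero_div, zero_smul, sub_zero]
    unfold tg
    rw [hQ v, zero_smul, zero_add]
  rw [h9] at h8
  have h10 := Cl_smul hd (fun v => (-3 * tau (tv K t v) (P v) (Q v) (Q v))⁻¹) h8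
  have h11 : (fun v => (-3 * tau (tv K t v) (P v) (Q v) (Q v))⁻¹ •
      (-3 * tau (tv K t v) (P v) (Q v) (Q v)) • Q v) = Q := by
    funext v
    have h12 : (-3 * tau (tv K t v) (P v) (Q v) (Q v)) ≠ 0 := by
      refine mul_ne_zero (neg_ne_zero.mpr (by exact_mod_cast (three_ne_zero (α := ℕ)))) ?_
      rw [tau_13 (emb_sym h v)]
      exact hQP v
    rw [smul_smul, inv_mul_cancel₀ h12, one_smul]
  rw [h11] at h10
  exact h10

end glob

end Pool.Agent.Run7.h443.WE
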