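import Pool.Agent.Run7.h443.WE.Loc1

/-!
# Nondegenerate points on smooth cubic hypersurfaces
-/

set_option autoImplicit false

namespace Pool.Agent.Run7.h443.WE

open Filter Topology

section lin
variable {ι : Type*} [Fintype ι] {K : Type*} [Field K] {t : ι → ι → ι → K}

/-- `τ(x, y, ·)` -/
def tauL (t : ι → ι → ι → K) (x y : ι → K) : (ι → K) →ₗ[K] K where
  toFun z := tau t x y z
  map_add' := tau_add3 x y
  map_smul' c z := by rw [tau_smul3]; rfl

theorem tauL_apply (x y z : ι → K) : tauL t x y z = tau t x y z := rfl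

/-- The quadratic form `τ(x, ·, ·)` is nondegenerate. -/
def Nd (t : ι → ι → ι → K) (x : ι → K) : Prop := ∀ v, (∀ z, tau t x v z = 0) → v = 0

/-- The hypersurface is smooth, also at certain points over quadratic extensions. -/
structure Sm (t : ι → ι → ι → K) : Prop where
  s1 : ∀ x, (∀ z, tau t x x z = 0) → x = 0
  s2 : ∀ x v c, (∀ z, tau t x v z = 0) → (∀ z, tau t v v z = c * tau t x x z) → x = 0 ∨ v = 0

theorem exists_zero {k : ℕ} (hk : k < Fintype.card ι) (f : Fin k → (ι → K) →ₗ[K] K) :
    ∃ v : ι → K, v ≠ 0 ∧ ∀ i, f i v = 0 := by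
  have h1 : LinearMap.ker (LinearMap.pi f) ≠ ⊥ := by
    apply LinearMap.ker_ne_bot_of_finrank_lt
    rw [Module.finrank_fintype_fun_eq_card, Module.finrank_fintype_fun_eq_card, Fintype.card_fin]
    exact hk
  obtain ⟨v, hv, hv0⟩ := (Submodule.ne_bot_iff _).mp h1
  refine ⟨v, hv0, fun i => ?_⟩
  rw [LinearMap.mem_ker] at hv
  exact congrFun hv i

theorem Sm.exists_ne (hS : Sm t) {x : ι → K} (hx : x ≠ 0) : ∃ e, tau t x x e ≠ 0 := by
  by_contra h
  push Not at h
  exact hx (hS.s1 x h)

omit [Fintype ι] in
/-- Two independent linear forms take arbitrary values. -/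
theorem two_forms (f g : (ι → K) →ₗ[K] K)
    (h : ∀ a b : K, (∀ z, a * f z + b * g z = 0) → a = 0 ∧ b = 0) (a b : K) :
    ∃ p, f p = a ∧ g p = b := by
  obtain ⟨z₁, hz₁⟩ : ∃ z, f z ≠ 0 := by
    by_contra hc
    push Not at hc
    exact one_ne_zero (h 1 0 (fun z => by rw [hc z]; ring)).1
  obtain ⟨z₂, hz₂⟩ : ∃ z, f z₁ * g z - g z₁ * f z ≠ 0 := by
    by_contra hc
    push Not at hc
    exact hz₁ (h (-(g z₁)) (f z₁) (fun z => by linear_combination hc z)).2
  refine ⟨((a * g z₂ - b * f z₂) / (f z₁ * g z₂ - g z₁ * f z₂)) • z₁ +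
    ((b * f z₁ - a * g z₁) / (f z₁ * g z₂ - g z₁ * f z₂)) • z₂, ?_, ?_⟩
  · rw [map_add, map_smul, map_smul, smul_eq_mul, smul_eq_mul, div_mul_eq_mul_div,
      div_mul_eq_mul_div, ← add_div, div_eq_iff hz₂]
    ring
  · rw [map_add, map_smul, map_smul, smul_eq_mul, smul_eq_mul, div_mul_eq_mul_div,
      div_mul_eq_mul_div, ← add_div, div_eq_iff hz₂]
    ring

/-- The Gram matrix. -/
def gram (t : ι → ι → ι → K) (x : ι → K) {n : Type*} (u : n → ι → K) : Matrix n n K :=
  fun i j => tau t x (u i) (u j)

theorem gram_combo {n : Type*} [Fintype n] [DecidableEq n] {x : ι → K} {u : n → ι → K}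
    (hdet : (gram t x u).det ≠ 0) (z : ι → K) :
    ∃ a : n → K, ∀ i, tau t x (u i) (z - ∑ j, a j • u j) = 0 := by
  have h1 : IsUnit (gram t x u).det := isUnit_iff_ne_zero.mpr hdet
  refine ⟨(gram t x u)⁻¹.mulVec (fun i => tau t x (u i) z), fun i => ?_⟩
  set a := (gram t x u)⁻¹.mulVec (fun i => tau t x (u i) z) with ha
  have h2 : (gram t x u).mulVec a = fun i => tau t x (u i) z := by
    rw [ha, Matrix.mulVec_mulVec, Matrix.mul_nonsing_inv _ h1, Matrix.one_mulVec]
  have h3 := congrFun h2 i
  have h4 : tauL t x (u i) (z - ∑ j, a j • u j) = tauL t x (u i) z -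
      ∑ j, a j * tau t x (u i) (u j) := by
    rw [map_sub, map_sum]
    congr 1
    refine Finset.sum_congr rfl fun j _ => ?_
    rw [map_smul, smul_eq_mul]
    rfl
  rw [← tauL_apply, h4, tauL_apply, ← h3]
  simp only [Matrix.mulVec, dotProduct, gram]
  rw [sub_eq_zero]
  refine Finset.sum_congr rfl fun j _ => ?_
  ring

theorem gram_full {x : ι → K} {u : Fin (Fintype.card ι) → ι → K}
    (hdet : (gram t x u).det ≠ 0) : Nd t x := by
  classical
  have h1 : IsUnit (gram t x u).det := isUnit_iff_ne_zero.mpr hdet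
  have hinj : ∀ a : Fin (Fintype.card ι) → K, (gram t x u).mulVec a = 0 → a = 0 := by
    intro a ha
    have h2 : (gram t x u)⁻¹.mulVec ((gram t x u).mulVec a) = 0 := by rw [ha, Matrix.mulVec_zero]
    rwa [Matrix.mulVec_mulVec, Matrix.nonsing_inv_mul _ h1, Matrix.one_mulVec] at h2
  have hinj' : ∀ a : Fin (Fintype.card ι) → K, Matrix.vecMul a (gram t x u) = 0 → a = 0 := by
    intro a ha
    have h2 : Matrix.vecMul (Matrix.vecMul a (gram t x u)) (gram t x u)⁻¹ = 0 := by
      rw [ha, Matrix.zero_vecMul]
    rwa [Matrix.vecMul_vecMul, Matrix.mul_nonsing_inv _ h1, Matrix.vecMul_one] at h2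
  have hli : LinearIndependent K u := by
    rw [Fintype.linearIndependent_iff]
    intro a ha
    have h3 := hinj a (by
      funext i
      have h4 : tauL t x (u i) (∑ j, a j • u j) = 0 := by rw [ha, map_zero]
      rw [map_sum] at h4
      simp only [Matrix.mulVec, dotProduct, gram, Pi.zero_apply]
      rw [← h4]
      refine Finset.sum_congr rfl fun j _ => ?_
      rw [map_smul, smul_eq_mul, tauL_apply, mul_comm])
    exact fun i => congrFun h3 i
  have hspan : ⊤ ≤ Submodule.span K (Set.range u) := by
    apply ge_of_eq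
    apply hli.span_eq_top_of_card_eq_finrank'
    rw [Fintype.card_fin, Module.finrank_fintype_fun_eq_card]
  intro v hv
  have hv' : v ∈ Submodule.span K (Set.range u) := hspan trivial
  rw [Submodule.mem_span_range_iff_exists_fun] at hv'
  obtain ⟨a, ha⟩ := hv'
  have h5 := hinj' a (by
    funext j
    have h6 := hv (u j)
    rw [← ha] at h6
    have h7 : ∀ s : Finset (Fin (Fintype.card ι)), tau t x (∑ i ∈ s, a i • u i) (u j) =
        ∑ i ∈ s, a i * tau t x (u i) (u j) := by
      intro s
      induction s using Finset.induction_on with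
      | empty =>
        rw [Finset.sum_empty, Finset.sum_empty]
        have := tau_smul2 (t := t) 0 x 0 (u j)
        simpa using this
      | insert i s hi ih => rw [Finset.sum_insert hi, Finset.sum_insert hi, tau_add2, tau_smul2, ih]
    rw [h7] at h6
    simp only [Matrix.vecMul, dotProduct, gram, Pi.zero_apply]
    exact h6)
  rw [← ha, h5]
  simp

theorem tau_sum1 {n : Type*} (s : Finset n) (x : n → ι → K) (y z : ι → K) :
    tau t (∑ i ∈ s, x i) y z = ∑ i ∈ s, tau t (x i) y z := by
  classical
  induction s using Finset.induction_on with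
  | empty => rw [Finset.sum_empty, Finset.sum_empty, tau_zero1]
  | insert i s hi ih => rw [Finset.sum_insert hi, Finset.sum_insert hi, tau_add1, ih]

end lin

section nd
variable {ι : Type*} [Fintype ι] {K : Type*} [NontriviallyNormedField K] [CompleteSpace K]
  {t : ι → ι → ι → K}

/-- One step: from a Gram determinant of size `k < card ι` which does not vanish at `x` to one of
size `k + 1` near `x`. -/
theorem gram_step (h : Sym t) (h2 : (2 : K) ≠ 0) (h3 : (3 : K) ≠ 0) (hS : Sm t) {x : ι → K}
    (hx0 : x ≠ 0) (hx : tau t x x x = 0) {V : Set (ι → K)} (hV : V ∈ 𝓝 x) {k : ℕ}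
    (hk : k < Fintype.card ι) {u : Fin k → ι → K} (hu : (gram t x u).det ≠ 0) :
    ∃ x' ∈ V, tau t x' x' x' = 0 ∧ ∃ u' : Fin (k + 1) → ι → K, (gram t x' u').det ≠ 0 := by
  classical
  by_contra hcon
  push Not at hcon
  -- the Gram determinants of size `k + 1` vanish
  have hsum : ∀ x' ∈ V, tau t x' x' x' = 0 → ∀ v : ι → K,
      (gram t x' (Sum.elim u (fun _ : Unit => v))).det = 0 := by
    intro x' hx' hx'' v
    have h1 := hcon x' hx' hx'' ((Sum.elim u (fun _ : Unit => v)) ∘
      (finSumFinEquiv.symm : Fin (k + 1) ≃ Fin k ⊕ Fin 1).trans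
        (Equiv.sumCongr (Equiv.refl _) (Equiv.equivPUnit (Fin 1))))
    rw [← h1]
    rw [← Matrix.det_submatrix_equiv_self ((finSumFinEquiv.symm : Fin (k + 1) ≃ Fin k ⊕ Fin 1).trans
        (Equiv.sumCongr (Equiv.refl _) (Equiv.equivPUnit (Fin 1))))]
    rfl
  have hfb : ∀ (x' : ι → K) (v : ι → K), gram t x' (Sum.elim u (fun _ : Unit => v)) =
      Matrix.fromBlocks (gram t x' u) (fun i _ => tau t x' (u i) v) (fun _ j => tau t x' v (u j))
        (fun _ _ => tau t x' v v) := by
    intro x' v
    ext i j
    rcases i with i | i <;> rcases j with j | j <;> rfl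
  -- the kernel vector
  obtain ⟨v, hv0, hv⟩ := exists_zero hk (fun i => tauL t x (u i))
  simp only [tauL_apply] at hv
  have hW : ∀ v' : ι → K, (∀ i, tau t x (u i) v' = 0) → tau t x v' v' = 0 := by
    intro v' hv'
    have h1 := hsum x (mem_of_mem_nhds hV) hx v'
    rw [hfb] at h1
    have h4 : (fun (i : Fin k) (_ : Unit) => tau t x (u i) v') = (0 : Matrix (Fin k) Unit K) := by
      ext i j
      exact hv' i
    rw [h4, Matrix.det_fromBlocks_zero₁₂] at h1
    rcases mul_eq_zero.mp h1 with h5 | h5
    · exact absurd h5 hu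
    · rwa [Matrix.det_unique] at h5
  have hker : ∀ z, tau t x v z = 0 := by
    intro z
    obtain ⟨a, ha⟩ := gram_combo hu z
    obtain ⟨z', hz'⟩ : ∃ z', z' = z - ∑ j, a j • u j := ⟨_, rfl⟩
    rw [← hz'] at ha
    have h1 := hW (v + z') (fun i => by rw [tau_add3, hv i, ha i, add_zero])
    rw [tau_add2, tau_add3, tau_add3, hW v hv, hW z' ha, tau_23 h x z' v] at h1
    have h4 : tau t x v z' = 0 := by
      have : 2 * tau t x v z' = 0 := by linear_combination h1
      exact (mul_eq_zero.mp this).resolve_left h2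
    have h5 : z = z' + ∑ j, a j • u j := by rw [hz']; abel
    rw [h5, tau_add3, h4, zero_add, ← tauL_apply, map_sum]
    refine Finset.sum_eq_zero fun j _ => ?_
    rw [map_smul, tauL_apply, tau_23 h, hv j, smul_zero]
  obtain ⟨e, he⟩ := hS.exists_ne hx0
  have hder : ∀ r, tau t x x r = 0 → tau t r v v = 0 := by
    intro r hr
    set Ξ : K × K → K := fun q => (Matrix.fromBlocks (gram t (x + q.1 • (r + q.2 • e)) u)
      (fun i (_ : Unit) => q.1 * tau t (r + q.2 • e) (u i) v)
      (fun (_ : Unit) j => tau t (r + q.2 • e) v (u j))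
      (fun (_ _ : Unit) => tau t (r + q.2 • e) v v)).det with hΞ
    have hcont : Continuous Ξ := by
      rw [hΞ]
      apply Continuous.matrix_det
      apply Continuous.matrix_fromBlocks
      · refine continuous_pi fun i => continuous_pi fun j => ?_
        exact cont_tau continuous_const (by fun_prop) continuous_const continuous_const
      · refine continuous_pi fun i => continuous_pi fun j => ?_
        exact continuous_fst.mul (cont_tau continuous_const (by fun_prop) continuous_const
          continuous_const)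
      · refine continuous_pi fun i => continuous_pi fun j => ?_
        exact cont_tau continuous_const (by fun_prop) continuous_const continuous_const
      · refine continuous_pi fun i => continuous_pi fun j => ?_
        exact cont_tau continuous_const (by fun_prop) continuous_const continuous_const
    have h0 := curve_limit h h3 hx hr he hcont.continuousAt (Ξ := Ξ) (by
      have hc : Continuous (fun q : K × K => x + q.1 • (r + q.2 • e)) := by fun_prop
      have hV' : ∀ᶠ q : K × K in 𝓝 (0, 0), x + q.1 • (r + q.2 • e) ∈ V := by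
        apply hc.tendsto (0, 0)
        simpa using hV
      filter_upwards [hV'] with q hq hq0 hqx
      have h4 := hsum _ hq hqx v
      rw [hfb] at h4
      have h5 : Matrix.fromBlocks (gram t (x + q.1 • (r + q.2 • e)) u)
          (fun i (_ : Unit) => tau t (x + q.1 • (r + q.2 • e)) (u i) v)
          (fun (_ : Unit) j => tau t (x + q.1 • (r + q.2 • e)) v (u j))
          (fun (_ _ : Unit) => tau t (x + q.1 • (r + q.2 • e)) v v) =
          (Matrix.fromBlocks (1 : Matrix (Fin k) (Fin k) K) 0 0 (q.1 • (1 : Matrix Unit Unit K))) *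
          Matrix.fromBlocks (gram t (x + q.1 • (r + q.2 • e)) u)
          (fun i (_ : Unit) => q.1 * tau t (r + q.2 • e) (u i) v)
          (fun (_ : Unit) j => tau t (r + q.2 • e) v (u j))
          (fun (_ _ : Unit) => tau t (r + q.2 • e) v v) := by
        rw [Matrix.fromBlocks_multiply]
        congr 1
        · simp
        · ext i j
          simp only [Matrix.one_mul, Matrix.zero_mul, add_zero]
          rw [tau_add1, tau_smul1, hv i, zero_add]
        · ext i j
          simp only [Matrix.zero_mul, Matrix.smul_mul, Matrix.one_mul, zero_add,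
            Matrix.smul_apply, smul_eq_mul]
          rw [tau_add1, tau_smul1, tau_23 h x v, hv j, zero_add]
        · ext i j
          simp only [Matrix.zero_mul, Matrix.smul_mul, Matrix.one_mul, zero_add,
            Matrix.smul_apply, smul_eq_mul]
          rw [tau_add1, tau_smul1, hker v, zero_add]
      rw [h5, Matrix.det_mul, Matrix.det_fromBlocks_zero₂₁, Matrix.det_one, one_mul] at h4
      rcases mul_eq_zero.mp h4 with h6 | h6
      · exfalso
        rw [Matrix.det_unique] at h6
        simp at h6
        exact hq0 h6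
      · exact h6)
    have h7 : Ξ (0, 0) = (gram t x u).det * tau t r v v := by
      rw [hΞ]
      have h8 : (fun (i : Fin k) (_ : Unit) => ((0 : K), (0 : K)).1 *
          tau t (r + ((0 : K), (0 : K)).2 • e) (u i) v) = (0 : Matrix (Fin k) Unit K) := by
        ext i j
        simp
      dsimp only
      dsimp only at h8
      rw [h8, Matrix.det_fromBlocks_zero₁₂]
      congr 1
      · simp
      · rw [Matrix.det_unique]
        simp
    rw [h7] at h0
    exact (mul_eq_zero.mp h0).resolve_left hu
  -- proportionality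
  rcases hS.s2 x v (tau t v v e / tau t x x e) hker (fun z => by
    have h4 := hder (z - (tau t x x z / tau t x x e) • e) (by
      rw [← tauL_apply, map_sub, map_smul, tauL_apply, tauL_apply, smul_eq_mul]
      field_simp
      ring)
    rw [tau_rot h, ← tauL_apply, map_sub, map_smul, tauL_apply, tauL_apply, smul_eq_mul] at h4
    rw [sub_eq_zero] at h4
    rw [h4]
    field_simp) with h5 | h5
  · exact hx0 h5
  · exact hv0 h5

/-- Nondegenerate points are dense in the smooth cubic hypersurfaces. -/
theorem hess (h : Sym t) (h2 : (2 : K) ≠ 0) (h3 : (3 : K) ≠ 0) (hS : Sm t) {x : ι → K}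
    (hx0 : x ≠ 0) (hx : tau t x x x = 0) {V : Set (ι → K)} (hV : V ∈ 𝓝 x) :
    ∃ x' ∈ V, x' ≠ 0 ∧ tau t x' x' x' = 0 ∧ Nd t x' := by
  classical
  obtain ⟨W, hWV, hWo, hxW⟩ := mem_nhds_iff.mp (Filter.inter_mem hV (isOpen_ne.mem_nhds hx0))
  have key : ∀ k ≤ Fintype.card ι, ∃ x' ∈ W, tau t x' x' x' = 0 ∧
      ∃ u : Fin k → ι → K, (gram t x' u).det ≠ 0 := by
    intro k
    induction k with
    | zero =>
      intro _
      exact ⟨x, hxW, hx, fun i => i.elim0, by simp⟩
    | succ k ih =>
      intro hk
      obtain ⟨y, hyW, hy, u, hu⟩ := ih (by omega)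
      exact gram_step h h2 h3 hS (hWV hyW).2 hy (hWo.mem_nhds hyW) (by omega) hu
  obtain ⟨y, hyW, hy, u, hu⟩ := key _ le_rfl
  exact ⟨y, (hWV hyW).1, (hWV hyW).2, hy, gram_full hu⟩

end nd

end Pool.Agent.Run7.h443.WE
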