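import Mathlib

/-!
# Counting the small values of a polynomial at scaled integral points
-/

set_option autoImplicit false

namespace Pool.Agent.Run7.h443.WE

section uni
variable {K : Type*} [NormedField K]

open Polynomial in
/-- Small values of a polynomial in one variable. -/
theorem cover (d : ℕ) : ∀ (g : K[X]) (a : K) (η ρ : ℝ), 0 < ρ → g.natDegree ≤ d →
    g.coeff d = a → η * (2 / ρ) ^ d < ‖a‖ →
    ∃ S : Finset K, S.card ≤ d ∧ ∀ x : K, ‖g.eval x‖ ≤ η → ∃ y ∈ S, ‖x - y‖ ≤ ρ := by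
  classical
  induction d with
  | zero =>
    intro g a η ρ hρ hg ha h
    refine ⟨∅, le_rfl, fun x hx => ?_⟩
    exfalso
    rw [eq_C_of_natDegree_le_zero hg, eval_C, ha] at hx
    rw [pow_zero, mul_one] at h
    linarith
  | succ d ih =>
    intro g a η ρ hρ hg ha h
    by_cases hne : ∃ x₀ : K, ‖g.eval x₀‖ ≤ η
    · obtain ⟨x₀, hx₀⟩ := hne
      obtain ⟨g₁, hg₁⟩ : ∃ g₁, g₁ = g /ₘ (X - C x₀) := ⟨_, rfl⟩
      have h1 : C (g.eval x₀) + (X - C x₀) * g₁ = g := by
        have := modByMonic_add_div g (X - C x₀)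
        rw [modByMonic_X_sub_C_eq_C_eval] at this
        rw [hg₁]
        exact this
      have h2 : g₁.natDegree ≤ d := by
        rw [hg₁, natDegree_divByMonic _ (monic_X_sub_C x₀), natDegree_X_sub_C]
        omega
      have h3 : g₁.coeff d = a := by
        rw [← ha, ← h1, coeff_add, coeff_C_succ, zero_add, sub_mul, coeff_sub, coeff_X_mul,
          coeff_C_mul, coeff_eq_zero_of_natDegree_lt (lt_of_le_of_lt h2 (Nat.lt_succ_self d)),
          mul_zero, sub_zero]
      obtain ⟨S, hS1, hS2⟩ := ih g₁ a (η * (2 / ρ)) ρ hρ h2 h3 (by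
        rw [mul_assoc, ← pow_succ']
        exact h)
      refine ⟨insert x₀ S, (Finset.card_insert_le _ _).trans (by omega), ?_⟩
      intro x hx
      by_cases hx1 : ‖x - x₀‖ ≤ ρ
      · exact ⟨x₀, Finset.mem_insert_self _ _, hx1⟩
      push Not at hx1
      obtain ⟨y, hy, hy2⟩ := hS2 x (by
        have h4 : (x - x₀) * g₁.eval x = g.eval x - g.eval x₀ := by
          have := congrArg (eval x) h1
          simp only [eval_add, eval_C, eval_mul, eval_sub, eval_X] at this
          linear_combination this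
        have h5 : ‖x - x₀‖ * ‖g₁.eval x‖ ≤ 2 * η := by
          rw [← norm_mul, h4]
          refine (norm_sub_le _ _).trans ?_
          linarith
        have h6 : ρ * ‖g₁.eval x‖ ≤ 2 * η :=
          (mul_le_mul_of_nonneg_right hx1.le (norm_nonneg _)).trans h5
        rw [mul_div_assoc', le_div_iff₀ hρ]
        linarith)
      exact ⟨y, Finset.mem_insert_of_mem hy, hy2⟩
    · push Not at hne
      exact ⟨∅, by simp, fun x hx => absurd hx (not_le.mpr (hne x))⟩

/-- The spread of the scaled integers. -/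
def Spread (l : ℕ → K) : Prop := ∀ ε : ℝ, 0 < ε → ∃ ρ : ℝ, 0 < ρ ∧ ∃ H₀ : ℕ, ∀ H, H₀ ≤ H →
  ∀ x₀ : K, (((Finset.Icc (-(H : ℤ)) H).filter (fun c : ℤ => ‖l H * (c : K) - x₀‖ ≤ ρ)).card : ℝ) ≤
    ε * ((2 * H + 1 : ℕ) : ℝ)

theorem card_box (H : ℕ) : (Finset.Icc (-(H : ℤ)) H).card = 2 * H + 1 := by
  rw [Int.card_Icc]
  omega

/-- Small values of a polynomial in several variables. -/
theorem small_fin {l : ℕ → K} (hl : Spread l) (n : ℕ) : ∀ (D : MvPolynomial (Fin n) K), D ≠ 0 →
    ∀ ε : ℝ, 0 < ε → ∃ η : ℝ, 0 < η ∧ ∃ H₀ : ℕ, ∀ H, H₀ ≤ H →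
    (((Fintype.piFinset (fun _ : Fin n => Finset.Icc (-(H : ℤ)) H)).filter
      (fun c => ‖MvPolynomial.eval (fun i => l H * (c i : K)) D‖ ≤ η)).card : ℝ) ≤
      ε * ((2 * H + 1 : ℕ) : ℝ) ^ n := by
  classical
  induction n with
  | zero =>
    intro D hD ε hε
    obtain ⟨a, ha⟩ : ∃ a, D = MvPolynomial.C a := ⟨_, MvPolynomial.eq_C_of_isEmpty D⟩
    have ha0 : a ≠ 0 := by
      rintro rfl
      exact hD (by rw [ha, map_zero])
    have ha1 : 0 < ‖a‖ := norm_pos_iff.mpr ha0
    refine ⟨‖a‖ / 2, half_pos ha1, 0, fun H _ => ?_⟩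
    rw [Finset.filter_false_of_mem, Finset.card_empty, Nat.cast_zero]
    · positivity
    · intro c _
      rw [ha, MvPolynomial.eval_C]
      linarith
  | succ n ih =>
    intro D hD ε hε
    obtain ⟨P, hP⟩ : ∃ P, P = MvPolynomial.finSuccEquiv K n D := ⟨_, rfl⟩
    have hP0 : P ≠ 0 := by
      rw [hP]
      exact (map_ne_zero_iff _ (MvPolynomial.finSuccEquiv K n).injective).mpr hD
    obtain ⟨d, hd⟩ : ∃ d, d = P.natDegree := ⟨_, rfl⟩
    have hL0 : P.coeff d ≠ 0 := by
      rw [hd]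
      exact Polynomial.leadingCoeff_ne_zero.mpr hP0
    obtain ⟨η₁, hη₁, H₁, hH₁⟩ := ih (P.coeff d) hL0 (ε / 2) (half_pos hε)
    obtain ⟨ρ, hρ, H₂, hH₂⟩ := hl (ε / (2 * (d + 1))) (by positivity)
    refine ⟨η₁ / (2 * (2 / ρ) ^ d), by positivity, max H₁ H₂, fun H hH => ?_⟩
    have hHH₁ := hH₁ H ((le_max_left _ _).trans hH)
    have hHH₂ := hH₂ H ((le_max_right _ _).trans hH)
    obtain ⟨η, hη⟩ : ∃ η, η = η₁ / (2 * (2 / ρ) ^ d) := ⟨_, rfl⟩
    have hη2 : η * (2 / ρ) ^ d < η₁ := by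
      have : η * (2 / ρ) ^ d = η₁ / 2 := by
        rw [hη]
        field_simp
      linarith
    rw [← hη]
    obtain ⟨B, hB⟩ : ∃ B : (Fin n → ℤ) → Finset ℤ, B = fun c' =>
      (Finset.Icc (-(H : ℤ)) H).filter (fun c₀ : ℤ =>
        ‖(P.map (MvPolynomial.eval (fun i => l H * (c' i : K)))).eval (l H * (c₀ : K))‖ ≤ η) :=
      ⟨_, rfl⟩
    have h1 : ((Fintype.piFinset (fun _ : Fin (n + 1) => Finset.Icc (-(H : ℤ)) H)).filter
        (fun c => ‖MvPolynomial.eval (fun i => l H * (c i : K)) D‖ ≤ η)).card ≤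
        ∑ c' ∈ Fintype.piFinset (fun _ : Fin n => Finset.Icc (-(H : ℤ)) H), (B c').card := by
      rw [← Finset.card_sigma]
      apply Finset.card_le_card_of_injOn
        (fun c => (⟨Fin.tail c, c 0⟩ : (_ : Fin n → ℤ) × ℤ))
      · intro c hc
        rw [Finset.mem_coe, Finset.mem_filter, Fintype.mem_piFinset] at hc
        rw [Finset.mem_coe, Finset.mem_sigma, Fintype.mem_piFinset]
        refine ⟨fun i => hc.1 i.succ, ?_⟩
        rw [hB]
        refine Finset.mem_filter.mpr ⟨hc.1 0, ?_⟩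
        have h2 := hc.2
        have h3 : (fun i => l H * (c i : K)) = Fin.cons (l H * (c 0 : K))
            (fun i => l H * ((Fin.tail c i : ℤ) : K)) := by
          funext i
          refine Fin.cases ?_ (fun i => ?_) i
          · rw [Fin.cons_zero]
          · rw [Fin.cons_succ]
            rfl
        rw [h3, MvPolynomial.eval_eq_eval_mv_eval', ← hP] at h2
        exact h2
      · intro c _ c' _ hcc
        simp only [Sigma.mk.injEq] at hcc
        obtain ⟨g1, g2⟩ := hcc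
        have g2' : c 0 = c' 0 := eq_of_heq g2
        rw [← Fin.cons_self_tail c, ← Fin.cons_self_tail c', g1, g2']
    have h2 : ∀ c' ∈ Fintype.piFinset (fun _ : Fin n => Finset.Icc (-(H : ℤ)) H),
        ((B c').card : ℝ) ≤ (if ‖MvPolynomial.eval (fun i => l H * (c' i : K)) (P.coeff d)‖ ≤ η₁
          then ((2 * H + 1 : ℕ) : ℝ) else 0) + ε / 2 * ((2 * H + 1 : ℕ) : ℝ) := by
      intro c' _
      have h3 : (0 : ℝ) ≤ ε / 2 * ((2 * H + 1 : ℕ) : ℝ) := by positivity
      split_ifs with hc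
      · have h4 : (B c').card ≤ 2 * H + 1 := by
          rw [hB, ← card_box H]
          exact Finset.card_filter_le _ _
        have h5 : ((B c').card : ℝ) ≤ ((2 * H + 1 : ℕ) : ℝ) := by exact_mod_cast h4
        linarith
      · push Not at hc
        rw [zero_add]
        obtain ⟨S, hS1, hS2⟩ := cover d (P.map (MvPolynomial.eval (fun i => l H * (c' i : K))))
          (MvPolynomial.eval (fun i => l H * (c' i : K)) (P.coeff d)) η ρ hρ
          (Polynomial.natDegree_map_le.trans hd.ge) (by rw [Polynomial.coeff_map]) (hη2.trans hc)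
        have h6 : B c' ⊆ S.biUnion (fun y => (Finset.Icc (-(H : ℤ)) H).filter
            (fun c : ℤ => ‖l H * (c : K) - y‖ ≤ ρ)) := by
          intro c₀ hc₀
          rw [hB] at hc₀
          have hc₀' := Finset.mem_filter.mp hc₀
          obtain ⟨y, hy, hy2⟩ := hS2 _ hc₀'.2
          rw [Finset.mem_biUnion]
          exact ⟨y, hy, Finset.mem_filter.mpr ⟨hc₀'.1, hy2⟩⟩
        have h7 := (Finset.card_le_card h6).trans Finset.card_biUnion_le
        have h8 : ((B c').card : ℝ) ≤ ∑ y ∈ S, (((Finset.Icc (-(H : ℤ)) H).filter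
            (fun c : ℤ => ‖l H * (c : K) - y‖ ≤ ρ)).card : ℝ) := by exact_mod_cast h7
        refine h8.trans ?_
        calc _ ≤ S.card • (ε / (2 * (d + 1)) * ((2 * H + 1 : ℕ) : ℝ)) :=
              Finset.sum_le_card_nsmul _ _ _ (fun y _ => hHH₂ y)
          _ ≤ (d + 1 : ℝ) * (ε / (2 * (d + 1)) * ((2 * H + 1 : ℕ) : ℝ)) := by
              rw [nsmul_eq_mul]
              apply mul_le_mul_of_nonneg_right _ (by positivity)
              have : (S.card : ℝ) ≤ d := by exact_mod_cast hS1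
              linarith
          _ = _ := by
              have : (d + 1 : ℝ) ≠ 0 := by positivity
              field_simp
    have h3 : (((Fintype.piFinset (fun _ : Fin (n + 1) => Finset.Icc (-(H : ℤ)) H)).filter
        (fun c => ‖MvPolynomial.eval (fun i => l H * (c i : K)) D‖ ≤ η)).card : ℝ) ≤
        ∑ c' ∈ Fintype.piFinset (fun _ : Fin n => Finset.Icc (-(H : ℤ)) H),
        ((if ‖MvPolynomial.eval (fun i => l H * (c' i : K)) (P.coeff d)‖ ≤ η₁
          then ((2 * H + 1 : ℕ) : ℝ) else 0) + ε / 2 * ((2 * H + 1 : ℕ) : ℝ)) := by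
      refine le_trans ?_ (Finset.sum_le_sum h2)
      exact_mod_cast h1
    refine h3.trans ?_
    rw [Finset.sum_add_distrib, ← Finset.sum_filter, Finset.sum_const, Finset.sum_const,
      nsmul_eq_mul, nsmul_eq_mul, Fintype.card_piFinset]
    simp only [card_box, Finset.prod_const, Finset.card_univ, Fintype.card_fin]
    have h4 := mul_le_mul_of_nonneg_right hHH₁ (by positivity : (0 : ℝ) ≤ ((2 * H + 1 : ℕ) : ℝ))
    refine (add_le_add_left h4 _).trans ?_
    push_cast
    rw [pow_succ]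
    apply le_of_eq
    ring

/-- The same for an arbitrary set of variables. -/
theorem small_gen {l : ℕ → K} (hl : Spread l) {σ : Type*} [Fintype σ] [DecidableEq σ]
    (D : MvPolynomial σ K) (hD : D ≠ 0) :
    ∀ ε : ℝ, 0 < ε → ∃ η : ℝ, 0 < η ∧ ∃ H₀ : ℕ, ∀ H, H₀ ≤ H →
    (((Fintype.piFinset (fun _ : σ => Finset.Icc (-(H : ℤ)) H)).filter
      (fun c => ‖MvPolynomial.eval (fun i => l H * (c i : K)) D‖ ≤ η)).card : ℝ) ≤
      ε * ((2 * H + 1 : ℕ) : ℝ) ^ Fintype.card σ := by
  classical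
  intro ε hε
  obtain ⟨e⟩ : Nonempty (σ ≃ Fin (Fintype.card σ)) := ⟨Fintype.equivFin σ⟩
  have hD' : MvPolynomial.rename e D ≠ 0 :=
    (map_ne_zero_iff _ (MvPolynomial.rename_injective e e.injective)).mpr hD
  obtain ⟨η, hη, H₀, hH₀⟩ := small_fin hl _ _ hD' ε hε
  refine ⟨η, hη, H₀, fun H hH => le_trans ?_ (hH₀ H hH)⟩
  rw [Nat.cast_le]
  apply Finset.card_le_card_of_injOn (fun c i => c (e.symm i))
  · intro c hc
    rw [Finset.mem_coe, Finset.mem_filter, Fintype.mem_piFinset] at hc ⊢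
    refine ⟨fun i => hc.1 _, ?_⟩
    rw [MvPolynomial.eval_rename]
    have : (fun i => l H * ((c (e.symm i) : ℤ) : K)) ∘ e = fun i => l H * (c i : K) := by
      funext i
      simp
    rw [this]
    exact hc.2
  · intro c _ c' _ hcc
    funext i
    have := congrFun hcc (e i)
    simpa using this

end uni

end Pool.Agent.Run7.h443.WE
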