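import Mathlib

/-!
# Symmetric trilinear forms and cubic hypersurfaces: algebra
-/

set_option autoImplicit false

namespace Pool.Agent.Run7.h443.WE

section
variable {ι : Type*} [Fintype ι] {K : Type*} [Field K]

/-- The trilinear form with the coefficients `t`. -/
def tau (t : ι → ι → ι → K) (x y z : ι → K) : K := ∑ i, ∑ j, ∑ k, t i j k * x i * y j * z k

/-- The coefficients are symmetric. -/
def Sym (t : ι → ι → ι → K) : Prop := ∀ i j k, t i j k = t j i k ∧ t i j k = t i k j

variable {t : ι → ι → ι → K}

theorem tau_add1 (x x' y z : ι → K) : tau t (x + x') y z = tau t x y z + tau t x' y z := by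
  simp only [tau, Pi.add_apply, mul_add, add_mul, Finset.sum_add_distrib]

theorem tau_add2 (x y y' z : ι → K) : tau t x (y + y') z = tau t x y z + tau t x y' z := by
  simp only [tau, Pi.add_apply, mul_add, add_mul, Finset.sum_add_distrib]

theorem tau_add3 (x y z z' : ι → K) : tau t x y (z + z') = tau t x y z + tau t x y z' := by
  simp only [tau, Pi.add_apply, mul_add, Finset.sum_add_distrib]

theorem tau_smul1 (c : K) (x y z : ι → K) : tau t (c • x) y z = c * tau t x y z := by
  simp only [tau, Pi.smul_apply, smul_eq_mul, Finset.mul_sum]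
  refine Finset.sum_congr rfl fun i _ => Finset.sum_congr rfl fun j _ =>
    Finset.sum_congr rfl fun k _ => ?_
  ring

theorem tau_smul2 (c : K) (x y z : ι → K) : tau t x (c • y) z = c * tau t x y z := by
  simp only [tau, Pi.smul_apply, smul_eq_mul, Finset.mul_sum]
  refine Finset.sum_congr rfl fun i _ => Finset.sum_congr rfl fun j _ =>
    Finset.sum_congr rfl fun k _ => ?_
  ring

theorem tau_smul3 (c : K) (x y z : ι → K) : tau t x y (c • z) = c * tau t x y z := by
  simp only [tau, Pi.smul_apply, smul_eq_mul, Finset.mul_sum]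
  refine Finset.sum_congr rfl fun i _ => Finset.sum_congr rfl fun j _ =>
    Finset.sum_congr rfl fun k _ => ?_
  ring

theorem tau_zero1 (y z : ι → K) : tau t 0 y z = 0 := by
  have := tau_smul1 (t := t) 0 0 y z
  simpa using this

theorem tau_zero3 (x y : ι → K) : tau t x y 0 = 0 := by
  have := tau_smul3 (t := t) 0 x y 0
  simpa using this

theorem tau_sc (c : K) (t : ι → ι → ι → K) (x y z : ι → K) :
    tau (fun i j k => c * t i j k) x y z = c * tau t x y z := by
  simp only [tau, Finset.mul_sum]
  refine Finset.sum_congr rfl fun i _ => Finset.sum_congr rfl fun j _ =>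
    Finset.sum_congr rfl fun k _ => ?_
  ring

theorem tau_12 (h : Sym t) (x y z : ι → K) : tau t x y z = tau t y x z := by
  unfold tau
  rw [Finset.sum_comm]
  refine Finset.sum_congr rfl fun i _ => Finset.sum_congr rfl fun j _ =>
    Finset.sum_congr rfl fun k _ => ?_
  rw [(h i j k).1]
  ring

theorem tau_23 (h : Sym t) (x y z : ι → K) : tau t x y z = tau t x z y := by
  unfold tau
  refine Finset.sum_congr rfl fun i _ => ?_
  rw [Finset.sum_comm]
  refine Finset.sum_congr rfl fun j _ => Finset.sum_congr rfl fun k _ => ?_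
  rw [(h i j k).2]
  ring

theorem tau_13 (h : Sym t) (x y z : ι → K) : tau t x y z = tau t z y x := by
  rw [tau_12 h, tau_23 h, tau_12 h]

theorem tau_rot (h : Sym t) (x y z : ι → K) : tau t x y z = tau t y z x := by
  rw [tau_12 h, tau_23 h]

/-- expansion of the cubic form -/
theorem cub_add (h : Sym t) (x y : ι → K) : tau t (x + y) (x + y) (x + y) =
    tau t x x x + 3 * tau t x x y + 3 * tau t x y y + tau t y y y := by
  simp only [tau_add1, tau_add2, tau_add3]
  rw [tau_23 h x y x, tau_12 h y x x, tau_23 h x y x, tau_12 h y x y, tau_13 h y y x]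
  ring

theorem cub_comb (h : Sym t) (a b : K) (x y : ι → K) :
    tau t (a • x + b • y) (a • x + b • y) (a • x + b • y) =
    a ^ 3 * tau t x x x + 3 * a ^ 2 * b * tau t x x y + 3 * a * b ^ 2 * tau t x y y +
      b ^ 3 * tau t y y y := by
  rw [cub_add h]
  simp only [tau_smul1, tau_smul2, tau_smul3]
  ring

/-- `τ(x + y, x + y, z)` -/
theorem sq_add (h : Sym t) (x y z : ι → K) : tau t (x + y) (x + y) z =
    tau t x x z + 2 * tau t x y z + tau t y y z := by
  simp only [tau_add1, tau_add2]
  rw [tau_12 h y x z]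
  ring

theorem sq_comb (h : Sym t) (a b : K) (x y z : ι → K) :
    tau t (a • x + b • y) (a • x + b • y) z =
    a ^ 2 * tau t x x z + 2 * a * b * tau t x y z + b ^ 2 * tau t y y z := by
  rw [sq_add h]
  simp only [tau_smul1, tau_smul2]
  ring

/-- The point in which a tangent line meets the hypersurface again. -/
def tg (t : ι → ι → ι → K) (P y : ι → K) : ι → K :=
  (tau t y y y) • P + (-3 * tau t P y y) • y

/-- The third point on the line through two points. -/
def sec (t : ι → ι → ι → K) (T R : ι → K) : ι → K :=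
  (tau t T R R) • T + (-(tau t T T R)) • R

theorem tg_mem (h : Sym t) {P y : ι → K} (hP : tau t P P P = 0) (hy : tau t P P y = 0) :
    tau t (tg t P y) (tg t P y) (tg t P y) = 0 := by
  unfold tg
  rw [cub_comb h, hP, hy]
  ring

theorem sec_mem (h : Sym t) {T R : ι → K} (hT : tau t T T T = 0) (hR : tau t R R R = 0) :
    tau t (sec t T R) (sec t T R) (sec t T R) = 0 := by
  unfold sec
  rw [cub_comb h, hT, hR]
  ring

theorem tg_tangent {P y : ι → K} (hP : tau t P P P = 0) (hy : tau t P P y = 0) :
    tau t P P (tg t P y) = 0 := by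
  unfold tg
  rw [tau_add3, tau_smul3, tau_smul3, hP, hy]
  ring

theorem tg_back (h : Sym t) {P y : ι → K} (hP : tau t P P P = 0) (hy : tau t P P y = 0) :
    tau t (tg t P y) (tg t P y) P = 9 * tau t P y y ^ 3 := by
  unfold tg
  rw [sq_comb h, hP, tau_23 h P y P, hy, tau_13 h y y P]
  ring

/-- `sec T (sec T R) = - τ(T, T, R) ^ 3 R` -/
theorem sec_sec (h : Sym t) {T R : ι → K} (hT : tau t T T T = 0) :
    sec t T (sec t T R) = (-(tau t T T R) ^ 3) • R := by
  have h1 : tau t T T (sec t T R) = -(tau t T T R) ^ 2 := by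
    unfold sec
    rw [tau_add3, tau_smul3, tau_smul3, hT]
    ring
  have h2 : tau t T (sec t T R) (sec t T R) = -(tau t T T R) ^ 2 * tau t T R R := by
    rw [tau_rot h]
    unfold sec
    rw [sq_comb h, hT, tau_23 h T R T, tau_13 h R R T]
    ring
  have h3 : sec t T (sec t T R) = (tau t T (sec t T R) (sec t T R)) • T +
      (-(tau t T T (sec t T R))) • (sec t T R) := rfl
  rw [h3, h1, h2]
  unfold sec
  funext i
  simp only [Pi.add_apply, Pi.smul_apply, smul_eq_mul]
  ring

theorem sec_smul2 (c : K) (T R : ι → K) : sec t T (c • R) = (c ^ 2) • sec t T R := by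
  unfold sec
  simp only [tau_smul2, tau_smul3]
  funext i
  simp only [Pi.add_apply, Pi.smul_apply, smul_eq_mul]
  ring

theorem sec_swap (h : Sym t) (T R : ι → K) : sec t T R = (-1 : K) • sec t R T := by
  unfold sec
  rw [tau_13 h R T T, tau_13 h R R T]
  funext i
  simp only [Pi.add_apply, Pi.smul_apply, smul_eq_mul]
  ring

/-- `sec R (sec T R) = - τ(T, R, R) ^ 3 T` -/
theorem sec_sec' (h : Sym t) {T R : ι → K} (hR : tau t R R R = 0) :
    sec t R (sec t T R) = (-(tau t T R R) ^ 3) • T := by
  have h1 : sec t R (sec t T R) = ((-1 : K) ^ 2) • sec t R (sec t R T) := by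
    rw [sec_swap h T R, sec_smul2]
  rw [h1, sec_sec h hR, tau_13 h R R T]
  funext i
  simp only [Pi.smul_apply, smul_eq_mul]
  ring

end

end Pool.Agent.Run7.h443.WE
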