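import Pool.Agent.Run7.h443.WE.Glob

/-!
# From approximation with a fixed precision to density
-/

set_option autoImplicit false

namespace Pool.Agent.Run7.h443.WE

open Filter Topology

section one
variable {ι : Type*} [Fintype ι] {K : Type*} [NontriviallyNormedField K] [CompleteSpace K]
  {s₀ : ι → ι → ι → K}

theorem sec_smul_t (c : K) (t : ι → ι → ι → K) (T R : ι → K) :
    sec (fun i j k => c * t i j k) T R = c • sec t T R := by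
  unfold sec
  rw [tau_sc, tau_sc]
  funext i
  simp only [Pi.add_apply, Pi.smul_apply, smul_eq_mul]
  ring

theorem sym_sc {t : ι → ι → ι → K} (h : Sym t) (c : K) : Sym (fun i j k => c * t i j k) := by
  intro i j k
  exact ⟨by show c * t i j k = c * t j i k; rw [(h i j k).1],
    by show c * t i j k = c * t i k j; rw [(h i j k).2]⟩

theorem smul_zero_iff {t : ι → ι → ι → K} {c : K} {x : ι → K} (h : tau t x x x = 0) :
    tau t (c • x) (c • x) (c • x) = 0 := by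
  rw [tau_smul1, tau_smul2, tau_smul3, h]
  ring

/-- The local statement at one place. -/
theorem near_one (h : Sym s₀) (h2 : (2 : K) ≠ 0) (h3 : (3 : K) ≠ 0) {T₀ P₀ Q₀ R₀ : ι → K}
    (hC : Chain s₀ P₀ Q₀ R₀) (hT₀ : tau s₀ T₀ T₀ T₀ = 0) (hA : tau s₀ T₀ T₀ R₀ ≠ 0)
    (hB : tau s₀ T₀ R₀ R₀ ≠ 0) :
    ∀ᶠ y in 𝓝 (((s₀, T₀), (P₀, sec s₀ T₀ R₀)) : ((ι → ι → ι → K) × (ι → K)) × (ι → K) × (ι → K)),
      (tau y.1.1 y.2.1 y.2.1 y.2.1 = 0 →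
        tau y.1.1 ((-(tau s₀ T₀ T₀ R₀) ^ 3)⁻¹ • sec y.1.1 y.1.2 y.2.2)
          ((-(tau s₀ T₀ T₀ R₀) ^ 3)⁻¹ • sec y.1.1 y.1.2 y.2.2)
          ((-(tau s₀ T₀ T₀ R₀) ^ 3)⁻¹ • sec y.1.1 y.1.2 y.2.2) = 0 →
        ∃ Q', Chain y.1.1 y.2.1 Q' ((-(tau s₀ T₀ T₀ R₀) ^ 3)⁻¹ • sec y.1.1 y.1.2 y.2.2)) ∧
      tau y.1.1 y.1.2 y.2.2 y.2.2 ≠ 0 := by
  have hA3 : (-(tau s₀ T₀ T₀ R₀) ^ 3) ≠ 0 := neg_ne_zero.mpr (pow_ne_zero _ hA)
  have c1 : Continuous (fun y : ((ι → ι → ι → K) × (ι → K)) × (ι → K) × (ι → K) => y.1.1) := by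
    fun_prop
  have c2 : Continuous (fun y : ((ι → ι → ι → K) × (ι → K)) × (ι → K) × (ι → K) => y.1.2) := by
    fun_prop
  have c3 : Continuous (fun y : ((ι → ι → ι → K) × (ι → K)) × (ι → K) × (ι → K) => y.2.1) := by
    fun_prop
  have c4 : Continuous (fun y : ((ι → ι → ι → K) × (ι → K)) × (ι → K) × (ι → K) => y.2.2) := by
    fun_prop
  have c5 : Continuous (fun y : ((ι → ι → ι → K) × (ι → K)) × (ι → K) × (ι → K) =>
      (-(tau s₀ T₀ T₀ R₀) ^ 3)⁻¹ • sec y.1.1 y.1.2 y.2.2) := by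
    have c0 : Continuous (fun _ : ((ι → ι → ι → K) × (ι → K)) × (ι → K) × (ι → K) =>
      (-(tau s₀ T₀ T₀ R₀) ^ 3)⁻¹) := continuous_const
    exact c0.smul (((cont_tau c1 c2 c4 c4).smul c2).add ((cont_tau c1 c2 c2 c4).neg.smul c4))
  have hbase : (-(tau s₀ T₀ T₀ R₀) ^ 3)⁻¹ • sec s₀ T₀ (sec s₀ T₀ R₀) = R₀ := by
    rw [sec_sec h hT₀, smul_smul, inv_mul_cancel₀ hA3, one_smul]
  have e1 : Tendsto (fun y : ((ι → ι → ι → K) × (ι → K)) × (ι → K) × (ι → K) =>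
      ((y.1.1, y.2.1, (-(tau s₀ T₀ T₀ R₀) ^ 3)⁻¹ • sec y.1.1 y.1.2 y.2.2) :
        (ι → ι → ι → K) × (ι → K) × (ι → K))) (𝓝 ((s₀, T₀), (P₀, sec s₀ T₀ R₀)))
      (𝓝 (s₀, P₀, R₀)) := by
    have h4 := (c1.prodMk (c3.prodMk c5)).tendsto ((s₀, T₀), (P₀, sec s₀ T₀ R₀))
    dsimp only at h4
    rw [hbase] at h4
    exact h4
  have e2 : tau s₀ T₀ (sec s₀ T₀ R₀) (sec s₀ T₀ R₀) ≠ 0 := by
    have h5 : tau s₀ T₀ (sec s₀ T₀ R₀) (sec s₀ T₀ R₀) =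
        -(tau s₀ T₀ T₀ R₀) ^ 2 * tau s₀ T₀ R₀ R₀ := by
      rw [tau_rot h]
      unfold sec
      rw [sq_comb h, hT₀, tau_23 h T₀ R₀ T₀, tau_13 h R₀ R₀ T₀]
      ring
    rw [h5]
    exact mul_ne_zero (neg_ne_zero.mpr (pow_ne_zero _ hA)) hB
  have e3 : ∀ᶠ y in 𝓝 (((s₀, T₀), (P₀, sec s₀ T₀ R₀)) :
      ((ι → ι → ι → K) × (ι → K)) × (ι → K) × (ι → K)), tau y.1.1 y.1.2 y.2.2 y.2.2 ≠ 0 :=
    (cont_tau c1 c2 c4 c4).continuousAt.eventually_ne e2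
  filter_upwards [e1.eventually (chain_near h h2 h3 hC), e3] with y hy1 hy2
  exact ⟨hy1, hy2⟩

end one

section glob
variable {ι : Type*} [Fintype ι] {V : Type} [Fintype V] {K : V → Type}
  [∀ v, NontriviallyNormedField (K v)] [∀ v, CompleteSpace (K v)] [∀ v, CharZero (K v)]

/-- The local statement at all places. -/
theorem near_all (hd : DenseRange (fun (a : ℚ) (v : V) => ((a : ℚ) : K v)))
    {s₀ : ∀ v, ι → ι → ι → K v} {T₀ P₀ Q₀ R₀ : ∀ v, ι → K v} (h : ∀ v, Sym (s₀ v))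
    (hC : ∀ v, Chain (s₀ v) (P₀ v) (Q₀ v) (R₀ v)) (hT₀ : ∀ v, tau (s₀ v) (T₀ v) (T₀ v) (T₀ v) = 0)
    (hA : ∀ v, tau (s₀ v) (T₀ v) (T₀ v) (R₀ v) ≠ 0)
    (hB : ∀ v, tau (s₀ v) (T₀ v) (R₀ v) (R₀ v) ≠ 0) :
    ∀ᶠ z in 𝓝 (((s₀, T₀), (P₀, fun v => sec (s₀ v) (T₀ v) (R₀ v))) :
      ((∀ v, ι → ι → ι → K v) × (∀ v, ι → K v)) × (∀ v, ι → K v) × (∀ v, ι → K v)),
      ∀ t : ι → ι → ι → ℚ, Sym t → ∀ l : ∀ v, K v, (∀ v, l v ≠ 0) →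
        (z.1.1 = fun v i j k => l v * tv K t v i j k) → z.2.1 ∈ Cl K t → z.2.2 ∈ Cl K t →
        (∀ v, tau (tv K t v) (z.1.2 v) (z.1.2 v) (z.1.2 v) = 0) → z.1.2 ∈ Cl K t := by
  have h2 : ∀ v, (2 : K v) ≠ 0 := fun v => two_ne_zero
  have h3 : ∀ v, (3 : K v) ≠ 0 := fun v => three_ne_zero
  have e1 : ∀ v, ∀ᶠ z in 𝓝 (((s₀, T₀), (P₀, fun v => sec (s₀ v) (T₀ v) (R₀ v))) :
      ((∀ v, ι → ι → ι → K v) × (∀ v, ι → K v)) × (∀ v, ι → K v) × (∀ v, ι → K v)),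
      (tau (z.1.1 v) (z.2.1 v) (z.2.1 v) (z.2.1 v) = 0 →
        tau (z.1.1 v) ((-(tau (s₀ v) (T₀ v) (T₀ v) (R₀ v)) ^ 3)⁻¹ •
            sec (z.1.1 v) (z.1.2 v) (z.2.2 v))
          ((-(tau (s₀ v) (T₀ v) (T₀ v) (R₀ v)) ^ 3)⁻¹ • sec (z.1.1 v) (z.1.2 v) (z.2.2 v))
          ((-(tau (s₀ v) (T₀ v) (T₀ v) (R₀ v)) ^ 3)⁻¹ • sec (z.1.1 v) (z.1.2 v) (z.2.2 v)) = 0 →
        ∃ Q', Chain (z.1.1 v) (z.2.1 v) Q' ((-(tau (s₀ v) (T₀ v) (T₀ v) (R₀ v)) ^ 3)⁻¹ •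
          sec (z.1.1 v) (z.1.2 v) (z.2.2 v))) ∧
      tau (z.1.1 v) (z.1.2 v) (z.2.2 v) (z.2.2 v) ≠ 0 := by
    intro v
    have hc : Continuous (fun z : ((∀ v, ι → ι → ι → K v) × (∀ v, ι → K v)) ×
        (∀ v, ι → K v) × (∀ v, ι → K v) =>
        (((z.1.1 v, z.1.2 v), (z.2.1 v, z.2.2 v)) :
          ((ι → ι → ι → K v) × (ι → K v)) × (ι → K v) × (ι → K v))) := by fun_prop
    exact (hc.tendsto ((s₀, T₀), (P₀, fun v => sec (s₀ v) (T₀ v) (R₀ v)))).eventually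
      (near_one (h v) (h2 v) (h3 v) (hC v) (hT₀ v) (hA v) (hB v))
  rw [← Filter.eventually_all] at e1
  filter_upwards [e1] with z hz t ht l hl hs hP hR hT
  have hs' : ∀ v, z.1.1 v = fun i j k => l v * tv K t v i j k := fun v => congrFun hs v
  have hSs : ∀ v, Sym (z.1.1 v) := fun v => by rw [hs' v]; exact sym_sc (emb_sym ht v) _
  have hτ : ∀ v x y w, tau (z.1.1 v) x y w = l v * tau (tv K t v) x y w := by
    intro v x y w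
    rw [hs' v, tau_sc]
  have hPz : ∀ v, tau (z.1.1 v) (z.2.1 v) (z.2.1 v) (z.2.1 v) = 0 := fun v => by
    rw [hτ, Cl_zero hP v, mul_zero]
  have hRz : ∀ v, tau (z.1.1 v) (z.2.2 v) (z.2.2 v) (z.2.2 v) = 0 := fun v => by
    rw [hτ, Cl_zero hR v, mul_zero]
  have hTz : ∀ v, tau (z.1.1 v) (z.1.2 v) (z.1.2 v) (z.1.2 v) = 0 := fun v => by
    rw [hτ, hT v, mul_zero]
  have hQ := fun v => (hz v).1 (hPz v) (smul_zero_iff (sec_mem (hSs v) (hTz v) (hRz v)))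
  choose Q hQ using hQ
  have n1 : ∀ v x y w, tau (z.1.1 v) x y w = 0 → tau (tv K t v) x y w = 0 := by
    intro v x y w hh
    rw [hτ] at hh
    exact (mul_eq_zero.mp hh).resolve_left (hl v)
  have n2 : ∀ v x y w, tau (z.1.1 v) x y w ≠ 0 → tau (tv K t v) x y w ≠ 0 := by
    intro v x y w hh hh'
    apply hh
    rw [hτ, hh', mul_zero]
  have hQCl : Q ∈ Cl K t := by
    refine Cl_step hd ht hP (fun v => n1 v _ _ _ (hQ v).q) (fun v => n1 v _ _ _ (hQ v).pq)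
      (fun v => n2 v _ _ _ (hQ v).qp) (fun v => ?_)
    obtain ⟨u, hu⟩ := (hQ v).sm
    exact ⟨u, n2 v _ _ _ hu⟩
  have hRCl : (fun v => (-(tau (s₀ v) (T₀ v) (T₀ v) (R₀ v)) ^ 3)⁻¹ •
      sec (z.1.1 v) (z.1.2 v) (z.2.2 v)) ∈ Cl K t :=
    Cl_step hd ht hQCl (fun v => n1 v _ _ _ (hQ v).r) (fun v => n1 v _ _ _ (hQ v).qr)
      (fun v => n2 v _ _ _ (hQ v).rq) (fun v => ⟨_, n2 v _ _ _ (hQ v).qp⟩)
  have hZCl : (fun v => sec (tv K t v) (z.1.2 v) (z.2.2 v)) ∈ Cl K t := by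
    have h4 := Cl_smul hd (fun v => (l v)⁻¹ * (-(tau (s₀ v) (T₀ v) (T₀ v) (R₀ v)) ^ 3)) hRCl
    have h5 : (fun v => ((l v)⁻¹ * (-(tau (s₀ v) (T₀ v) (T₀ v) (R₀ v)) ^ 3)) •
        (-(tau (s₀ v) (T₀ v) (T₀ v) (R₀ v)) ^ 3)⁻¹ • sec (z.1.1 v) (z.1.2 v) (z.2.2 v)) =
        fun v => sec (tv K t v) (z.1.2 v) (z.2.2 v) := by
      funext v
      have hA3 : (-(tau (s₀ v) (T₀ v) (T₀ v) (R₀ v)) ^ 3) ≠ 0 :=
        neg_ne_zero.mpr (pow_ne_zero _ (hA v))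
      rw [smul_smul, mul_assoc, mul_inv_cancel₀ hA3, mul_one, hs' v, sec_smul_t, smul_smul,
        inv_mul_cancel₀ (hl v), one_smul]
    rw [h5] at h4
    exact h4
  have hWCl := Cl_sec ht hR hZCl
  have h6 : (fun v => sec (tv K t v) (z.2.2 v) (sec (tv K t v) (z.1.2 v) (z.2.2 v))) =
      fun v => (-(tau (tv K t v) (z.1.2 v) (z.2.2 v) (z.2.2 v)) ^ 3) • z.1.2 v := by
    funext v
    rw [sec_sec' (emb_sym ht v) (Cl_zero hR v)]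
  rw [h6] at hWCl
  have h7 := Cl_smul hd (fun v => (-(tau (tv K t v) (z.1.2 v) (z.2.2 v) (z.2.2 v)) ^ 3)⁻¹) hWCl
  have h8 : (fun v => (-(tau (tv K t v) (z.1.2 v) (z.2.2 v) (z.2.2 v)) ^ 3)⁻¹ •
      (-(tau (tv K t v) (z.1.2 v) (z.2.2 v) (z.2.2 v)) ^ 3) • z.1.2 v) = z.1.2 := by
    funext v
    have h9 : (-(tau (tv K t v) (z.1.2 v) (z.2.2 v) (z.2.2 v)) ^ 3) ≠ 0 :=
      neg_ne_zero.mpr (pow_ne_zero _ (n2 v _ _ _ (hz v).2))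
    rw [smul_smul, inv_mul_cancel₀ h9, one_smul]
  rw [h8] at h7
  exact h7

/-- Approximation of the zeros of the cubic form up to the relative error `δ`. -/
def WAd (K : V → Type) [∀ v, NontriviallyNormedField (K v)] (t : ι → ι → ι → ℚ) (δ : ℝ) : Prop :=
  ∀ Z : ∀ v, ι → K v, (∀ v, Z v ≠ 0 ∧ tau (tv K t v) (Z v) (Z v) (Z v) = 0) →
    ∃ Z' ∈ Cl K t, ∀ v, ‖Z v - Z' v‖ ≤ δ * ‖Z v‖

theorem WAd.mono {t : ι → ι → ι → ℚ} {δ δ' : ℝ} (h : WAd K t δ) (hδ : δ ≤ δ') :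
    WAd K t δ' := by
  intro Z hZ
  obtain ⟨Z', h1, h2⟩ := h Z hZ
  exact ⟨Z', h1, fun v => (h2 v).trans (mul_le_mul_of_nonneg_right hδ (norm_nonneg _))⟩

/-- The local statement with the approximation property. -/
theorem near2 (hd : DenseRange (fun (a : ℚ) (v : V) => ((a : ℚ) : K v)))
    {s₀ : ∀ v, ι → ι → ι → K v} {T₀ P₀ Q₀ R₀ : ∀ v, ι → K v} (h : ∀ v, Sym (s₀ v))
    (hC : ∀ v, Chain (s₀ v) (P₀ v) (Q₀ v) (R₀ v)) (hT₀ : ∀ v, tau (s₀ v) (T₀ v) (T₀ v) (T₀ v) = 0)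
    (hA : ∀ v, tau (s₀ v) (T₀ v) (T₀ v) (R₀ v) ≠ 0)
    (hB : ∀ v, tau (s₀ v) (T₀ v) (R₀ v) (R₀ v) ≠ 0) :
    ∃ δ : ℝ, 0 < δ ∧ ∀ᶠ z in 𝓝 ((s₀, T₀) : (∀ v, ι → ι → ι → K v) × (∀ v, ι → K v)),
      ∀ t : ι → ι → ι → ℚ, Sym t → ∀ l : ∀ v, K v, (∀ v, l v ≠ 0) →
        (z.1 = fun v i j k => l v * tv K t v i j k) → WAd K t δ →
        (∀ v, tau (tv K t v) (z.2 v) (z.2 v) (z.2 v) = 0) → z.2 ∈ Cl K t := by
  have h3 : ∀ v, (3 : K v) ≠ 0 := fun v => three_ne_zero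
  have e := near_all hd h hC hT₀ hA hB
  rw [nhds_prod_eq, Filter.eventually_prod_iff] at e
  obtain ⟨pa, hpa, pb, hpb, hpp⟩ := e
  rw [Metric.eventually_nhds_iff] at hpb
  obtain ⟨r, hr, hpb⟩ := hpb
  obtain ⟨R₁, hR₁⟩ : ∃ R₁ : ∀ v, ι → K v, R₁ = fun v => sec (s₀ v) (T₀ v) (R₀ v) := ⟨_, rfl⟩
  have hr2 : 0 < r / 2 := half_pos hr
  have hP1 : ∀ v, ∀ᶠ s in 𝓝 (s₀ v), ∃ P' ∈ Metric.ball (P₀ v) (r / 2) ∩ {0}ᶜ,
      tau s P' P' P' = 0 := by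
    intro v
    obtain ⟨u, hu⟩ := (hC v).sm
    have hP0 : P₀ v ≠ 0 := by
      intro h0
      apply hu
      rw [h0, tau_zero1]
    exact point_near (h v) (h3 v) (hC v).p hu
      (Filter.inter_mem (Metric.ball_mem_nhds _ hr2) (compl_singleton_mem_nhds hP0))
  have hR1 : ∀ v, ∀ᶠ s in 𝓝 (s₀ v), ∃ P' ∈ Metric.ball (R₁ v) (r / 2) ∩ {0}ᶜ,
      tau s P' P' P' = 0 := by
    intro v
    have hzero : tau (s₀ v) (R₁ v) (R₁ v) (R₁ v) = 0 := by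
      rw [hR₁]
      exact sec_mem (h v) (hT₀ v) (hC v).r
    have hu : tau (s₀ v) (R₁ v) (R₁ v) (T₀ v) ≠ 0 := by
      have h5 : tau (s₀ v) (R₁ v) (R₁ v) (T₀ v) =
          -(tau (s₀ v) (T₀ v) (T₀ v) (R₀ v)) ^ 2 * tau (s₀ v) (T₀ v) (R₀ v) (R₀ v) := by
        rw [hR₁]
        unfold sec
        rw [sq_comb (h v), hT₀ v, tau_23 (h v) (T₀ v) (R₀ v) (T₀ v),
          tau_13 (h v) (R₀ v) (R₀ v) (T₀ v)]
        ring
      rw [h5]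
      exact mul_ne_zero (neg_ne_zero.mpr (pow_ne_zero _ (hA v))) (hB v)
    have hP0 : R₁ v ≠ 0 := by
      intro h0
      apply hu
      rw [h0, tau_zero1]
    exact point_near (h v) (h3 v) hzero hu
      (Filter.inter_mem (Metric.ball_mem_nhds _ hr2) (compl_singleton_mem_nhds hP0))
  obtain ⟨B, hB'⟩ : ∃ B : ℝ, B = 1 + r + ∑ v, (‖P₀ v‖ + ‖R₁ v‖) := ⟨_, rfl⟩
  have hB0 : 0 < B := by
    rw [hB']
    have : 0 ≤ ∑ v, (‖P₀ v‖ + ‖R₁ v‖) :=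
      Finset.sum_nonneg fun v _ => add_nonneg (norm_nonneg _) (norm_nonneg _)
    linarith
  have hBv : ∀ v, ‖P₀ v‖ + r / 2 ≤ B ∧ ‖R₁ v‖ + r / 2 ≤ B := by
    intro v
    have h1 : ‖P₀ v‖ + ‖R₁ v‖ ≤ ∑ v, (‖P₀ v‖ + ‖R₁ v‖) :=
      Finset.single_le_sum (f := fun v => ‖P₀ v‖ + ‖R₁ v‖)
        (fun v _ => add_nonneg (norm_nonneg _) (norm_nonneg _)) (Finset.mem_univ v)
    have h2 := norm_nonneg (P₀ v)
    have h4 := norm_nonneg (R₁ v)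
    rw [hB']
    constructor <;> linarith
  refine ⟨r / (4 * B), by positivity, ?_⟩
  have key : ∀ (W₀ W' W'' : ∀ v, ι → K v), (∀ v, ‖W₀ v‖ + r / 2 ≤ B) →
      (∀ v, W' v ∈ Metric.ball (W₀ v) (r / 2)) →
      (∀ v, ‖W' v - W'' v‖ ≤ r / (4 * B) * ‖W' v‖) → dist W'' W₀ < r := by
    intro W₀ W' W'' g1 g2 g3
    rw [dist_pi_lt_iff hr]
    intro v
    have g4 : dist (W' v) (W₀ v) < r / 2 := g2 v
    have g5 : ‖W' v‖ ≤ B := by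
      have : ‖W' v‖ ≤ ‖W₀ v‖ + dist (W' v) (W₀ v) := by
        rw [dist_eq_norm]
        have := norm_add_le (W₀ v) (W' v - W₀ v)
        rwa [add_sub_cancel] at this
      linarith [g1 v]
    have g6 : dist (W'' v) (W' v) ≤ r / 4 := by
      rw [dist_comm, dist_eq_norm]
      refine (g3 v).trans ?_
      calc r / (4 * B) * ‖W' v‖ ≤ r / (4 * B) * B :=
            mul_le_mul_of_nonneg_left g5 (by positivity)
        _ = r / 4 := by field_simp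
    calc dist (W'' v) (W₀ v) ≤ dist (W'' v) (W' v) + dist (W' v) (W₀ v) := dist_triangle _ _ _
      _ < r := by linarith
  have e1 : ∀ v, ∀ᶠ z in 𝓝 ((s₀, T₀) : (∀ v, ι → ι → ι → K v) × (∀ v, ι → K v)),
      (∃ P' ∈ Metric.ball (P₀ v) (r / 2) ∩ {0}ᶜ, tau (z.1 v) P' P' P' = 0) ∧
      (∃ P' ∈ Metric.ball (R₁ v) (r / 2) ∩ {0}ᶜ, tau (z.1 v) P' P' P' = 0) := by
    intro v
    have hc : Continuous (fun z : (∀ v, ι → ι → ι → K v) × (∀ v, ι → K v) => z.1 v) := by fun_prop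
    exact (hc.tendsto (s₀, T₀)).eventually ((hP1 v).and (hR1 v))
  rw [← Filter.eventually_all] at e1
  filter_upwards [hpa, e1] with z hz hz1 t ht l hl hs hW hT
  choose P' hP' hP'z using fun v => (hz1 v).1
  choose R' hR' hR'z using fun v => (hz1 v).2
  have hτ : ∀ v x y w, tau (z.1 v) x y w = l v * tau (tv K t v) x y w := by
    intro v x y w
    rw [congrFun hs v, tau_sc]
  have hτ0 : ∀ v x, tau (z.1 v) x x x = 0 → tau (tv K t v) x x x = 0 := by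
    intro v x hx
    rw [hτ] at hx
    exact (mul_eq_zero.mp hx).resolve_left (hl v)
  obtain ⟨P'', hP1'', hP2''⟩ := hW P' (fun v => ⟨(hP' v).2, hτ0 v _ (hP'z v)⟩)
  obtain ⟨R'', hR1'', hR2''⟩ := hW R' (fun v => ⟨(hR' v).2, hτ0 v _ (hR'z v)⟩)
  have hdP := key P₀ P' P'' (fun v => (hBv v).1) (fun v => (hP' v).1) hP2''
  have hdR := key R₁ R' R'' (fun v => (hBv v).2) (fun v => (hR' v).1) hR2''
  have hpb' : pb (P'', R'') := by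
    apply hpb
    rw [Prod.dist_eq]
    rw [hR₁] at hdR
    exact max_lt hdP hdR
  exact hpp hz hpb' t ht l hl hs hP1'' hR1'' hT

/-- The uniform statement over a compact set of smooth equations. -/
theorem unif [∀ v, ProperSpace (K v)] (hd : DenseRange (fun (a : ℚ) (v : V) => ((a : ℚ) : K v)))
    (hι : 4 ≤ Fintype.card ι) {G : Set (∀ v, ι → ι → ι → K v)} (hG : IsCompact G)
    (hS : ∀ s ∈ G, ∀ v, Sym (s v) ∧ Sm (s v)) :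
    ∃ δ : ℝ, 0 < δ ∧ ∀ t : ι → ι → ι → ℚ, Sym t → ∀ l : ∀ v, K v, (∀ v, l v ≠ 0) →
      (fun v i j k => l v * tv K t v i j k) ∈ G → WAd K t δ →
      ∀ T : ∀ v, ι → K v, (∀ v, T v ≠ 0) → (∀ v, tau (tv K t v) (T v) (T v) (T v) = 0) →
        T ∈ Cl K t := by
  choose c hc using fun v => NormedField.exists_one_lt_norm (K v)
  have hc0 : ∀ v, 0 < 1 / ‖c v‖ := fun v => by
    have := hc v
    positivity
  obtain ⟨𝒦, h𝒦⟩ : ∃ 𝒦 : Set ((∀ v, ι → ι → ι → K v) × (∀ v, ι → K v)),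
      𝒦 = (G ×ˢ (Set.pi Set.univ fun v => Metric.closedBall (0 : ι → K v) 1)) ∩
        {z | ∀ v, 1 / ‖c v‖ ≤ ‖z.2 v‖ ∧ tau (z.1 v) (z.2 v) (z.2 v) (z.2 v) = 0} := ⟨_, rfl⟩
  have h𝒦c : IsCompact 𝒦 := by
    rw [h𝒦]
    refine IsCompact.inter_right (hG.prod (isCompact_univ_pi fun v => isCompact_closedBall _ _)) ?_
    have h2 : {z : (∀ v, ι → ι → ι → K v) × (∀ v, ι → K v) |
        ∀ v, 1 / ‖c v‖ ≤ ‖z.2 v‖ ∧ tau (z.1 v) (z.2 v) (z.2 v) (z.2 v) = 0} =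
        ⋂ v, ({z | 1 / ‖c v‖ ≤ ‖z.2 v‖} ∩ {z | tau (z.1 v) (z.2 v) (z.2 v) (z.2 v) = 0}) := by
      ext z; simp
    rw [h2]
    refine isClosed_iInter fun v => IsClosed.inter ?_ ?_
    · exact isClosed_le continuous_const (by fun_prop)
    · have c1 : Continuous (fun z : (∀ v, ι → ι → ι → K v) × (∀ v, ι → K v) => z.1 v) := by
        fun_prop
      have c2 : Continuous (fun z : (∀ v, ι → ι → ι → K v) × (∀ v, ι → K v) => z.2 v) := by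
        fun_prop
      exact isClosed_eq (cont_tau c1 c2 c2 c2) continuous_const
  have key : ∃ δ : ℝ, 0 < δ ∧ ∀ z ∈ 𝒦, ∀ t : ι → ι → ι → ℚ, Sym t → ∀ l : ∀ v, K v,
      (∀ v, l v ≠ 0) → (z.1 = fun v i j k => l v * tv K t v i j k) → WAd K t δ →
      (∀ v, tau (tv K t v) (z.2 v) (z.2 v) (z.2 v) = 0) → z.2 ∈ Cl K t := by
    refine h𝒦c.induction_on (p := fun S => ∃ δ : ℝ, 0 < δ ∧ ∀ z ∈ S, ∀ t : ι → ι → ι → ℚ, Sym t →
      ∀ l : ∀ v, K v,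
      (∀ v, l v ≠ 0) → (z.1 = fun v i j k => l v * tv K t v i j k) → WAd K t δ →
      (∀ v, tau (tv K t v) (z.2 v) (z.2 v) (z.2 v) = 0) → z.2 ∈ Cl K t) ?_ ?_ ?_ ?_
    · exact ⟨1, one_pos, fun z hz => absurd hz (Set.notMem_empty z)⟩
    · rintro S S' hSS ⟨δ, hδ, hh⟩
      exact ⟨δ, hδ, fun z hz => hh z (hSS hz)⟩
    · rintro S S' ⟨δ, hδ, hh⟩ ⟨δ', hδ', hh'⟩
      refine ⟨min δ δ', lt_min hδ hδ', ?_⟩
      rintro z (hz | hz) t ht l hl hs hW hT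
      · exact hh z hz t ht l hl hs (hW.mono (min_le_left _ _)) hT
      · exact hh' z hz t ht l hl hs (hW.mono (min_le_right _ _)) hT
    · rintro ⟨s₀, T₀⟩ hz
      rw [h𝒦] at hz
      obtain ⟨⟨hz1, -⟩, hz2⟩ := hz
      have hz1' : s₀ ∈ G := hz1
      have hz2' : ∀ v, 1 / ‖c v‖ ≤ ‖T₀ v‖ ∧ tau (s₀ v) (T₀ v) (T₀ v) (T₀ v) = 0 := hz2
      have hT0 : ∀ v, T₀ v ≠ 0 := fun v => by
        rw [← norm_pos_iff]
        exact (hc0 v).trans_le (hz2' v).1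
      have hch := fun v => chain_exists (hS s₀ hz1' v).1 two_ne_zero three_ne_zero
        (hS s₀ hz1' v).2 hι (hT0 v) (hz2' v).2 (hT0 v)
      choose P₀ Q₀ R₀ hC hA hB using hch
      obtain ⟨δ, hδ, hev⟩ := near2 hd (fun v => (hS s₀ hz1' v).1) hC (fun v => (hz2' v).2) hA hB
      exact ⟨_, mem_nhdsWithin_of_mem_nhds hev, δ, hδ, fun z hz => hz⟩
  obtain ⟨δ, hδ, hkey⟩ := key
  refine ⟨δ, hδ, ?_⟩
  intro t ht l hl hs hW T hT0 hT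
  choose d hd0 hd1 hd2 hd3 using fun v => rescale_to_shell (hc v) one_pos (hT0 v)
  have hdT : ∀ v, tau (tv K t v) (d v • T v) (d v • T v) (d v • T v) = 0 :=
    fun v => smul_zero_iff (hT v)
  have hmem : ((fun v i j k => l v * tv K t v i j k, fun v => d v • T v) :
      (∀ v, ι → ι → ι → K v) × (∀ v, ι → K v)) ∈ 𝒦 := by
    rw [h𝒦]
    refine ⟨⟨hs, ?_⟩, ?_⟩
    · intro v _
      show d v • T v ∈ Metric.closedBall (0 : ι → K v) 1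
      rw [mem_closedBall_zero_iff]
      exact (hd1 v).le
    · intro v
      refine ⟨hd2 v, ?_⟩
      show tau (fun i j k => l v * tv K t v i j k) (d v • T v) (d v • T v) (d v • T v) = 0
      rw [tau_sc, hdT v, mul_zero]
  have h5 := hkey _ hmem t ht l hl rfl hW hdT
  have h6 := Cl_smul hd (fun v => (d v)⁻¹) h5
  have h7 : (fun v => (d v)⁻¹ • d v • T v) = T := by
    funext v
    rw [smul_smul, inv_mul_cancel₀ (hd0 v), one_smul]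
  have h8 : (fun v => (d v)⁻¹ • d v • T v) ∈ Cl K t := h6
  rw [h7] at h8
  exact h8

end glob

end Pool.Agent.Run7.h443.WE
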